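import Pool.Agent.Lib_helper86.Inv.WordDefs

/-!
PART P7b: for one word of mirrors the lines which come back to themselves are a null set.
-/

set_option autoImplicit false

namespace Inv38

open Matrix MeasureTheory Filter
open scoped RealInnerProductSpace

section transfer

/-! ### from functions to germs -/

variable {P : Type*} {n : ℕ} (U : Ultrafilter P)

/-- a germ -/
abbrev gm (f : P → ℝ) : Germ (U : Filter P) ℝ := (f : Germ (U : Filter P) ℝ)

/-- a family of states as a state over the germs -/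
def toGerm (σ : P → St n ℝ) : St n (Germ (U : Filter P) ℝ) :=
  ⟨fun i => gm U fun p => (σ p).x i, fun i => gm U fun p => (σ p).w i⟩

lemma gm_sum {ι : Type*} (S : Finset ι) (f : ι → P → ℝ) :
    gm U (fun p => ∑ i ∈ S, f i p) = ∑ i ∈ S, gm U (f i) := by
  have h := map_sum (Germ.coeRingHom (U : Filter P) (R := ℝ)) f S
  rw [Germ.coe_coeRingHom] at h
  rw [← h]
  congr 1
  ext p
  simp

lemma gm_dot (u v : P → Fin n → ℝ) :
    gm U (fun p => u p ⬝ᵥ v p)
      = (fun i => gm U fun p => u p i) ⬝ᵥ (fun i => gm U fun p => v p i) := by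
  simp only [dotProduct]
  rw [gm_sum]
  rfl

lemma nn_toGerm (σ : P → St n ℝ) : nn (toGerm U σ) = gm U (fun p => nn (σ p)) := by
  simp only [nn]
  rw [gm_dot]
  rfl

lemma sub_toGerm (c : Fin n → ℝ) (σ : P → St n ℝ) :
    (toGerm U σ).x - cc c = fun i => gm U fun p => ((σ p).x - (cc c : Fin n → ℝ)) i := rfl

lemma gg_toGerm (c : Fin n → ℝ) (σ : P → St n ℝ) :
    gg c (toGerm U σ) = gm U (fun p => gg c (σ p)) := by
  simp only [gg]
  rw [sub_toGerm, nn_toGerm]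
  have h1 : (toGerm U σ).w = fun i => gm U fun p => (σ p).w i := rfl
  rw [h1, ← gm_dot, ← gm_dot]
  rfl

lemma tt_toGerm (c : Fin n → ℝ) (r : ℝ) (s : P → ℝ) (σ : P → St n ℝ) :
    tt ⟨c, r, gm U s⟩ (toGerm U σ) = gm U (fun p => tt ⟨c, r, s p⟩ (σ p)) := by
  simp only [tt]
  rw [sub_toGerm, nn_toGerm]
  have h1 : (toGerm U σ).w = fun i => gm U fun p => (σ p).w i := rfl
  rw [h1, ← gm_dot]
  rfl

lemma aa_toGerm (c : Fin n → ℝ) (r : ℝ) (s : P → ℝ) (σ : P → St n ℝ) :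
    aa ⟨c, r, gm U s⟩ (toGerm U σ) = fun i => gm U (fun p => aa ⟨c, r, s p⟩ (σ p) i) := by
  simp only [aa]
  rw [sub_toGerm, tt_toGerm]
  rfl

lemma ww_toGerm (c : Fin n → ℝ) (r : ℝ) (s : P → ℝ) (σ : P → St n ℝ) :
    ww ⟨c, r, gm U s⟩ (toGerm U σ) = fun i => gm U (fun p => ww ⟨c, r, s p⟩ (σ p) i) := by
  simp only [ww]
  rw [aa_toGerm]
  rfl

lemma step_toGerm (c : Fin n → ℝ) (r : ℝ) (s : P → ℝ) (σ : P → St n ℝ) :
    step ⟨c, r, gm U s⟩ (toGerm U σ) = toGerm U (fun p => step ⟨c, r, s p⟩ (σ p)) := by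
  simp only [step]
  rw [ww_toGerm, tt_toGerm]
  rfl

lemma ok_toGerm (c : Fin n → ℝ) (r : ℝ) (s : P → ℝ) (σ : P → St n ℝ)
    (h : ∀ᶠ p in (U : Filter P), Ok ⟨c, r, s p⟩ (σ p)) :
    Ok (⟨c, r, gm U s⟩ : Lt n (Germ (U : Filter P) ℝ)) (toGerm U σ) := by
  obtain ⟨p, hp⟩ := h.exists
  refine ⟨hp.1, ?_⟩
  rw [nn_toGerm, gg_toGerm]
  change gm U (fun p => s p ^ 2) = gm U (fun p => r ^ 2 * nn (σ p) - gg c (σ p))
  exact Germ.coe_eq.mpr (h.mono fun p hp => hp.2)

/-- the word at a parameter -/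
def atP (W : List ((Fin n → ℝ) × ℝ × (P → ℝ))) (p : P) : List (Lt n ℝ) :=
  W.map fun l => ⟨l.1, l.2.1, l.2.2 p⟩

/-- the word of germs -/
def atU (W : List ((Fin n → ℝ) × ℝ × (P → ℝ))) : List (Lt n (Germ (U : Filter P) ℝ)) :=
  W.map fun l => ⟨l.1, l.2.1, gm U l.2.2⟩

lemma transfer (W : List ((Fin n → ℝ) × ℝ × (P → ℝ))) (σ : P → St n ℝ)
    (h : ∀ᶠ p in (U : Filter P), OkL (atP W p) (σ p)) :
    OkL (atU U W) (toGerm U σ) ∧
      run (atU U W) (toGerm U σ) = toGerm U (fun p => run (atP W p) (σ p)) := by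
  induction W generalizing σ with
  | nil => exact ⟨trivial, rfl⟩
  | cons l W ih =>
    obtain ⟨c, r, s⟩ := l
    have h1 := ok_toGerm U c r s σ (h.mono fun p hp => hp.1)
    have h2 := ih (fun p => step ⟨c, r, s p⟩ (σ p)) (h.mono fun p hp => hp.2)
    rw [← step_toGerm] at h2
    exact ⟨⟨h1, h2.1⟩, h2.2⟩

end transfer

section isometries

/-! ### constant isometries -/

variable {n : ℕ}

/-- the action of an affine map on states -/
def act (M : Matrix (Fin n) (Fin n) ℝ) (b : Fin n → ℝ) (σ : St n ℝ) : St n ℝ :=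
  ⟨M *ᵥ σ.x + b, M *ᵥ σ.w⟩

lemma ortho_dot {M : Matrix (Fin n) (Fin n) ℝ} (hM : Mᵀ * M = 1) (u v : Fin n → ℝ) :
    (M *ᵥ u) ⬝ᵥ (M *ᵥ v) = u ⬝ᵥ v := by
  rw [dotProduct_mulVec, vecMul_mulVec, hM, vecMul_one]

lemma cc_real (c : Fin n → ℝ) : (cc c : Fin n → ℝ) = c := rfl

lemma act_sub (M : Matrix (Fin n) (Fin n) ℝ) (b c : Fin n → ℝ) (σ : St n ℝ) :
    (act M b σ).x - cc (M *ᵥ c + b) = M *ᵥ (σ.x - cc c) := by
  rw [cc_real, cc_real, mulVec_sub, act]
  ext i
  simp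

lemma step_act {M : Matrix (Fin n) (Fin n) ℝ} (hM : Mᵀ * M = 1) (b c : Fin n → ℝ) (r s : ℝ)
    (σ : St n ℝ) :
    step ⟨M *ᵥ c + b, r, s⟩ (act M b σ) = act M b (step ⟨c, r, s⟩ σ) := by
  have hw : (act M b σ).w = M *ᵥ σ.w := rfl
  have ht : tt ⟨M *ᵥ c + b, r, s⟩ (act M b σ) = tt ⟨c, r, s⟩ σ := by
    simp only [tt, nn]
    rw [act_sub, hw, ortho_dot hM, ortho_dot hM]
  have ha : aa ⟨M *ᵥ c + b, r, s⟩ (act M b σ) = M *ᵥ (aa ⟨c, r, s⟩ σ) := by
    simp only [aa]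
    rw [act_sub, hw, ht, mulVec_add, mulVec_smul]
  have hww : ww ⟨M *ᵥ c + b, r, s⟩ (act M b σ) = M *ᵥ (ww ⟨c, r, s⟩ σ) := by
    simp only [ww]
    rw [ha, hw, mulVec_sub, mulVec_smul]
  refine St.ext ?_ hww
  change (act M b σ).x + tt ⟨M *ᵥ c + b, r, s⟩ (act M b σ) •
    ((act M b σ).w - ww ⟨M *ᵥ c + b, r, s⟩ (act M b σ)) = M *ᵥ (σ.x + tt ⟨c, r, s⟩ σ •
      (σ.w - ww ⟨c, r, s⟩ σ)) + b
  rw [ht, hww, hw, mulVec_add, mulVec_smul, mulVec_sub]
  change M *ᵥ σ.x + b + _ = _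
  abel

lemma ok_act {M : Matrix (Fin n) (Fin n) ℝ} (hM : Mᵀ * M = 1) (b c : Fin n → ℝ) (r s : ℝ)
    (σ : St n ℝ) :
    Ok ⟨M *ᵥ c + b, r, s⟩ (act M b σ) ↔ Ok ⟨c, r, s⟩ σ := by
  have hw : (act M b σ).w = M *ᵥ σ.w := rfl
  simp only [Ok, nn, gg]
  rw [act_sub, hw, ortho_dot hM, ortho_dot hM, ortho_dot hM]

/-- reflection in a hyperplane, linear part -/
def hpl (ν : Fin n → ℝ) : Matrix (Fin n) (Fin n) ℝ := 1 - (2 : ℝ) • vecMulVec ν ν

lemma hpl_mulVec (ν u : Fin n → ℝ) : hpl ν *ᵥ u = u - (2 * (ν ⬝ᵥ u)) • ν := by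
  rw [hpl, sub_mulVec, one_mulVec, smul_mulVec, vecMulVec_mulVec]
  ext i
  simp
  ring

lemma hpl_ortho {ν : Fin n → ℝ} (hν : ν ⬝ᵥ ν = 1) : (hpl ν)ᵀ * hpl ν = 1 := by
  have h1 : (hpl ν)ᵀ = hpl ν := by
    rw [hpl, transpose_sub, transpose_one, transpose_smul, transpose_vecMulVec]
  rw [h1]
  apply Matrix.toLin'.injective
  ext u i
  simp only [LinearMap.coe_comp, Function.comp_apply, Matrix.toLin'_apply, ← mulVec_mulVec,
    hpl_mulVec, dotProduct_sub, dotProduct_smul, hν, one_mulVec]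
  simp
  ring

lemma act_plane (M : Matrix (Fin n) (Fin n) ℝ) (b ν : Fin n → ℝ) (h : ℝ) (hν : ν ⬝ᵥ ν = 1)
    (σ : St n ℝ) :
    act (M * hpl ν) (b + (2 * h) • (M *ᵥ ν))
      ⟨σ.x - (2 * (ν ⬝ᵥ σ.x - h)) • ν, σ.w - (2 * (ν ⬝ᵥ σ.w)) • ν⟩ = act M b σ := by
  refine St.ext ?_ ?_
  · change (M * hpl ν) *ᵥ (σ.x - (2 * (ν ⬝ᵥ σ.x - h)) • ν) + (b + (2 * h) • (M *ᵥ ν))
      = M *ᵥ σ.x + b
    rw [← mulVec_mulVec, hpl_mulVec, dotProduct_sub, dotProduct_smul, hν]
    simp only [mulVec_sub, mulVec_smul]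
    ext i
    simp only [Pi.add_apply, Pi.sub_apply, Pi.smul_apply, smul_eq_mul]
    ring
  · change (M * hpl ν) *ᵥ (σ.w - (2 * (ν ⬝ᵥ σ.w)) • ν) = M *ᵥ σ.w
    rw [← mulVec_mulVec, hpl_mulVec, dotProduct_sub, dotProduct_smul, hν]
    simp only [mulVec_sub, mulVec_smul]
    ext i
    simp only [Pi.sub_apply, Pi.smul_apply, smul_eq_mul]
    ring

end isometries

section words

/-! ### the unfolded word -/

variable {n : ℕ}

lemma okL_append (L : List (Lt n ℝ)) (l : Lt n ℝ) (σ : St n ℝ) :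
    OkL (L ++ [l]) σ ↔ OkL L σ ∧ Ok l (run L σ) := by
  induction L generalizing σ with
  | nil => simp [OkL, run]
  | cons a L ih =>
    simp only [List.cons_append, OkL, run]
    rw [ih]
    tauto

lemma run_append (L : List (Lt n ℝ)) (l : Lt n ℝ) (σ : St n ℝ) :
    run (L ++ [l]) σ = step l (run L σ) := by
  induction L generalizing σ with
  | nil => rfl
  | cons a L ih =>
    simp only [List.cons_append, run]
    rw [ih]

lemma exists_word {P : Type*} (X : Set P) (S : P → ℕ → St n ℝ) (k : ℕ)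
    (hyp : ∀ i < k, (∃ (c : Fin n → ℝ) (r : ℝ) (s : P → ℝ), ∀ p ∈ X,
        Ok ⟨c, r, s p⟩ (S p i) ∧ step ⟨c, r, s p⟩ (S p i) = S p (i + 1)) ∨
      (∃ (ν : Fin n → ℝ) (h : ℝ), ν ⬝ᵥ ν = 1 ∧ ∀ p ∈ X,
        S p (i + 1) = ⟨(S p i).x - (2 * (ν ⬝ᵥ (S p i).x - h)) • ν,
          (S p i).w - (2 * (ν ⬝ᵥ (S p i).w)) • ν⟩)) :
    ∃ (M : Matrix (Fin n) (Fin n) ℝ) (b : Fin n → ℝ) (W : List ((Fin n → ℝ) × ℝ × (P → ℝ))),
      Mᵀ * M = 1 ∧ ∀ p ∈ X, OkL (atP W p) (S p 0) ∧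
        run (atP W p) (S p 0) = act M b (S p k) := by
  induction k with
  | zero =>
    refine ⟨1, 0, [], by simp, fun p _ => ⟨trivial, ?_⟩⟩
    exact St.ext (by simp [act, run, atP]) (by simp [act, run, atP])
  | succ k ih =>
    obtain ⟨M, b, W, hM, hW⟩ := ih fun i hi => hyp i (by omega)
    rcases hyp k (by omega) with ⟨c, r, s, hs⟩ | ⟨ν, h, hν, hs⟩
    · refine ⟨M, b, W ++ [(M *ᵥ c + b, r, s)], hM, fun p hp => ?_⟩
      have e1 : atP (W ++ [(M *ᵥ c + b, r, s)]) p = atP W p ++ [⟨M *ᵥ c + b, r, s p⟩] := by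
        simp [atP]
      obtain ⟨h1, h2⟩ := hW p hp
      obtain ⟨h3, h4⟩ := hs p hp
      rw [e1, okL_append, run_append, h2, ok_act hM, step_act hM, h4]
      exact ⟨⟨h1, h3⟩, rfl⟩
    · refine ⟨M * hpl ν, b + (2 * h) • (M *ᵥ ν), W, ?_, fun p hp => ?_⟩
      · rw [transpose_mul, Matrix.mul_assoc, ← Matrix.mul_assoc Mᵀ, hM, Matrix.one_mul,
          hpl_ortho hν]
      · obtain ⟨h1, h2⟩ := hW p hp
        rw [hs p hp, act_plane M b ν h hν (S p k)]
        exact ⟨h1, h2⟩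

lemma sphere_step (a c w : Fin n → ℝ) (r T : ℝ) (hr : 0 < r) (hA : (a - c) ⬝ᵥ (a - c) = r ^ 2)
    (hw : w ⬝ᵥ w ≠ 0) :
    Ok ⟨c, r, (a - c) ⬝ᵥ w⟩ (⟨a - T • w, w⟩ : St n ℝ) ∧
      step ⟨c, r, (a - c) ⬝ᵥ w⟩ (⟨a - T • w, w⟩ : St n ℝ)
        = ⟨a - T • (w - (2 * ((a - c) ⬝ᵥ w) / r ^ 2) • (a - c)),
          w - (2 * ((a - c) ⬝ᵥ w) / r ^ 2) • (a - c)⟩ := by
  have e1 : a - T • w - c = (a - c) - T • w := by abel
  have h1 : (a - T • w - c) ⬝ᵥ w = (a - c) ⬝ᵥ w - T * (w ⬝ᵥ w) := by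
    rw [e1, sub_dotProduct, smul_dotProduct, smul_eq_mul]
  have h2 : (a - T • w - c) ⬝ᵥ (a - T • w - c)
      = r ^ 2 - 2 * T * ((a - c) ⬝ᵥ w) + T ^ 2 * (w ⬝ᵥ w) := by
    have key : ∀ A : Fin n → ℝ, A ⬝ᵥ A = r ^ 2 → (A - T • w) ⬝ᵥ (A - T • w)
        = r ^ 2 - 2 * T * (A ⬝ᵥ w) + T ^ 2 * (w ⬝ᵥ w) := by
      intro A hA
      rw [sub_dotProduct, dotProduct_sub, dotProduct_sub, smul_dotProduct, smul_dotProduct,
        dotProduct_smul, dotProduct_smul, hA, dotProduct_comm w A]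
      simp only [smul_eq_mul]
      ring
    rw [e1]
    exact key _ hA
  have ht : tt ⟨c, r, (a - c) ⬝ᵥ w⟩ (⟨a - T • w, w⟩ : St n ℝ) = T := by
    simp only [tt, cc_real, nn]
    rw [h1]
    field_simp
    ring
  have ha : aa ⟨c, r, (a - c) ⬝ᵥ w⟩ (⟨a - T • w, w⟩ : St n ℝ) = a - c := by
    simp only [aa]
    rw [ht, cc_real, e1]
    simp
  have hww : ww ⟨c, r, (a - c) ⬝ᵥ w⟩ (⟨a - T • w, w⟩ : St n ℝ)
      = w - (2 * ((a - c) ⬝ᵥ w) / r ^ 2) • (a - c) := by
    simp only [ww]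
    rw [ha]
    rfl
  refine ⟨⟨hr, ?_⟩, ?_⟩
  · simp only [nn, gg, cc_real]
    rw [h1, h2]
    change _ = r ^ 2 * _ - _
    ring
  · simp only [step]
    rw [ht, hww]
    refine St.ext ?_ rfl
    ext i
    simp only [Pi.sub_apply, Pi.add_apply, Pi.smul_apply, smul_eq_mul]
    ring

end words

section paths

/-! ### the states along a path -/

variable {n : ℕ}

/-- the coordinate vector -/
def vec (v : EuclideanSpace ℝ (Fin n)) : Fin n → ℝ := fun i => v i

lemma inner_vec (u v : EuclideanSpace ℝ (Fin n)) : ⟪u, v⟫ = vec u ⬝ᵥ vec v := by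
  rw [dotProduct_comm]
  simp [vec, dotProduct, PiLp.inner_apply]

lemma vec_sub (u v : EuclideanSpace ℝ (Fin n)) : vec (u - v) = vec u - vec v := rfl
lemma vec_add (u v : EuclideanSpace ℝ (Fin n)) : vec (u + v) = vec u + vec v := rfl
lemma vec_smul (c : ℝ) (v : EuclideanSpace ℝ (Fin n)) : vec (c • v) = c • vec v := rfl

/-- the times of the reflections -/
def Tm (τ : ℝ) (t : ℕ → ℝ) : ℕ → ℝ
  | 0 => τ
  | i + 1 => Tm τ t i + t i

/-- the state before the reflection number `i` -/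
def Sq (x v : EuclideanSpace ℝ (Fin n)) (a e : ℕ → EuclideanSpace ℝ (Fin n)) (t : ℕ → ℝ)
    (τ : ℝ) : ℕ → St n ℝ
  | 0 => ⟨vec x, vec v⟩
  | i + 1 => ⟨vec (a i - Tm τ t i • e (i + 1)), vec (e (i + 1))⟩

variable {k : ℕ} {μ : ℕ → Mir n} {x v : EuclideanSpace ℝ (Fin n)}
  {a e m : ℕ → EuclideanSpace ℝ (Fin n)} {t : ℕ → ℝ} {τ τ' : ℝ}

lemma Sq_eq (he0 : e 0 = v) (ha0 : a 0 = x + τ • v)
    (hstep : ∀ i, i + 1 < k → 0 < t i ∧ a (i + 1) = a i + t i • e (i + 1)) (i : ℕ) (hi : i < k) :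
    Sq x v a e t τ i = ⟨vec (a i - Tm τ t i • e i), vec (e i)⟩ := by
  rcases i with _ | i
  · simp only [Sq, Tm]
    rw [ha0, he0, add_sub_cancel_right]
  · simp only [Sq, Tm]
    rw [(hstep i hi).2]
    congr 2
    rw [add_smul]
    abel

lemma norm_m (hnd : ∀ i < k, (μ i).Nondeg)
    (hrefl : ∀ i < k, a i ∈ (μ i).carrier ∧ (μ i).NormalAt (a i) (m i) ∧
      e (i + 1) = e i - (2 * ⟪e i, m i⟫) • m i) (i : ℕ) (hi : i < k) : ‖m i‖ = 1 := by
  obtain ⟨h1, h2, -⟩ := hrefl i hi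
  rw [Mir.normalAt_iff] at h2
  have h3 := Mir.norm_nu (hnd i hi) h1
  rcases h2 with h2 | h2
  · rw [h2, h3]
  · rw [h2, norm_neg, h3]

lemma norm_e (hnd : ∀ i < k, (μ i).Nondeg) (he0 : e 0 = v)
    (hrefl : ∀ i < k, a i ∈ (μ i).carrier ∧ (μ i).NormalAt (a i) (m i) ∧
      e (i + 1) = e i - (2 * ⟪e i, m i⟫) • m i) (i : ℕ) (hi : i ≤ k) : ‖e i‖ = ‖v‖ := by
  induction i with
  | zero => rw [he0]
  | succ i ih =>
    have h1 := ih (by omega)
    have h2 := norm_m hnd hrefl i (by omega)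
    obtain ⟨-, -, h3⟩ := hrefl i (by omega)
    have h4 : ‖e (i + 1)‖ ^ 2 = ‖v‖ ^ 2 := by
      rw [h3, norm_sub_sq_real, norm_smul, inner_smul_right, h1, h2, mul_pow, Real.norm_eq_abs,
        sq_abs]
      ring
    exact (sq_eq_sq₀ (norm_nonneg _) (norm_nonneg _)).mp h4

/-- if there is no delay then the first reflection is tangent -/
lemma tangent_of_no_delay (hk : 1 ≤ k) (hnd : ∀ i < k, (μ i).Nondeg) (he0 : e 0 = v)
    (hek : e k = v)
    (hrefl : ∀ i < k, a i ∈ (μ i).carrier ∧ (μ i).NormalAt (a i) (m i) ∧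
      e (i + 1) = e i - (2 * ⟪e i, m i⟫) • m i)
    (ha0 : a 0 = x + τ • v)
    (hstep : ∀ i, i + 1 < k → 0 < t i ∧ a (i + 1) = a i + t i • e (i + 1))
    (hak : a (k - 1) = x + τ' • v) (hδ : Tm τ t (k - 1) = τ') : ⟪v, m 0⟫ = 0 := by
  have he1 : e 1 = v := by
    rcases Nat.lt_or_ge k 2 with h | h
    · have : k = 1 := by omega
      rw [← hek, this]
    · have hb : ∀ j, j + 1 < k → ⟪a (j + 1) - a 0, v⟫
          ≤ t 0 * ⟪e 1, v⟫ + (Tm τ t (j + 1) - τ - t 0) * ‖v‖ ^ 2 := by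
        intro j
        induction j with
        | zero =>
          intro h0
          rw [(hstep 0 h0).2, add_sub_cancel_left, real_inner_smul_left]
          simp [Tm]
        | succ j ih =>
          intro hj
          have h1 := ih (by omega)
          obtain ⟨h2, h3⟩ := hstep (j + 1) hj
          have h4 : a (j + 1 + 1) - a 0 = (a (j + 1) - a 0) + t (j + 1) • e (j + 1 + 1) := by
            rw [h3]; abel
          rw [h4, inner_add_left, real_inner_smul_left]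
          have h5 : ⟪e (j + 1 + 1), v⟫ ≤ ‖v‖ ^ 2 := by
            have := real_inner_le_norm (e (j + 1 + 1)) v
            rw [norm_e hnd he0 hrefl (j + 1 + 1) (by omega)] at this
            nlinarith
          have h6 : Tm τ t (j + 1 + 1) = Tm τ t (j + 1) + t (j + 1) := rfl
          rw [h6]
          nlinarith [mul_le_mul_of_nonneg_left h5 h2.le]
      have hb1 := hb (k - 2) (by omega)
      have e2 : k - 2 + 1 = k - 1 := by omega
      rw [e2, hak, ha0, hδ] at hb1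
      have e3 : x + τ' • v - (x + τ • v) = (τ' - τ) • v := by rw [sub_smul]; abel
      rw [e3, real_inner_smul_left, real_inner_self_eq_norm_sq] at hb1
      have h0 := (hstep 0 (by omega)).1
      have h7 : ‖v‖ ^ 2 ≤ ⟪e 1, v⟫ := by
        have : t 0 * ‖v‖ ^ 2 ≤ t 0 * ⟪e 1, v⟫ := by nlinarith
        exact le_of_mul_le_mul_left this h0
      have h8 : ‖e 1 - v‖ ^ 2 ≤ 0 := by
        rw [norm_sub_sq_real, norm_e hnd he0 hrefl 1 hk]
        linarith
      have h9 : ‖e 1 - v‖ = 0 := by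
        have := sq_nonneg ‖e 1 - v‖
        exact pow_eq_zero_iff (two_ne_zero) |>.mp (le_antisymm h8 this)
      exact sub_eq_zero.mp (norm_eq_zero.mp h9)
  obtain ⟨-, -, h3⟩ := hrefl 0 (by omega)
  have h2 := norm_m hnd hrefl 0 (by omega)
  rw [zero_add, he1, he0] at h3
  have h4 : (2 * ⟪v, m 0⟫) • m 0 = 0 := by
    have := sub_eq_self.mp h3.symm
    exact this
  have h5 : ‖(2 * ⟪v, m 0⟫) • m 0‖ = 0 := by rw [h4, norm_zero]
  rw [norm_smul, h2, mul_one, norm_eq_zero] at h5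
  linarith

/-- every reflection of the path is a step -/
lemma mirror_step (hv : v ≠ 0) (hnd : ∀ i < k, (μ i).Nondeg) (he0 : e 0 = v)
    (hrefl : ∀ i < k, a i ∈ (μ i).carrier ∧ (μ i).NormalAt (a i) (m i) ∧
      e (i + 1) = e i - (2 * ⟪e i, m i⟫) • m i)
    (ha0 : a 0 = x + τ • v)
    (hstep : ∀ i, i + 1 < k → 0 < t i ∧ a (i + 1) = a i + t i • e (i + 1)) (i : ℕ) (hi : i < k) :
    (∀ q, μ i = Sum.inl q →
      Ok ⟨vec q.1, q.2, ⟪a i - q.1, e i⟫⟩ (Sq x v a e t τ i) ∧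
        step ⟨vec q.1, q.2, ⟪a i - q.1, e i⟫⟩ (Sq x v a e t τ i) = Sq x v a e t τ (i + 1)) ∧
    (∀ q, μ i = Sum.inr q → vec q.1 ⬝ᵥ vec q.1 = 1 ∧
      Sq x v a e t τ (i + 1)
        = ⟨(Sq x v a e t τ i).x - (2 * (vec q.1 ⬝ᵥ (Sq x v a e t τ i).x - q.2)) • vec q.1,
          (Sq x v a e t τ i).w - (2 * (vec q.1 ⬝ᵥ (Sq x v a e t τ i).w)) • vec q.1⟩) := by
  obtain ⟨h1, h2, h3⟩ := hrefl i hi
  have hS := Sq_eq he0 ha0 hstep i hi
  have hnv : ‖v‖ ≠ 0 := norm_ne_zero_iff.mpr hv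
  have hne := norm_e hnd he0 hrefl i hi.le
  have hndi := hnd i hi
  constructor
  · intro q hq
    rw [hq] at h1 h2 hndi
    have hr : 0 < q.2 := hndi
    have hA : ‖a i - q.1‖ = q.2 := h1
    have hA2 : (vec (a i) - vec q.1) ⬝ᵥ (vec (a i) - vec q.1) = q.2 ^ 2 := by
      rw [← vec_sub, ← inner_vec, real_inner_self_eq_norm_sq, hA]
    have hw : vec (e i) ⬝ᵥ vec (e i) ≠ 0 := by
      rw [← inner_vec, real_inner_self_eq_norm_sq, hne]
      exact pow_ne_zero 2 hnv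
    have hs : ⟪a i - q.1, e i⟫ = (vec (a i) - vec q.1) ⬝ᵥ vec (e i) := by
      rw [inner_vec, vec_sub]
    have hmm : (2 * ⟪e i, m i⟫) • m i = (2 * ⟪a i - q.1, e i⟫ / q.2 ^ 2) • (a i - q.1) := by
      rcases h2 with h2 | h2
      · rw [h2, inner_smul_right, smul_smul, real_inner_comm]
        congr 1
        field_simp
      · rw [h2, inner_neg_right, inner_smul_right, smul_neg, ← neg_smul, smul_smul,
          real_inner_comm]
        congr 1
        field_simp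
    have hmain := sphere_step (vec (a i)) (vec q.1) (vec (e i)) q.2 (Tm τ t i) hr hA2 hw
    rw [hS, vec_sub, vec_smul, hs]
    refine ⟨hmain.1, ?_⟩
    rw [hmain.2]
    simp only [Sq]
    rw [h3, hmm, vec_sub, vec_smul, vec_sub, vec_smul, vec_sub, hs]
  · intro q hq
    rw [hq] at h1 h2 hndi
    have hν : ‖q.1‖ = 1 := hndi
    have ha : ⟪q.1, a i⟫ = q.2 := h1
    have hνν : vec q.1 ⬝ᵥ vec q.1 = 1 := by
      rw [← inner_vec, real_inner_self_eq_norm_sq, hν]; norm_num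
    refine ⟨hνν, ?_⟩
    have hmm : (2 * ⟪e i, m i⟫) • m i = (2 * ⟪q.1, e i⟫) • q.1 := by
      rcases h2 with h2 | h2
      · rw [h2, real_inner_comm]
      · rw [h2, inner_neg_right, smul_neg, ← neg_smul, real_inner_comm]
        congr 1
        ring
    rw [hS]
    simp only [Sq]
    rw [h3, hmm]
    have e1 : vec q.1 ⬝ᵥ vec (a i - Tm τ t i • e i) = q.2 - Tm τ t i * ⟪q.1, e i⟫ := by
      rw [← inner_vec, inner_sub_right, inner_smul_right, ha]
    have e2 : vec q.1 ⬝ᵥ vec (e i) = ⟪q.1, e i⟫ := (inner_vec _ _).symm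
    refine St.ext ?_ ?_
    · simp only [vec_sub, vec_smul] at e1 ⊢
      rw [e1]
      ext j
      simp only [Pi.sub_apply, Pi.smul_apply, smul_eq_mul]
      ring
    · simp only [vec_sub, vec_smul]
      rw [e2]

end paths

section final

open MvPolynomial

variable {n : ℕ}

/-- a nonzero polynomial does not vanish along the ultrafilter -/
lemma ev_ne (U : Ultrafilter (EuclideanSpace ℝ (Fin n) × EuclideanSpace ℝ (Fin n)))
    (hU : ∀ N : Set (EuclideanSpace ℝ (Fin n) × EuclideanSpace ℝ (Fin n)),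
      volume N = 0 → Nᶜ ∈ U)
    (Q : MvPolynomial (Fin n ⊕ Fin n) ℝ) (y w : Fin n → ℝ) (h : eval (Sum.elim y w) Q ≠ 0) :
    ∀ᶠ p in (U : Filter (EuclideanSpace ℝ (Fin n) × EuclideanSpace ℝ (Fin n))),
      eval (Sum.elim (fun i => p.1 i) (fun i => p.2 i)) Q ≠ 0 := by
  have hQ : Q ≠ 0 := by rintro rfl; simp at h
  exact hU _ (null_poly Q hQ)

lemma toGerm_eq {P : Type*} (U : Ultrafilter P) {σ σ' : P → St n ℝ}
    (h : ∀ᶠ p in (U : Filter P), σ p = σ' p) : toGerm U σ = toGerm U σ' := by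
  refine St.ext ?_ ?_
  · ext i
    exact Germ.coe_eq.mpr (h.mono fun p hp => congrArg (fun s : St n ℝ => s.x i) hp)
  · ext i
    exact Germ.coe_eq.mpr (h.mono fun p hp => congrArg (fun s : St n ℝ => s.w i) hp)

lemma eq_of_toGerm_eq {P : Type*} (U : Ultrafilter P) {σ σ' : P → St n ℝ}
    (h : toGerm U σ = toGerm U σ') : ∀ᶠ p in (U : Filter P), σ p = σ' p := by
  have h1 : ∀ i, ∀ᶠ p in (U : Filter P), (σ p).x i = (σ' p).x i := fun i =>
    Germ.coe_eq.mp (congrFun (congrArg St.x h) i)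
  have h2 : ∀ i, ∀ᶠ p in (U : Filter P), (σ p).w i = (σ' p).w i := fun i =>
    Germ.coe_eq.mp (congrFun (congrArg St.w h) i)
  have h3 := eventually_all.mpr h1
  have h4 := eventually_all.mpr h2
  filter_upwards [h3, h4] with p hp hp'
  exact St.ext (funext hp) (funext hp')

/-- PART P7b: for one word of mirrors the closed lines are a null set -/
theorem word_null (hn : 2 ≤ n) (k : ℕ) (hk : 1 ≤ k) (μ : ℕ → Mir n)
    (hnd : ∀ i < k, (μ i).Nondeg) :
    (volume : Measure (EuclideanSpace ℝ (Fin n) × EuclideanSpace ℝ (Fin n)))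
      {p | WordPath k μ p.1 p.2} = 0 := by
  classical
  by_contra hX
  obtain ⟨U, hXU, hU⟩ := exists_ultra _ _ hX
  set X : Set (EuclideanSpace ℝ (Fin n) × EuclideanSpace ℝ (Fin n)) :=
    {p | WordPath k μ p.1 p.2} with hXdef
  have hdata : ∀ p : EuclideanSpace ℝ (Fin n) × EuclideanSpace ℝ (Fin n),
      ∃ (a e m : ℕ → EuclideanSpace ℝ (Fin n)) (t : ℕ → ℝ) (τ τ' : ℝ), p ∈ X → p.2 ≠ 0 ∧
        e 0 = p.2 ∧ e k = p.2 ∧
        (∀ i < k, a i ∈ (μ i).carrier ∧ (μ i).NormalAt (a i) (m i) ∧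
          e (i + 1) = e i - (2 * ⟪e i, m i⟫) • m i) ∧
        a 0 = p.1 + τ • p.2 ∧ (∀ i, i + 1 < k → 0 < t i ∧ a (i + 1) = a i + t i • e (i + 1)) ∧
        a (k - 1) = p.1 + τ' • p.2 := by
    intro p
    by_cases hp : p ∈ X
    · obtain ⟨hv, a, e, m, t, τ, τ', h⟩ := hp
      exact ⟨a, e, m, t, τ, τ', fun _ => ⟨hv, h⟩⟩
    · exact ⟨fun _ => 0, fun _ => 0, fun _ => 0, fun _ => 0, 0, 0, fun h => absurd h hp⟩
  choose a e m t τ τ' hdata using hdata
  set S : EuclideanSpace ℝ (Fin n) × EuclideanSpace ℝ (Fin n) → ℕ → St n ℝ :=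
    fun p => Sq p.1 p.2 (a p) (e p) (t p) (τ p) with hSdef
  obtain ⟨M, b, W, hM, hW⟩ := exists_word X S k (by
    intro i hi
    rcases hμ : μ i with q | q
    · left
      refine ⟨vec q.1, q.2, fun p => ⟪a p i - q.1, e p i⟫, fun p hp => ?_⟩
      obtain ⟨h1, h2, h3, h4, h5, h6, h7⟩ := hdata p hp
      exact (mirror_step h1 hnd h2 h4 h5 h6 i hi).1 q hμ
    · right
      obtain ⟨p₀, hp₀⟩ : X.Nonempty := by
        by_contra hne
        rw [Set.not_nonempty_iff_eq_empty] at hne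
        rw [hne] at hX
        exact hX (by simp)
      refine ⟨vec q.1, q.2, ?_, fun p hp => ?_⟩
      · obtain ⟨h1, h2, h3, h4, h5, h6, h7⟩ := hdata p₀ hp₀
        exact ((mirror_step h1 hnd h2 h4 h5 h6 i hi).2 q hμ).1
      · obtain ⟨h1, h2, h3, h4, h5, h6, h7⟩ := hdata p hp
        exact ((mirror_step h1 hnd h2 h4 h5 h6 i hi).2 q hμ).2)
  have hXU' : ∀ᶠ p in (U : Filter _), p ∈ X := hXU
  obtain ⟨hOk, hrun⟩ := transfer U W (fun p => S p 0) (hXU'.mono fun p hp => (hW p hp).1)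
  have hrun2 : run (atU U W) (toGerm U fun p => S p 0) = toGerm U (fun p => act M b (S p k)) := by
    rw [hrun]
    exact toGerm_eq U (hXU'.mono fun p hp => (hW p hp).2)
  -- the final state
  have hSk : ∀ p ∈ X, S p k = ⟨vec p.1 - (Tm (τ p) (t p) (k - 1) - τ' p) • vec p.2, vec p.2⟩ := by
    intro p hp
    obtain ⟨h1, h2, h3, h4, h5, h6, h7⟩ := hdata p hp
    obtain ⟨j, hj⟩ : ∃ j, k = j + 1 := ⟨k - 1, by omega⟩
    have e1 : S p (j + 1) = ⟨vec (a p j - Tm (τ p) (t p) j • e p (j + 1)), vec (e p (j + 1))⟩ := rfl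
    rw [hj] at h3 h7 ⊢
    rw [Nat.add_sub_cancel] at h7 ⊢
    rw [e1, h3, h7]
    refine St.ext ?_ rfl
    simp only [vec_sub, vec_add, vec_smul]
    ext i
    simp only [Pi.sub_apply, Pi.add_apply, Pi.smul_apply, smul_eq_mul]
    ring
  have hcore := core hn (toGerm U fun p => S p 0) (ind_germ U hU) (atU U W) hOk M (by
    rw [hrun2]
    have h1 : toGerm U (fun p => act M b (S p k))
        = toGerm U (fun p => act M b ⟨vec p.1 - (Tm (τ p) (t p) (k - 1) - τ' p) • vec p.2,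
          vec p.2⟩) := toGerm_eq U (hXU'.mono fun p hp => by rw [hSk p hp])
    rw [h1]
    ext i
    change gm U (fun p => (fun j => M i j) ⬝ᵥ vec p.2) = _
    rw [gm_dot]
    rfl)
  rw [hrun2] at hcore
  have hev := eq_of_toGerm_eq U hcore
  -- the equations
  have heq : ∀ᶠ p in (U : Filter (EuclideanSpace ℝ (Fin n) × EuclideanSpace ℝ (Fin n))),
      p ∈ X ∧ M *ᵥ (vec p.1 - (Tm (τ p) (t p) (k - 1) - τ' p) • vec p.2) + b = vec p.1 ∧
        M *ᵥ vec p.2 = vec p.2 := by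
    filter_upwards [hXU', hev] with p hp hp'
    rw [hSk p hp] at hp'
    exact ⟨hp, congrArg St.x hp', congrArg St.w hp'⟩
  by_cases hM1 : M = 1
  · subst hM1
    have heq2 : ∀ᶠ p in (U : Filter (EuclideanSpace ℝ (Fin n) × EuclideanSpace ℝ (Fin n))),
        p ∈ X ∧ (Tm (τ p) (t p) (k - 1) - τ' p) • vec p.2 = b := by
      refine heq.mono fun p hp => ⟨hp.1, ?_⟩
      have := hp.2.1
      rw [one_mulVec] at this
      have h3 : b = (Tm (τ p) (t p) (k - 1) - τ' p) • vec p.2 := by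
        have h4 : vec p.1 - (Tm (τ p) (t p) (k - 1) - τ' p) • vec p.2 + b - vec p.1
          = vec p.1 - vec p.1 := by rw [this]
        rw [sub_self] at h4
        have h5 : b - (Tm (τ p) (t p) (k - 1) - τ' p) • vec p.2 = 0 := by
          rw [← h4]; abel
        exact sub_eq_zero.mp h5
      exact h3.symm
    by_cases hb : b = 0
    · -- no delay: the first reflection is tangent
      have htan : ∀ᶠ p in (U : Filter (EuclideanSpace ℝ (Fin n) × EuclideanSpace ℝ (Fin n))),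
          p ∈ X ∧ ⟪p.2, m p 0⟫ = 0 := by
        refine heq2.mono fun p hp => ⟨hp.1, ?_⟩
        obtain ⟨h1, h2, h3, h4, h5, h6, h7⟩ := hdata p hp.1
        refine tangent_of_no_delay hk hnd h2 h3 h4 h5 h6 h7 ?_
        have h8 := hp.2
        rw [hb] at h8
        rcases smul_eq_zero.mp h8 with h8 | h8
        · linarith
        · exfalso
          apply h1
          ext i
          exact congrFun h8 i
      rcases hμ : μ 0 with q | q
      · have hr : 0 < q.2 := by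
          have := hnd 0 (by omega)
          rw [hμ] at this
          exact this
        -- `r² |w|² - |w|² |x-c|² + ⟨x-c,w⟩²`
        let Q : MvPolynomial (Fin n ⊕ Fin n) ℝ :=
          C (q.2 ^ 2) * (∑ i, MvPolynomial.X (Sum.inr i) * MvPolynomial.X (Sum.inr i))
            - (∑ i, MvPolynomial.X (Sum.inr i) * MvPolynomial.X (Sum.inr i))
              * (∑ i, (MvPolynomial.X (Sum.inl i) - C (q.1 i)) * (MvPolynomial.X (Sum.inl i) - C (q.1 i)))
            + (∑ i, (MvPolynomial.X (Sum.inl i) - C (q.1 i)) * MvPolynomial.X (Sum.inr i)) ^ 2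
        have hQe : ∀ y w : Fin n → ℝ, eval (Sum.elim y w) Q
            = q.2 ^ 2 * (w ⬝ᵥ w) - (w ⬝ᵥ w) * ((y - vec q.1) ⬝ᵥ (y - vec q.1))
              + ((y - vec q.1) ⬝ᵥ w) ^ 2 := by
          intro y w
          simp [Q, dotProduct, vec]
        have hne := ev_ne U hU Q (vec q.1) (fun _ => 1) (by
          rw [hQe]
          simp only [sub_self, zero_dotProduct]
          have h1 : (fun _ : Fin n => (1 : ℝ)) ⬝ᵥ (fun _ => 1) = n := by simp [dotProduct]
          rw [h1]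
          have h2 : (0 : ℝ) < n := by exact_mod_cast (by omega : 0 < n)
          have : 0 < q.2 ^ 2 * (n : ℝ) := by positivity
          simp
          exact ⟨hr.ne', by omega⟩)
        obtain ⟨p, ⟨hpX, hp1⟩, hp2⟩ := (htan.and hne).exists
        apply hp2
        obtain ⟨h1, h2, h3, h4, h5, h6, h7⟩ := hdata p hpX
        have h8 := (mirror_step h1 hnd h2 h4 h5 h6 0 (by omega)).1 q hμ
        have h9 := h8.1.2
        have h10 : ⟪a p 0 - q.1, e p 0⟫ = 0 := by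
          obtain ⟨-, g2, -⟩ := h4 0 (by omega)
          rw [hμ] at g2
          rw [h2]
          have g3 : ⟪p.2, a p 0 - q.1⟫ = 0 := by
            rcases g2 with g2 | g2
            · rw [g2, inner_smul_right] at hp1
              rcases mul_eq_zero.mp hp1 with h | h
              · exact absurd h (inv_ne_zero hr.ne')
              · exact h
            · rw [g2, inner_neg_right, neg_eq_zero, inner_smul_right] at hp1
              rcases mul_eq_zero.mp hp1 with h | h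
              · exact absurd h (inv_ne_zero hr.ne')
              · exact h
          rw [real_inner_comm]; exact g3
        rw [show (fun i => p.1 i) = vec p.1 from rfl, show (fun i => p.2 i) = vec p.2 from rfl,
          hQe]
        simp only [h10] at h9
        have h11 : (0 : ℝ) ^ 2 = q.2 ^ 2 * nn (⟨vec p.1, vec p.2⟩ : St n ℝ)
          - gg (vec q.1) (⟨vec p.1, vec p.2⟩ : St n ℝ) := h9
        simp only [nn, gg, cc_real] at h11
        linarith
      · have hν : ‖q.1‖ = 1 := by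
          have := hnd 0 (by omega)
          rw [hμ] at this
          exact this
        let Q : MvPolynomial (Fin n ⊕ Fin n) ℝ := ∑ i, C (q.1 i) * MvPolynomial.X (Sum.inr i)
        have hQe : ∀ y w : Fin n → ℝ, eval (Sum.elim y w) Q = vec q.1 ⬝ᵥ w := by
          intro y w
          simp [Q, dotProduct, vec]
        have hne := ev_ne U hU Q 0 (vec q.1) (by
          rw [hQe, ← inner_vec, real_inner_self_eq_norm_sq, hν]; norm_num)
        obtain ⟨p, ⟨hpX, hp1⟩, hp2⟩ := (htan.and hne).exists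
        apply hp2
        obtain ⟨h1, h2, h3, h4, h5, h6, h7⟩ := hdata p hpX
        rw [show (fun i => p.2 i) = vec p.2 from rfl, hQe, ← inner_vec]
        obtain ⟨-, g2, -⟩ := h4 0 (by omega)
        rw [hμ] at g2
        rcases g2 with g2 | g2
        · rw [g2, real_inner_comm] at hp1; exact hp1
        · rw [g2, inner_neg_right, neg_eq_zero, real_inner_comm] at hp1; exact hp1
    · -- the direction is constant
      obtain ⟨j, hj⟩ : ∃ j, b j ≠ 0 := by
        by_contra hcon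
        push Not at hcon
        exact hb (funext hcon)
      obtain ⟨i, hij⟩ : ∃ i : Fin n, i ≠ j := by
        have : Nontrivial (Fin n) := Fin.nontrivial_iff_two_le.mpr hn
        exact exists_ne j
      let Q : MvPolynomial (Fin n ⊕ Fin n) ℝ :=
        C (b j) * MvPolynomial.X (Sum.inr i) - C (b i) * MvPolynomial.X (Sum.inr j)
      have hQe : ∀ y w : Fin n → ℝ, eval (Sum.elim y w) Q = b j * w i - b i * w j := by
        intro y w
        simp [Q]
      have hne := ev_ne U hU Q 0 (Pi.single i 1) (by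
        rw [hQe]
        simp [hij.symm, hj])
      obtain ⟨p, ⟨hpX, hp1⟩, hp2⟩ := (heq2.and hne).exists
      apply hp2
      rw [show (fun i => p.2 i) = vec p.2 from rfl, hQe, ← hp1]
      simp only [Pi.smul_apply, smul_eq_mul]
      ring
  · obtain ⟨i, j, hij⟩ : ∃ i j, M i j ≠ (1 : Matrix (Fin n) (Fin n) ℝ) i j := by
      by_contra hcon
      push Not at hcon
      exact hM1 (Matrix.ext hcon)
    let Q : MvPolynomial (Fin n ⊕ Fin n) ℝ := ∑ l, C (M i l) * MvPolynomial.X (Sum.inr l) - MvPolynomial.X (Sum.inr i)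
    have hQe : ∀ y w : Fin n → ℝ, eval (Sum.elim y w) Q = (M *ᵥ w) i - w i := by
      intro y w
      simp [Q, mulVec, dotProduct]
    have hne := ev_ne U hU Q 0 (Pi.single j 1) (by
      rw [hQe]
      simp only [mulVec_single_one, col_apply]
      rw [Matrix.one_apply] at hij
      rw [Pi.single_apply]
      exact sub_ne_zero.mpr hij)
    obtain ⟨p, ⟨hpX, hp1, hp3⟩, hp2⟩ := (heq.and hne).exists
    apply hp2
    rw [show (fun i => p.2 i) = vec p.2 from rfl, hQe, hp3]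
    ring

end final

end Inv38
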