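import Mathlib

set_option autoImplicit false

/-! Block C: the tree model (helper37). -/

namespace Pool.Agent.Lib_helper84.BT

section model

variable {Q X : Type*}

/-- the axioms of the extended transducer: `c x v` is the image of `v` under the letter `x`,
`s x v` is the letter that comes out -/
structure C_Sys (δ : Q → X → Q) (ρ : Q → X → X) (c : X → FreeGroup Q → FreeGroup Q)
    (s : X → FreeGroup Q → X) : Prop where
  c_one : ∀ x, c x 1 = 1
  s_one : ∀ x, s x 1 = x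
  c_of : ∀ x q, c x (FreeGroup.of q) = FreeGroup.of (δ q x)
  s_of : ∀ x q, s x (FreeGroup.of q) = ρ q x
  c_mul : ∀ x v w, c x (v * w) = c x v * c (s x v) w
  s_mul : ∀ x v w, s x (v * w) = s (s x v) w

/-- the permutation of `FreeGroup Q × X` given by a state -/
noncomputable def C_theta (δ : Q → X → Q) (ρ : Q → X → X) (hρ : ∀ q, Function.Bijective (ρ q))
    (q : Q) : Equiv.Perm (FreeGroup Q × X) where
  toFun p := (p.1 * FreeGroup.of (δ q p.2), ρ q p.2)
  invFun p := (p.1 * (FreeGroup.of (δ q ((Equiv.ofBijective _ (hρ q)).symm p.2)))⁻¹,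
    (Equiv.ofBijective _ (hρ q)).symm p.2)
  left_inv p := by
    have h : (Equiv.ofBijective _ (hρ q)).symm (ρ q p.2) = p.2 :=
      (Equiv.ofBijective _ (hρ q)).symm_apply_apply p.2
    ext1
    · simp only [h, mul_inv_cancel_right]
    · exact h
  right_inv p := by
    have h : ρ q ((Equiv.ofBijective _ (hρ q)).symm p.2) = p.2 :=
      (Equiv.ofBijective _ (hρ q)).apply_symm_apply p.2
    ext1
    · simp only [inv_mul_cancel_right]
    · exact h

lemma C_exists (δ : Q → X → Q) (ρ : Q → X → X) (hρ : ∀ q, Function.Bijective (ρ q)) :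
    ∃ c s, C_Sys δ ρ c s := by
  set Φ : FreeGroup Q →* (Equiv.Perm (FreeGroup Q × X))ᵐᵒᵖ :=
    FreeGroup.lift fun q => MulOpposite.op (C_theta δ ρ hρ q) with hΦ
  set R : FreeGroup Q → Equiv.Perm (FreeGroup Q × X) := fun v => (Φ v).unop with hR
  have hmul : ∀ v w p, R (v * w) p = R w (R v p) := by
    intro v w p
    simp only [hR, map_mul, MulOpposite.unop_mul, Equiv.Perm.mul_apply]
  have hone : ∀ p, R 1 p = p := by
    intro p
    simp only [hR, map_one, MulOpposite.unop_one, Equiv.Perm.one_apply]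
  have hof : ∀ q p, R (FreeGroup.of q) p = (p.1 * FreeGroup.of (δ q p.2), ρ q p.2) := by
    intro q p
    simp only [hR, hΦ, FreeGroup.lift_apply_of, MulOpposite.unop_op]
    rfl
  have hinv : ∀ v p, R v⁻¹ (R v p) = p := by
    intro v p
    rw [← hmul, mul_inv_cancel, hone]
  have hinv' : ∀ v p, R v (R v⁻¹ p) = p := by
    intro v p
    rw [← hmul, inv_mul_cancel, hone]
  have heq : ∀ (v : FreeGroup Q) (h g : FreeGroup Q) (x : X),
      R v (h * g, x) = (h * (R v (g, x)).1, (R v (g, x)).2) := by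
    intro v
    induction v using FreeGroup.induction_on with
    | C1 =>
      intro h g x
      rw [hone, hone]
    | of q =>
      intro h g x
      rw [hof, hof, mul_assoc]
    | inv_of q ih =>
      intro h g x
      have h1 := hinv' (FreeGroup.of q) (g, x)
      have h2 := ih h (R (FreeGroup.of q)⁻¹ (g, x)).1 (R (FreeGroup.of q)⁻¹ (g, x)).2
      rw [Prod.mk.eta, h1] at h2
      have h3 := congrArg (R (FreeGroup.of q)⁻¹) h2
      rw [hinv] at h3
      exact h3.symm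
    | mul v w hv hw =>
      intro h g x
      rw [hmul, hmul, hv, hw]
  refine ⟨fun x v => (R v (1, x)).1, fun x v => (R v (1, x)).2, ?_, ?_, ?_, ?_, ?_, ?_⟩
  · intro x
    simp only [hone]
  · intro x
    simp only [hone]
  · intro x q
    simp only [hof, one_mul]
  · intro x q
    simp only [hof]
  · intro x v w
    have h1 := heq w (R v (1, x)).1 1 (R v (1, x)).2
    rw [mul_one, Prod.mk.eta, ← hmul] at h1
    have h2 := congrArg Prod.fst h1
    exact h2
  · intro x v w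
    have h1 := heq w (R v (1, x)).1 1 (R v (1, x)).2
    rw [mul_one, Prod.mk.eta, ← hmul] at h1
    have h2 := congrArg Prod.snd h1
    exact h2

variable {δ δ' : Q → X → Q} {ρ ρ' : Q → X → X} {c c' : X → FreeGroup Q → FreeGroup Q}
  {s s' : X → FreeGroup Q → X}

lemma C_inv_left (h : C_Sys δ ρ c s) (h' : C_Sys δ' ρ' c' s')
    (e1 : ∀ q x, δ' (δ q x) x = q) (e2 : ∀ q x, ρ' (δ q x) x = ρ q x) (v : FreeGroup Q) :
    ∀ x, c' x (c x v) = v ∧ s' x (c x v) = s x v := by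
  induction v using FreeGroup.induction_on with
  | C1 =>
    intro x
    rw [h.c_one, h'.c_one, h'.s_one, h.s_one]
    exact ⟨rfl, rfl⟩
  | of q =>
    intro x
    rw [h.c_of, h'.c_of, h'.s_of, h.s_of, e1, e2]
    exact ⟨rfl, rfl⟩
  | inv_of q ih =>
    intro x
    set v := FreeGroup.of q with hv
    set y := s x v⁻¹ with hy
    have h1 : s y v = x := by rw [hy, ← h.s_mul, inv_mul_cancel, h.s_one]
    have h2 : c x v⁻¹ = (c y v)⁻¹ := by
      rw [eq_inv_iff_mul_eq_one, hy, ← h.c_mul, inv_mul_cancel, h.c_one]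
    have h3 := ih y
    rw [h1] at h3
    have h4 : s' x (c y v)⁻¹ = y := by
      rw [← h3.2, ← h'.s_mul, mul_inv_cancel, h'.s_one]
    have h5 : c' x (c y v)⁻¹ = (c' y (c y v))⁻¹ := by
      have h6 := h'.c_mul x (c y v)⁻¹ (c y v)
      rw [inv_mul_cancel, h'.c_one, h4] at h6
      rw [eq_inv_iff_mul_eq_one]
      exact h6.symm
    rw [h2, h5, h4, h3.1]
    exact ⟨rfl, rfl⟩
  | mul v w hv hw =>
    intro x
    rw [h.c_mul, h'.c_mul, h'.s_mul, h.s_mul, (hv x).1, (hv x).2, (hw _).1, (hw _).2]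
    exact ⟨rfl, rfl⟩

end model

/-- C1: the tree model. For a bireversible transducer the free group on the states carries
permutations `γ x` (one for each letter), which together with the left translations
generate a group `Γ` of automorphisms of the (directed) Cayley graph, with
`Γ_1 = ⟨γ x⟩`. -/
theorem tree_model {Q X : Type*} [Fintype Q] [Fintype X] [DecidableEq Q] [DecidableEq X]
    (δ : Q → X → Q) (ρ : Q → X → X)
    (hρ : ∀ q, Function.Bijective (ρ q)) (hδ : ∀ x, Function.Bijective (fun q => δ q x))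
    (hbi : Function.Bijective (fun a : Q × X => (δ a.1 a.2, ρ a.1 a.2))) :
    ∃ (γ : X → Equiv.Perm (FreeGroup Q)) (Γ : Subgroup (Equiv.Perm (FreeGroup Q))),
      (∀ x, γ x ∈ Γ) ∧ (∀ w : FreeGroup Q, Equiv.mulLeft w ∈ Γ) ∧
      (∀ x, γ x 1 = 1) ∧
      (∀ x q v, γ x (FreeGroup.of q * v) = FreeGroup.of (δ q x) * γ (ρ q x) v) ∧
      (∀ g ∈ Γ, ∀ (v : FreeGroup Q) (q : Q), ∃ q', g (v * FreeGroup.of q) =
        g v * FreeGroup.of q') ∧
      (∀ g ∈ Γ, g 1 = 1 → g ∈ Subgroup.closure (Set.range γ)) := by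
  -- the inverse transducer
  set δ' : Q → X → Q := fun p x => (Equiv.ofBijective _ (hδ x)).symm p with hδ'
  set ρ' : Q → X → X := fun p x => ρ (δ' p x) x with hρ'
  have e1 : ∀ q x, δ' (δ q x) x = q := fun q x =>
    (Equiv.ofBijective _ (hδ x)).symm_apply_apply q
  have e3 : ∀ p x, δ (δ' p x) x = p := fun p x =>
    (Equiv.ofBijective _ (hδ x)).apply_symm_apply p
  have e2 : ∀ q x, ρ' (δ q x) x = ρ q x := by
    intro q x
    simp only [hρ', e1]
  have hρb : ∀ p, Function.Bijective (ρ' p) := by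
    intro p
    rw [← Finite.injective_iff_bijective]
    intro x x' hxx
    have h1 : (δ (δ' p x) x, ρ (δ' p x) x) = (δ (δ' p x') x', ρ (δ' p x') x') := by
      rw [e3, e3]
      exact Prod.ext rfl hxx
    have h2 := hbi.1 (a₁ := (δ' p x, x)) (a₂ := (δ' p x', x')) h1
    exact congrArg Prod.snd h2
  obtain ⟨c, s, h⟩ := C_exists δ ρ hρ
  obtain ⟨c', s', h'⟩ := C_exists δ' ρ' hρb
  have i1 := C_inv_left h h' e1 e2
  have i2 := C_inv_left h' h e3 (fun _ _ => rfl)
  set γ : X → Equiv.Perm (FreeGroup Q) := fun x =>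
    ⟨c x, c' x, fun v => (i1 v x).1, fun v => (i2 v x).1⟩ with hγ
  have hγa : ∀ x v, γ x v = c x v := fun _ _ => rfl
  have hγi : ∀ x v, (γ x)⁻¹ v = c' x v := fun _ _ => rfl
  set Λ := Subgroup.closure (Set.range γ) with hΛ
  have hγΛ : ∀ x, γ x ∈ Λ := fun x => Subgroup.subset_closure ⟨x, rfl⟩
  -- `Λ` fixes `1`
  have fix1 : ∀ g ∈ Λ, g 1 = 1 := by
    intro g hg
    refine Subgroup.closure_induction (p := fun g _ => g 1 = 1) ?_ rfl ?_ ?_ hg
    · rintro _ ⟨x, rfl⟩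
      exact h.c_one x
    · intro g g' _ _ hg hg'
      rw [Equiv.Perm.mul_apply, hg', hg]
    · intro g _ hg
      rw [Equiv.Perm.inv_eq_iff_eq, hg]
  -- commutation with the left translations
  have comm : ∀ g ∈ Λ, ∀ w : FreeGroup Q, ∃ w', ∃ g' ∈ Λ,
      g * Equiv.mulLeft w = Equiv.mulLeft w' * g' := by
    intro g hg
    refine Subgroup.closure_induction (p := fun g _ => ∀ w : FreeGroup Q, ∃ w', ∃ g' ∈ Λ,
      g * Equiv.mulLeft w = Equiv.mulLeft w' * g') ?_ ?_ ?_ ?_ hg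
    · rintro _ ⟨x, rfl⟩ w
      refine ⟨c x w, γ (s x w), hγΛ _, Equiv.ext fun v => ?_⟩
      exact h.c_mul x w v
    · intro w
      exact ⟨w, 1, Λ.one_mem, by rw [one_mul, mul_one]⟩
    · intro g g' _ _ hg hg' w
      obtain ⟨w1, g1, hg1, h1⟩ := hg' w
      obtain ⟨w2, g2, hg2, h2⟩ := hg w1
      exact ⟨w2, g2 * g1, Λ.mul_mem hg2 hg1, by rw [mul_assoc, h1, ← mul_assoc, h2, mul_assoc]⟩
    · intro g hgm hg w
      obtain ⟨w', g', hg', h1⟩ := hg (g⁻¹ w)
      have h2 : w' = w := by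
        have h3 := congrArg (fun σ : Equiv.Perm (FreeGroup Q) => σ 1) h1
        simp only [Equiv.Perm.mul_apply, Equiv.coe_mulLeft, mul_one, fix1 g' hg'] at h3
        have h4 : g (g⁻¹ w) = w := g.apply_symm_apply w
        rw [← h3, h4]
      rw [h2] at h1
      refine ⟨g⁻¹ w, g'⁻¹, Λ.inv_mem hg', ?_⟩
      rw [inv_mul_eq_iff_eq_mul, ← mul_assoc, h1, mul_inv_cancel_right]
  -- `Λ` permutes the generators
  have gens : ∀ g ∈ Λ, (∀ q : Q, ∃ q' : Q, g (FreeGroup.of q) = FreeGroup.of q') ∧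
      (∀ q : Q, ∃ q' : Q, g⁻¹ (FreeGroup.of q) = FreeGroup.of q') := by
    intro g hg
    refine Subgroup.closure_induction (p := fun g _ =>
      (∀ q : Q, ∃ q' : Q, g (FreeGroup.of q) = FreeGroup.of q') ∧
      (∀ q : Q, ∃ q' : Q, g⁻¹ (FreeGroup.of q) = FreeGroup.of q')) ?_ ?_ ?_ ?_ hg
    · rintro _ ⟨x, rfl⟩
      exact ⟨fun q => ⟨δ q x, h.c_of x q⟩, fun q => ⟨δ' q x, h'.c_of x q⟩⟩
    · exact ⟨fun q => ⟨q, rfl⟩, fun q => ⟨q, rfl⟩⟩
    · rintro g g' _ _ ⟨a1, a2⟩ ⟨b1, b2⟩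
      refine ⟨fun q => ?_, fun q => ?_⟩
      · obtain ⟨q1, h1⟩ := b1 q
        obtain ⟨q2, h2⟩ := a1 q1
        exact ⟨q2, by rw [Equiv.Perm.mul_apply, h1, h2]⟩
      · obtain ⟨q1, h1⟩ := a2 q
        obtain ⟨q2, h2⟩ := b2 q1
        exact ⟨q2, by rw [mul_inv_rev, Equiv.Perm.mul_apply, h1, h2]⟩
    · rintro g _ ⟨a1, a2⟩
      refine ⟨a2, ?_⟩
      rw [inv_inv]
      exact a1
  have lmul : ∀ v w : FreeGroup Q, Equiv.mulLeft (v * w) = Equiv.mulLeft v * Equiv.mulLeft w :=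
    fun v w => Equiv.ext fun u => mul_assoc v w u
  have lone : (Equiv.mulLeft (1 : FreeGroup Q)) = 1 := Equiv.ext fun u => one_mul u
  have linv : ∀ v : FreeGroup Q, (Equiv.mulLeft v)⁻¹ = Equiv.mulLeft v⁻¹ := by
    intro v
    rw [inv_eq_iff_mul_eq_one, ← lmul, mul_inv_cancel, lone]
  set Γ : Subgroup (Equiv.Perm (FreeGroup Q)) :=
    { carrier := {g | ∃ w, ∃ g' ∈ Λ, g = Equiv.mulLeft w * g'}
      mul_mem' := by
        rintro _ _ ⟨w, g, hg, rfl⟩ ⟨w1, g1, hg1, rfl⟩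
        obtain ⟨w2, g2, hg2, h2⟩ := comm g hg w1
        exact ⟨w * w2, g2 * g1, Λ.mul_mem hg2 hg1, by
          rw [lmul, mul_assoc, ← mul_assoc g, h2]
          simp only [mul_assoc]⟩
      one_mem' := ⟨1, 1, Λ.one_mem, by rw [lone, mul_one]⟩
      inv_mem' := by
        rintro _ ⟨w, g, hg, rfl⟩
        obtain ⟨w2, g2, hg2, h2⟩ := comm g⁻¹ (Λ.inv_mem hg) w⁻¹
        exact ⟨w2, g2, hg2, by rw [mul_inv_rev, linv, h2]⟩ } with hΓ
  refine ⟨γ, Γ, ?_, ?_, h.c_one, ?_, ?_, ?_⟩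
  · intro x
    exact ⟨1, γ x, hγΛ x, by rw [lone, one_mul]⟩
  · intro w
    exact ⟨w, 1, Λ.one_mem, (mul_one _).symm⟩
  · intro x q v
    rw [hγa, h.c_mul, h.c_of, h.s_of, hγa]
  · rintro _ ⟨w, g, hg, rfl⟩ v q
    obtain ⟨w', g', hg', h1⟩ := comm g hg v
    obtain ⟨q', hq'⟩ := (gens g' hg').1 q
    have h2 : g v = w' := by
      have h3 := congrArg (fun σ : Equiv.Perm (FreeGroup Q) => σ 1) h1
      simpa only [Equiv.Perm.mul_apply, Equiv.coe_mulLeft, mul_one, fix1 g' hg'] using h3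
    have h4 : g (v * FreeGroup.of q) = w' * FreeGroup.of q' := by
      have h3 := congrArg (fun σ : Equiv.Perm (FreeGroup Q) => σ (FreeGroup.of q)) h1
      simpa only [Equiv.Perm.mul_apply, Equiv.coe_mulLeft, hq'] using h3
    refine ⟨q', ?_⟩
    rw [Equiv.Perm.mul_apply, Equiv.Perm.mul_apply, h4, h2, Equiv.coe_mulLeft, mul_assoc]
  · rintro _ ⟨w, g, hg, rfl⟩ h1
    have h2 : w = 1 := by
      rw [Equiv.Perm.mul_apply, fix1 g hg] at h1
      have h3 : w * 1 = 1 := h1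
      rwa [mul_one] at h3
    rw [h2, lone, one_mul]
    exact hg

end Pool.Agent.Lib_helper84.BT
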