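import Pool.Agent.Lib_helper84.BT.Defs

set_option autoImplicit false

/-! Block P: permutation facts (helper37). -/

namespace Pool.Agent.Lib_helper84.BT

open MulAction Equiv Equiv.Perm

section perm

variable {T : Type*} [Fintype T] [DecidableEq T]

/-- a permutation that commutes with all even permutations is trivial -/
lemma P_comm (h4 : 4 ≤ Nat.card T) (n : Perm T)
    (h : ∀ a ∈ alternatingGroup T, n * a = a * n) : n = 1 := by
  by_contra hn
  obtain ⟨x, hx⟩ : ∃ x, n x ≠ x := by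
    by_contra hcon
    push Not at hcon
    exact hn (Equiv.ext hcon)
  have hcard : 1 < (Finset.univ \ {x, n x} : Finset T).card := by
    have h1 := Finset.le_card_sdiff {x, n x} (Finset.univ : Finset T)
    have h2 : ({x, n x} : Finset T).card ≤ 2 := Finset.card_le_two
    have h3 : (Finset.univ : Finset T).card = Nat.card T := by
      rw [Finset.card_univ, Nat.card_eq_fintype_card]
    omega
  obtain ⟨y, hy, z, hz, hyz⟩ := Finset.one_lt_card.1 hcard
  simp only [Finset.mem_sdiff, Finset.mem_univ, true_and, Finset.mem_insert,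
    Finset.mem_singleton, not_or] at hy hz
  have hxy : x ≠ y := fun h => hy.1 h.symm
  have hxz : x ≠ z := fun h => hz.1 h.symm
  have hc : swap x y * swap y z ∈ alternatingGroup T :=
    mul_mem_alternatingGroup_of_isSwap ⟨x, y, hxy, rfl⟩ ⟨y, z, hyz, rfl⟩
  have h1 := congrArg (fun σ : Perm T => σ x) (h _ hc)
  simp only [Perm.mul_apply] at h1
  rw [swap_apply_of_ne_of_ne hxy hxz, swap_apply_left,
    swap_apply_of_ne_of_ne (a := y) (b := z) (x := n x) (fun h => hy.2 h.symm)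
      (fun h => hz.2 h.symm),
    swap_apply_of_ne_of_ne (a := x) (b := y) (x := n x) hx (fun h => hy.2 h.symm)] at h1
  exact hxy (n.injective h1).symm

lemma P_index (h5 : 5 ≤ Nat.card T) (H : Subgroup (Perm T))
    (h : H.relIndex (alternatingGroup T) < Nat.card T) : alternatingGroup T ≤ H := by
  have := alternatingGroup.isSimpleGroup h5
  have : Nontrivial T := by
    rw [← Finite.one_lt_card_iff_nontrivial]
    omega
  set H' := H.subgroupOf (alternatingGroup T) with hH'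
  rcases (Subgroup.normalCore_normal H').eq_bot_or_eq_top with h1 | h1
  · exfalso
    rw [Subgroup.normalCore_eq_ker, MonoidHom.ker_eq_bot_iff] at h1
    have h2 := Nat.card_le_card_of_injective _ h1
    rw [Nat.card_perm] at h2
    have h3 : Nat.card (alternatingGroup T ⧸ H') ≤ Nat.card T - 1 := by
      have : Nat.card (alternatingGroup T ⧸ H') = H.relIndex (alternatingGroup T) := rfl
      omega
    have h4 := Nat.factorial_le h3
    have h6 := two_mul_nat_card_alternatingGroup (α := T)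
    rw [Nat.card_perm] at h6
    obtain ⟨N, hN⟩ : ∃ N, Nat.card T = N + 1 := ⟨Nat.card T - 1, by omega⟩
    rw [hN] at h6 h3 h4 h5
    rw [Nat.factorial_succ] at h6
    rw [Nat.add_sub_cancel] at h4
    have h7 : 0 < Nat.factorial N := Nat.factorial_pos N
    nlinarith
  · have h2 : H' = ⊤ := top_le_iff.1 (h1 ▸ Subgroup.normalCore_le H')
    exact Subgroup.subgroupOf_eq_top.1 h2

lemma P_norm (h5 : 5 ≤ Nat.card T) (N : Subgroup (Perm T))
    (h : ∀ a ∈ alternatingGroup T, ∀ n ∈ N, a * n * a⁻¹ ∈ N) :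
    N = ⊥ ∨ alternatingGroup T ≤ N := by
  have := alternatingGroup.isSimpleGroup h5
  have hn : (N.subgroupOf (alternatingGroup T)).Normal :=
    ⟨fun n hn g => by
      rw [Subgroup.mem_subgroupOf] at hn ⊢
      exact h g g.2 n hn⟩
  rcases hn.eq_bot_or_eq_top with h1 | h1
  · left
    rw [eq_bot_iff]
    intro n hn
    rw [Subgroup.mem_bot]
    refine P_comm (by omega) n fun a ha => ?_
    have h2 : n * (a * n⁻¹ * a⁻¹) ∈ N := N.mul_mem hn (h a ha _ (N.inv_mem hn))
    have h3 : n * (a * n⁻¹ * a⁻¹) ∈ alternatingGroup T := by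
      rw [mem_alternatingGroup]
      rw [mem_alternatingGroup] at ha
      simp [ha]
    have h4 : (⟨_, h3⟩ : alternatingGroup T) ∈ N.subgroupOf (alternatingGroup T) := h2
    rw [h1, Subgroup.mem_bot, Subgroup.mk_eq_one] at h4
    have h5 : n * a * (a * n)⁻¹ = 1 := by
      rw [← h4]
      group
    exact mul_inv_eq_one.1 h5
  · right
    exact Subgroup.subgroupOf_eq_top.1 h1

end perm

section act

variable {G V : Type*} [Group G] [MulAction G V]

/-- the action of `A` on `S` -/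
def P_phi (A : Subgroup G) (S : Set V) (hA : Inv A S) : A →* Perm S where
  toFun a :=
    { toFun := fun s => ⟨(a : G) • (s : V), hA a a.2 s s.2⟩
      invFun := fun s => ⟨(a : G)⁻¹ • (s : V), hA _ (A.inv_mem a.2) s s.2⟩
      left_inv := fun _ => Subtype.ext (inv_smul_smul _ _)
      right_inv := fun _ => Subtype.ext (smul_inv_smul _ _) }
  map_one' := Equiv.ext fun s => Subtype.ext (one_smul G (s : V))
  map_mul' a b := Equiv.ext fun s => Subtype.ext (mul_smul (a : G) (b : G) (s : V))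

variable {A B : Subgroup G} {S : Set V}

lemma P_phi_apply (hA : Inv A S) (a : A) (s : S) :
    ((P_phi A S hA a s : S) : V) = (a : G) • (s : V) := rfl

lemma P_phi_eq_one (hA : Inv A S) (a : A) : P_phi A S hA a = 1 ↔ Fixes (a : G) S := by
  constructor
  · intro h s hs
    have := congrArg (fun σ : Perm S => ((σ ⟨s, hs⟩ : S) : V)) h
    exact this
  · intro h
    exact Equiv.ext fun s => Subtype.ext (h s s.2)

/-- the image of `B` in the permutations of `S` -/
def P_img (A B : Subgroup G) (S : Set V) (hA : Inv A S) : Subgroup (Perm S) :=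
  (B.subgroupOf A).map (P_phi A S hA)

lemma P_mem_img (hA : Inv A S) (hBA : B ≤ A) (σ : Perm S) :
    σ ∈ P_img A B S hA ↔ ∃ b, ∃ hb : b ∈ B, P_phi A S hA ⟨b, hBA hb⟩ = σ := by
  constructor
  · rintro ⟨⟨b, hbA⟩, hb, rfl⟩
    exact ⟨b, hb, rfl⟩
  · rintro ⟨b, hb, rfl⟩
    exact ⟨⟨b, hBA hb⟩, hb, rfl⟩

lemma P_cyc [DecidableEq S] (hA : Inv A S) (a : A) (x y z : S) (hxy : x ≠ y) (hyz : y ≠ z)
    (hxz : x ≠ z) :
    Cyc (a : G) S (x : V) y z ↔ P_phi A S hA a = swap x y * swap y z := by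
  constructor
  · rintro ⟨h1, h2, h3, h4⟩
    refine Equiv.ext fun s => Subtype.ext ?_
    rw [P_phi_apply, Perm.mul_apply]
    by_cases hsx : s = x
    · subst hsx
      rw [swap_apply_of_ne_of_ne hxy hxz, swap_apply_left]
      exact h1
    by_cases hsy : s = y
    · subst hsy
      rw [swap_apply_left, swap_apply_of_ne_of_ne hxz.symm hyz.symm]
      exact h2
    by_cases hsz : s = z
    · subst hsz
      rw [swap_apply_right, swap_apply_right]
      exact h3
    · rw [swap_apply_of_ne_of_ne hsy hsz, swap_apply_of_ne_of_ne hsx hsy]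
      exact h4 s s.2 (fun h => hsx (Subtype.ext h)) (fun h => hsy (Subtype.ext h))
        (fun h => hsz (Subtype.ext h))
  · intro h
    have key : ∀ s : S, (a : G) • (s : V) = (((swap x y * swap y z) s : S) : V) := by
      intro s
      rw [← h, P_phi_apply]
    refine ⟨?_, ?_, ?_, ?_⟩
    · rw [key, Perm.mul_apply, swap_apply_of_ne_of_ne hxy hxz, swap_apply_left]
    · rw [key, Perm.mul_apply, swap_apply_left, swap_apply_of_ne_of_ne hxz.symm hyz.symm]
    · rw [key, Perm.mul_apply, swap_apply_right, swap_apply_right]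
    · intro s hs h1 h2 h3
      have e1 : swap y z (⟨s, hs⟩ : S) = ⟨s, hs⟩ :=
        swap_apply_of_ne_of_ne (fun h => h2 (congrArg Subtype.val h))
          (fun h => h3 (congrArg Subtype.val h))
      have e2 : swap x y (⟨s, hs⟩ : S) = ⟨s, hs⟩ :=
        swap_apply_of_ne_of_ne (fun h => h1 (congrArg Subtype.val h))
          (fun h => h2 (congrArg Subtype.val h))
      have := key ⟨s, hs⟩
      rw [Perm.mul_apply, e1, e2] at this
      exact this

lemma P_big_iff [Fintype S] [DecidableEq S] (hA : Inv A S) (hBA : B ≤ A) :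
    Big B S ↔ alternatingGroup S ≤ P_img A B S hA := by
  constructor
  · intro hb
    rw [← closure_three_cycles_eq_alternating, Subgroup.closure_le]
    intro σ hσ
    have hσ3 : σ.IsThreeCycle := hσ
    obtain ⟨x, hx⟩ : ∃ x, x ∈ σ.support := by
      have h1 := hσ3.card_support
      have h2 : σ.support.Nonempty := by
        rw [← Finset.card_pos, h1]
        norm_num
      exact h2
    have h1 := hσ3.eq_swap_mul_swap_iff_mem_support.2 hx
    have h2 := hσ3.nodup_iff_mem_support.2 hx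
    simp only [List.nodup_cons, List.mem_cons, List.not_mem_nil, or_false, not_or,
      not_false_eq_true, List.nodup_nil, and_true] at h2
    obtain ⟨⟨h3, h4⟩, h5⟩ := h2
    obtain ⟨b, hbB, hc⟩ := hb x x.2 (σ x) (σ x).2 (σ (σ x)) (σ (σ x)).2
      (fun h => h3 (Subtype.ext h)) (fun h => h5 (Subtype.ext h)) (fun h => h4 (Subtype.ext h))
    rw [SetLike.mem_coe, P_mem_img hA hBA]
    refine ⟨b, hbB, ?_⟩
    rw [h1]
    exact (P_cyc hA ⟨b, hBA hbB⟩ x (σ x) (σ (σ x)) h3 h5 h4).1 hc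
  · intro h x hx y hy z hz hxy hyz hxz
    have hc : swap (⟨x, hx⟩ : S) ⟨y, hy⟩ * swap (⟨y, hy⟩ : S) ⟨z, hz⟩ ∈ alternatingGroup S :=
      mul_mem_alternatingGroup_of_isSwap
        ⟨_, _, fun h => hxy (congrArg Subtype.val h), rfl⟩
        ⟨_, _, fun h => hyz (congrArg Subtype.val h), rfl⟩
    obtain ⟨b, hb, h1⟩ := (P_mem_img hA hBA _).1 (h hc)
    exact ⟨b, hb, (P_cyc hA ⟨b, hBA hb⟩ ⟨x, hx⟩ ⟨y, hy⟩ ⟨z, hz⟩
      (fun h => hxy (congrArg Subtype.val h)) (fun h => hyz (congrArg Subtype.val h))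
      (fun h => hxz (congrArg Subtype.val h))).2 h1⟩

lemma P_rel_range (hA : Inv A S) (h0 : B.relIndex A ≠ 0) :
    (P_img A B S hA).relIndex (P_phi A S hA).range ≤ B.relIndex A := by
  rw [← Subgroup.index_comap]
  refine Nat.le_of_dvd (Nat.pos_of_ne_zero h0) ?_
  exact Subgroup.index_dvd_of_le (Subgroup.le_comap_map _ _)

lemma P_img_self (hA : Inv A S) : P_img A A S hA = (P_phi A S hA).range := by
  unfold P_img
  rw [Subgroup.subgroupOf_self, ← MonoidHom.range_eq_map]

lemma P_rel [Fintype S] [DecidableEq S] (hA : Inv A S) (hb : Big A S)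
    (h0 : B.relIndex A ≠ 0) :
    (P_img A B S hA).relIndex (alternatingGroup S) ≤
      (P_img A B S hA).relIndex (P_phi A S hA).range := by
  have h1 : alternatingGroup S ≤ (P_phi A S hA).range := by
    rw [← P_img_self]
    exact (P_big_iff hA le_rfl).1 hb
  refine Subgroup.relIndex_le_of_le_right h1 ?_
  rw [← Subgroup.index_comap]
  intro h2
  have h3 : ((P_img A B S hA).comap (P_phi A S hA)).index ∣ B.relIndex A :=
    Subgroup.index_dvd_of_le (Subgroup.le_comap_map _ _)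
  rw [h2, zero_dvd_iff] at h3
  exact h0 h3

/-- P1 -/
theorem big_of_relIndex_lt {A B : Subgroup G} {S : Set V} (hS : 5 ≤ S.ncard) (hA : Inv A S)
    (hb : Big A S) (hBA : B ≤ A) (h0 : B.relIndex A ≠ 0) (hlt : B.relIndex A < S.ncard) :
    Big B S := by
  classical
  have : Fintype S := (Set.finite_of_ncard_pos (by omega : 0 < S.ncard)).fintype
  rw [P_big_iff hA hBA]
  rw [← Nat.card_coe_set_eq] at hS hlt
  exact P_index hS _ (((P_rel hA hb h0).trans (P_rel_range hA h0)).trans_lt hlt)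

/-- P2 -/
theorem normal_dichotomy {A K : Subgroup G} {S : Set V} (hS : 5 ≤ S.ncard) (hA : Inv A S)
    (hb : Big A S) (hKA : K ≤ A) (hn : ∀ a ∈ A, ∀ k ∈ K, a * k * a⁻¹ ∈ K) :
    (∀ k ∈ K, Fixes k S) ∨ Big K S := by
  classical
  have : Fintype S := (Set.finite_of_ncard_pos (by omega : 0 < S.ncard)).fintype
  rw [P_big_iff hA hKA]
  rw [← Nat.card_coe_set_eq] at hS
  have hAlt := (P_big_iff hA le_rfl).1 hb
  have hconj : ∀ α ∈ alternatingGroup S, ∀ n ∈ P_img A K S hA, α * n * α⁻¹ ∈ P_img A K S hA := by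
    intro α hα n hn'
    obtain ⟨a, ha, rfl⟩ := (P_mem_img hA le_rfl _).1 (hAlt hα)
    obtain ⟨k, hk, rfl⟩ := (P_mem_img hA hKA _).1 hn'
    refine (P_mem_img hA hKA _).2 ⟨a * k * a⁻¹, hn a ha k hk, ?_⟩
    rw [← map_mul, ← map_inv, ← map_mul]
    rfl
  rcases P_norm hS (P_img A K S hA) hconj with h1 | h1
  · left
    intro k hk
    have h2 : P_phi A S hA ⟨k, hKA hk⟩ ∈ P_img A K S hA :=
      (P_mem_img hA hKA _).2 ⟨k, hk, rfl⟩
    rw [h1, Subgroup.mem_bot] at h2
    exact (P_phi_eq_one hA ⟨k, hKA hk⟩).1 h2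
  · exact Or.inr h1

/-- the elements of `A` that fix `S'` pointwise -/
def P_fix (A : Subgroup G) (S' : Set V) : Subgroup G where
  carrier := {g | g ∈ A ∧ Fixes g S'}
  mul_mem' := by
    rintro g h ⟨hg, hg'⟩ ⟨hh, hh'⟩
    exact ⟨A.mul_mem hg hh, fun s hs => by rw [mul_smul, hh' s hs, hg' s hs]⟩
  one_mem' := ⟨A.one_mem, fun s _ => one_smul _ s⟩
  inv_mem' := by
    rintro g ⟨hg, hg'⟩
    exact ⟨A.inv_mem hg, fun s hs => by rw [inv_smul_eq_iff, hg' s hs]⟩

lemma P_fix_le (A : Subgroup G) (S' : Set V) : P_fix A S' ≤ A := fun _ h => h.1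

lemma P_fix_normal {A : Subgroup G} {S' : Set V} (hA' : Inv A S') :
    ∀ a ∈ A, ∀ k ∈ P_fix A S', a * k * a⁻¹ ∈ P_fix A S' := by
  rintro a ha k ⟨hk, hk'⟩
  refine ⟨A.mul_mem (A.mul_mem ha hk) (A.inv_mem ha), fun s hs => ?_⟩
  rw [mul_smul, mul_smul, hk' _ (hA' _ (A.inv_mem ha) s hs), smul_inv_smul]

lemma P_rich_iff {A : Subgroup G} {S S' : Set V} :
    Rich A S S' ↔ Big (P_fix A S') S ∧ Big (P_fix A S) S' := by
  constructor
  · rintro ⟨h1, h2⟩
    refine ⟨fun x hx y hy z hz a b c => ?_, fun x hx y hy z hz a b c => ?_⟩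
    · obtain ⟨g, hg, h3, h4⟩ := h1 x hx y hy z hz a b c
      exact ⟨g, ⟨hg, h3⟩, h4⟩
    · obtain ⟨g, hg, h3, h4⟩ := h2 x hx y hy z hz a b c
      exact ⟨g, ⟨hg, h3⟩, h4⟩
  · rintro ⟨h1, h2⟩
    refine ⟨fun x hx y hy z hz a b c => ?_, fun x hx y hy z hz a b c => ?_⟩
    · obtain ⟨g, ⟨hg, h3⟩, h4⟩ := h1 x hx y hy z hz a b c
      exact ⟨g, hg, h3, h4⟩
    · obtain ⟨g, ⟨hg, h3⟩, h4⟩ := h2 x hx y hy z hz a b c
      exact ⟨g, hg, h3, h4⟩

lemma P_inv_of_le {A B : Subgroup G} {S : Set V} (hA : Inv A S) (hBA : B ≤ A) : Inv B S :=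
  fun b hb s hs => hA b (hBA hb) s hs

/-- the number of even permutations is at most the size of the image -/
lemma P_card_le [Fintype S] [DecidableEq S] (hA : Inv A S) (hb : Big A S) (h2 : 2 ≤ Nat.card S) :
    (Nat.card S).factorial ≤ 2 * (P_phi A S hA).ker.index := by
  have : Nontrivial S := by
    rw [← Finite.one_lt_card_iff_nontrivial]
    omega
  rw [Subgroup.index_ker]
  have h1 : alternatingGroup S ≤ (P_phi A S hA).range := by
    rw [← P_img_self]
    exact (P_big_iff hA le_rfl).1 hb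
  have h3 := Nat.card_le_card_of_injective _ (Subgroup.inclusion_injective h1)
  have h4 := two_mul_nat_card_alternatingGroup (α := S)
  rw [Nat.card_perm] at h4
  omega

lemma P_rich_half {A B : Subgroup G} {S S' : Set V} (hS : 5 ≤ S.ncard)
    (hA : Inv A S) (hA' : Inv A S') (hr : Big (P_fix A S') S)
    (hBA : B ≤ A) (h0 : B.relIndex A ≠ 0) (hlt : 2 * B.relIndex A < (S.ncard).factorial)
    (hb : Big B S) : Big (P_fix B S') S := by
  classical
  have : Fintype S := (Set.finite_of_ncard_pos (by omega : 0 < S.ncard)).fintype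
  rcases normal_dichotomy hS (P_inv_of_le hA hBA) hb (P_fix_le B S')
    (P_fix_normal (P_inv_of_le hA' hBA)) with h1 | h1
  · exfalso
    set C := P_fix A S' with hC
    have hCA : C ≤ A := P_fix_le A S'
    have hCi : Inv C S := P_inv_of_le hA hCA
    have h2 : B.relIndex C ≠ 0 ∧ B.relIndex C ≤ B.relIndex A :=
      ⟨fun h => h0 (Subgroup.relIndex_eq_zero_of_le_right hCA h),
        Subgroup.relIndex_le_of_le_right hCA h0⟩
    have h3 : B.subgroupOf C ≤ (P_phi C S hCi).ker := by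
      intro c hc
      rw [MonoidHom.mem_ker, P_phi_eq_one]
      exact h1 c ⟨hc, c.2.2⟩
    have h4 : (P_phi C S hCi).ker.index ≤ B.relIndex C :=
      Nat.le_of_dvd (Nat.pos_of_ne_zero h2.1) (Subgroup.index_dvd_of_le h3)
    rw [← Nat.card_coe_set_eq] at hS hlt
    have h5 := P_card_le hCi hr (by omega)
    omega
  · exact h1

/-- P4a -/
theorem rich_of_relIndex {A B : Subgroup G} {S S' : Set V} (hS : 5 ≤ S.ncard)
    (hSS' : S'.ncard = S.ncard) (hA : Inv A S) (hA' : Inv A S') (hr : Rich A S S')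
    (hBA : B ≤ A) (h0 : B.relIndex A ≠ 0) (hlt : 2 * B.relIndex A < (S.ncard).factorial)
    (hb : Big B S) (hb' : Big B S') : Rich B S S' := by
  rw [P_rich_iff] at hr ⊢
  exact ⟨P_rich_half hS hA hA' hr.1 hBA h0 hlt hb,
    P_rich_half (hSS' ▸ hS) hA' hA hr.2 hBA h0 (hSS' ▸ hlt) hb'⟩

/-- P4c -/
theorem not_rich_of_fixes {A : Subgroup G} {S S' : Set V} (hS : 3 ≤ S.ncard)
    (h : ∀ a ∈ A, Fixes a S' → Fixes a S) : ¬ Rich A S S' := by
  rintro ⟨h1, -⟩
  obtain ⟨x, y, z, hx, hy, hz, hxy, hxz, hyz⟩ :=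
    (Set.two_lt_ncard_iff (Set.finite_of_ncard_pos (by omega))).1 (by omega : 2 < S.ncard)
  obtain ⟨a, ha, h2, h3⟩ := h1 x hx y hy z hz hxy hyz hxz
  have h4 := h a ha h2 x hx
  exact hxy (h4.symm.trans h3.1)

/-- if the elements which fix `S'` fix `S` then the elements which fix `S` are not big on `S'` -/
lemma P_not_big {A : Subgroup G} {S S' : Set V} (hS : 5 ≤ S.ncard) (hS' : 5 ≤ S'.ncard)
    (hA : Inv A S) (hA' : Inv A S') (hb : Big A S)
    (h : ∀ k ∈ P_fix A S', Fixes k S) : ¬ Big (P_fix A S) S' := by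
  classical
  have : Fintype S := (Set.finite_of_ncard_pos (by omega : 0 < S.ncard)).fintype
  have : Fintype S' := (Set.finite_of_ncard_pos (by omega : 0 < S'.ncard)).fintype
  intro hbig
  have hAlt' := (P_big_iff hA' (P_fix_le A S)).1 hbig
  -- all commutators of `A` fix `S`
  have key : ∀ a ∈ A, ∀ b ∈ A, Fixes (a * b * a⁻¹ * b⁻¹) S := by
    intro a ha b hb'
    have hc : a * b * a⁻¹ * b⁻¹ ∈ A :=
      A.mul_mem (A.mul_mem (A.mul_mem ha hb') (A.inv_mem ha)) (A.inv_mem hb')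
    have h1 : P_phi A S' hA' ⟨_, hc⟩ ∈ alternatingGroup S' := by
      have h2 : (⟨_, hc⟩ : A) = ⟨a, ha⟩ * ⟨b, hb'⟩ * ⟨a, ha⟩⁻¹ * ⟨b, hb'⟩⁻¹ := rfl
      have h3 : ∀ u v : ℤˣ, u * v * u⁻¹ * v⁻¹ = 1 := fun u v => by
        rw [mul_comm u v, mul_inv_cancel_right, mul_inv_cancel]
      rw [mem_alternatingGroup, h2]
      simpa only [map_mul, map_inv] using h3 _ _
    obtain ⟨k, hk, hk2⟩ := (P_mem_img hA' (P_fix_le A S) _).1 (hAlt' h1)
    have h3 : (a * b * a⁻¹ * b⁻¹) * k⁻¹ ∈ P_fix A S' := by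
      have hm : (a * b * a⁻¹ * b⁻¹) * k⁻¹ ∈ A := A.mul_mem hc (A.inv_mem hk.1)
      refine ⟨hm, (P_phi_eq_one hA' ⟨_, hm⟩).1 ?_⟩
      have h4 : (⟨_, hm⟩ : A) = ⟨_, hc⟩ * ⟨k, hk.1⟩⁻¹ := rfl
      rw [h4, map_mul, map_inv, hk2, mul_inv_cancel]
    have h5 := h _ h3
    intro s hs
    have h6 := h5 s hs
    have h7 : k⁻¹ • s = s := by
      rw [inv_smul_eq_iff]
      exact (hk.2 s hs).symm
    rwa [mul_smul, h7] at h6
  obtain ⟨x, y, z, hx, hy, hz, hxy, hxz, hyz⟩ :=
    (Set.two_lt_ncard_iff (Set.finite_of_ncard_pos (by omega))).1 (by omega : 2 < S.ncard)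
  obtain ⟨w, hw, hwn⟩ : ∃ w ∈ S, w ∉ ({x, y, z} : Set V) := by
    by_contra hcon
    push Not at hcon
    have h1 : S.ncard ≤ ({x, y, z} : Set V).ncard :=
      Set.ncard_le_ncard hcon (Set.toFinite _)
    have h2 : ({x, y, z} : Set V).ncard ≤ 3 := by
      have h3 := Set.ncard_insert_le x ({y, z} : Set V)
      have h4 := Set.ncard_insert_le y ({z} : Set V)
      have h5 := Set.ncard_singleton z
      omega
    omega
  simp only [Set.mem_insert_iff, Set.mem_singleton_iff, not_or] at hwn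
  obtain ⟨hwx, hwy, hwz⟩ := hwn
  obtain ⟨a, ha, ha1, ha2, ha3, ha4⟩ := hb x hx y hy z hz hxy hyz hxz
  obtain ⟨b, hbA, hb1, hb2, hb3, hb4⟩ := hb x hx y hy w hw hxy (Ne.symm hwy) (Ne.symm hwx)
  -- `a = (x y z)`, `b = (x y w)`; `a b x = a y = z`, `b a x = b y = w`
  have h1 := key a ha b hbA
  have h2 : (a * b) • x = (b * a) • x := by
    have h3 : a * b = (a * b * a⁻¹ * b⁻¹) * (b * a) := by group
    rw [h3, mul_smul]
    exact h1 _ (hA _ (A.mul_mem hbA ha) x hx)
  rw [mul_smul, mul_smul, hb1, ha1, ha2, hb2] at h2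
  exact hwz h2.symm

/-- P4b -/
theorem fixes_iff_of_not_rich {A : Subgroup G} {S S' : Set V} (hS : 5 ≤ S.ncard)
    (hS' : 5 ≤ S'.ncard) (hA : Inv A S) (hA' : Inv A S') (hb : Big A S) (hb' : Big A S')
    (hr : ¬ Rich A S S') : ∀ a ∈ A, (Fixes a S ↔ Fixes a S') := by
  rw [P_rich_iff, not_and_or] at hr
  have d1 := normal_dichotomy hS hA hb (P_fix_le A S') (P_fix_normal hA')
  have d2 := normal_dichotomy hS' hA' hb' (P_fix_le A S) (P_fix_normal hA)
  have e1 : (∀ k ∈ P_fix A S', Fixes k S) → ∀ k ∈ P_fix A S, Fixes k S' := fun h =>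
    d2.resolve_right (P_not_big hS hS' hA hA' hb h)
  have e2 : (∀ k ∈ P_fix A S, Fixes k S') → ∀ k ∈ P_fix A S', Fixes k S := fun h =>
    d1.resolve_right (P_not_big hS' hS hA' hA hb' h)
  have h3 : (∀ k ∈ P_fix A S', Fixes k S) ∧ ∀ k ∈ P_fix A S, Fixes k S' := by
    rcases hr with hr | hr
    · have h4 := d1.resolve_right hr
      exact ⟨h4, e1 h4⟩
    · have h4 := d2.resolve_right hr
      exact ⟨e2 h4, h4⟩
  exact fun a ha => ⟨fun h => h3.2 a ⟨ha, h⟩, fun h => h3.1 a ⟨ha, h⟩⟩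

/-- P5 -/
theorem big_of_same_kernel {A : Subgroup G} {S S' : Set V} (hS : 5 ≤ S.ncard)
    (hSS' : S'.ncard = S.ncard) (hA : Inv A S) (hA' : Inv A S') (hb : Big A S)
    (hk : ∀ a ∈ A, (Fixes a S ↔ Fixes a S')) : Big A S' := by
  classical
  have : Fintype S := (Set.finite_of_ncard_pos (by omega : 0 < S.ncard)).fintype
  have : Fintype S' := (Set.finite_of_ncard_pos (by omega : 0 < S'.ncard)).fintype
  have h1 : (P_phi A S hA).ker = (P_phi A S' hA').ker := by
    ext a
    rw [MonoidHom.mem_ker, MonoidHom.mem_ker, P_phi_eq_one, P_phi_eq_one]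
    exact hk a a.2
  rw [← Nat.card_coe_set_eq, ← Nat.card_coe_set_eq] at hSS'
  rw [← Nat.card_coe_set_eq] at hS
  have h2 := P_card_le hA hb (by omega)
  rw [h1, Subgroup.index_ker] at h2
  rw [P_big_iff hA' le_rfl, P_img_self]
  apply alternatingGroup_le_of_index_le_two
  have h3 := (P_phi A S' hA').range.index_mul_card
  rw [Nat.card_perm, hSS'] at h3
  have h4 : 0 < Nat.card (P_phi A S' hA').range := Nat.card_pos
  by_contra h5
  push Not at h5
  nlinarith

/-- P6 -/
theorem ker_le {A B : Subgroup G} {S : Set V} (hS : 5 ≤ S.ncard) (hA : Inv A S)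
    (hb : Big A S) (hBA : B ≤ A) (h0 : B.relIndex A ≠ 0) (hle : B.relIndex A ≤ S.ncard)
    (hnb : ¬ Big B S) : ∀ a ∈ A, Fixes a S → a ∈ B := by
  classical
  have : Fintype S := (Set.finite_of_ncard_pos (by omega : 0 < S.ncard)).fintype
  rw [← Nat.card_coe_set_eq] at hS hle
  rw [P_big_iff hA hBA] at hnb
  have h1 : Nat.card S ≤ (P_img A B S hA).relIndex (P_phi A S hA).range := by
    by_contra h
    push Not at h
    exact hnb (P_index hS _ ((P_rel hA hb h0).trans_lt h))
  rw [← Subgroup.index_comap] at h1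
  set B' := (P_img A B S hA).comap (P_phi A S hA) with hB'
  have h2 : B.subgroupOf A ≤ B' := Subgroup.le_comap_map _ _
  have h3 : (B.subgroupOf A).relIndex B' * B'.index = B.relIndex A :=
    Subgroup.relIndex_mul_index h2
  have h4 : (B.subgroupOf A).relIndex B' = 1 := by
    have h5 : (B.subgroupOf A).relIndex B' ≠ 0 := by
      intro h
      rw [h, zero_mul] at h3
      exact h0 h3.symm
    have h6 : 0 < B'.index := by omega
    by_contra h7
    have h8 : 2 ≤ (B.subgroupOf A).relIndex B' := by omega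
    nlinarith
  intro a ha hfix
  have h5 := Subgroup.relIndex_eq_one.1 h4
  have h6 : (⟨a, ha⟩ : A) ∈ B' := by
    rw [hB', Subgroup.mem_comap, (P_phi_eq_one hA ⟨a, ha⟩).2 hfix]
    exact Subgroup.one_mem _
  exact h5 h6

end act

end Pool.Agent.Lib_helper84.BT
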