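import Pool.Agent.Lib_helper86.Inv.Step

/-!
PART P6: every word of reflections can be reduced without changing its value.
-/

set_option autoImplicit false

namespace Inv38

open Matrix

section
variable {n : ℕ} {F : Type*} [Field F] [Algebra ℝ F]

/-- squared distance of the marked point from `c` -/
def iQ (c : Fin n → ℝ) (σ : St n F) : F := (σ.x - cc c) ⬝ᵥ (σ.x - cc c)

/-- `⟨x - c, w⟩` -/
def iq (c : Fin n → ℝ) (σ : St n F) : F := (σ.x - cc c) ⬝ᵥ σ.w

lemma gg_eq (c : Fin n → ℝ) (σ : St n F) : gg c σ = nn σ * iQ c σ - iq c σ ^ 2 := rfl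

lemma tt_eq (l : Lt n F) (σ : St n F) : tt l σ = (l.s - iq l.c σ) / nn σ := rfl

lemma rne {l : Lt n F} {σ : St n F} (h : Ok l σ) : (algebraMap ℝ F l.r) ≠ 0 := by
  rw [Ne, map_eq_zero_iff _ (algebraMap ℝ F).injective]
  exact h.1.ne'

lemma aa_dot_w (l : Lt n F) (σ : St n F) (hN : nn σ ≠ 0) : aa l σ ⬝ᵥ σ.w = l.s := by
  have h1 : σ.w ⬝ᵥ σ.w = nn σ := rfl
  have h2 : (σ.x - cc l.c) ⬝ᵥ σ.w = iq l.c σ := rfl
  rw [aa, add_dotProduct, smul_dotProduct, h1, h2, smul_eq_mul, tt_eq]
  field_simp
  ring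

lemma aa_dot_aa (l : Lt n F) (σ : St n F) (hN : nn σ ≠ 0) (h : Ok l σ) :
    aa l σ ⬝ᵥ aa l σ = (algebraMap ℝ F l.r) ^ 2 := by
  have h1 : σ.w ⬝ᵥ σ.w = nn σ := rfl
  have h2 : (σ.x - cc l.c) ⬝ᵥ σ.w = iq l.c σ := rfl
  have h3 : (σ.x - cc l.c) ⬝ᵥ (σ.x - cc l.c) = iQ l.c σ := rfl
  have h4 : σ.w ⬝ᵥ (σ.x - cc l.c) = iq l.c σ := by rw [dotProduct_comm]; rfl
  rw [aa, add_dotProduct, dotProduct_add, dotProduct_add, smul_dotProduct, smul_dotProduct,
    dotProduct_smul, dotProduct_smul, h1, h2, h3, h4, tt_eq]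
  simp only [smul_eq_mul]
  have hs := h.2
  rw [gg_eq] at hs
  field_simp
  linear_combination hs

lemma nn_step (l : Lt n F) (σ : St n F) (hN : nn σ ≠ 0) (h : Ok l σ) :
    nn (step l σ) = nn σ := by
  have hr := rne h
  have h1 : σ.w ⬝ᵥ σ.w = nn σ := rfl
  have h2 := aa_dot_w l σ hN
  have h3 := aa_dot_aa l σ hN h
  have h4 : σ.w ⬝ᵥ aa l σ = l.s := by rw [dotProduct_comm, h2]
  have h5 : nn (step l σ) = ww l σ ⬝ᵥ ww l σ := rfl
  rw [h5, ww]
  simp only [sub_dotProduct, dotProduct_sub, smul_dotProduct, dotProduct_smul, h1, h2, h3, h4,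
    smul_eq_mul]
  field_simp
  ring

lemma step_sub (l : Lt n F) (σ : St n F) :
    (step l σ).x - cc l.c = aa l σ - tt l σ • (step l σ).w := by
  simp only [step, aa]
  ext i
  simp only [Pi.sub_apply, Pi.add_apply, Pi.smul_apply, smul_eq_mul]
  ring

lemma aa_dot_step_w (l : Lt n F) (σ : St n F) (hN : nn σ ≠ 0) (h : Ok l σ) :
    aa l σ ⬝ᵥ (step l σ).w = -l.s := by
  have hr := rne h
  have h2 := aa_dot_w l σ hN
  have h3 := aa_dot_aa l σ hN h
  simp only [step, ww, dotProduct_sub, dotProduct_smul, h2, h3, smul_eq_mul]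
  field_simp
  ring

lemma iq_step (l : Lt n F) (σ : St n F) (hN : nn σ ≠ 0) (h : Ok l σ) :
    iq l.c (step l σ) = iq l.c σ - 2 * l.s := by
  have h1 := aa_dot_step_w l σ hN h
  have h2 : (step l σ).w ⬝ᵥ (step l σ).w = nn σ := nn_step l σ hN h
  rw [iq, step_sub, sub_dotProduct, smul_dotProduct, h1, h2, smul_eq_mul, tt_eq]
  field_simp
  ring

lemma iQ_step (l : Lt n F) (σ : St n F) (hN : nn σ ≠ 0) (h : Ok l σ) :
    iQ l.c (step l σ)
      = (algebraMap ℝ F l.r) ^ 2 + (l.s - iq l.c σ) * (3 * l.s - iq l.c σ) / nn σ := by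
  have h1 := aa_dot_step_w l σ hN h
  have h1' : (step l σ).w ⬝ᵥ aa l σ = -l.s := by rw [dotProduct_comm, h1]
  have h2 : (step l σ).w ⬝ᵥ (step l σ).w = nn σ := nn_step l σ hN h
  have h3 := aa_dot_aa l σ hN h
  rw [iQ, step_sub]
  simp only [sub_dotProduct, dotProduct_sub, smul_dotProduct, dotProduct_smul, h1, h1', h2, h3,
    smul_eq_mul, tt_eq]
  field_simp
  ring

lemma gg_step (l : Lt n F) (σ : St n F) (hN : nn σ ≠ 0) (h : Ok l σ) :
    gg l.c (step l σ) = gg l.c σ := by
  rw [gg_eq, gg_eq, nn_step l σ hN h, iq_step l σ hN h, iQ_step l σ hN h]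
  have hs := h.2
  rw [gg_eq] at hs
  field_simp
  linear_combination -hs

lemma aa_step (l : Lt n F) (σ : St n F) (hN : nn σ ≠ 0) (h : Ok l σ) (m : Lt n F)
    (hm : m.c = l.c) :
    aa m (step l σ) = aa l σ + ((l.s + m.s) / nn σ) • (step l σ).w := by
  rw [aa, tt_eq, hm, step_sub, iq_step l σ hN h, nn_step l σ hN h, tt_eq]
  ext i
  simp only [Pi.sub_apply, Pi.add_apply, Pi.smul_apply, smul_eq_mul]
  field_simp
  ring

lemma step_x (l : Lt n F) (σ : St n F) :
    (step l σ).x = cc l.c + (aa l σ - tt l σ • (step l σ).w) := by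
  rw [← step_sub]; ext i; simp

/-- a reflection is undone by the reflection with the opposite root -/
lemma step_step_neg (l : Lt n F) (σ : St n F) (hN : nn σ ≠ 0) (h : Ok l σ) (m : Lt n F)
    (hc : m.c = l.c) (hr : m.r = l.r) (hs : m.s = -l.s) : step m (step l σ) = σ := by
  have ha : aa m (step l σ) = aa l σ := by
    rw [aa_step l σ hN h m hc, hs]; simp
  have hw : (step m (step l σ)).w = σ.w := by
    have e1 : (step m (step l σ)).w
        = (step l σ).w - (2 * m.s / (algebraMap ℝ F m.r) ^ 2) • aa m (step l σ) := rfl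
    have e2 : (step l σ).w = σ.w - (2 * l.s / (algebraMap ℝ F l.r) ^ 2) • aa l σ := rfl
    rw [e1, ha, e2, hs, hr]
    ext i
    simp only [Pi.sub_apply, Pi.smul_apply, smul_eq_mul]
    ring
  have hx : (step m (step l σ)).x = σ.x := by
    rw [step_x, ha, hw, tt_eq, hc, iq_step l σ hN h, nn_step l σ hN h, hs, aa, tt_eq]
    ext i
    simp only [Pi.sub_apply, Pi.add_apply, Pi.smul_apply, smul_eq_mul]
    field_simp
    ring
  exact St.ext hx hw

lemma ok_step (l : Lt n F) (σ : St n F) (hN : nn σ ≠ 0) (h : Ok l σ) (m : Lt n F)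
    (hc : m.c = l.c) : Ok m (step l σ) ↔ Ok m σ := by
  rw [Ok, Ok, nn_step l σ hN h, hc, gg_step l σ hN h]

/-- reflections in concentric spheres commute -/
lemma step_comm (l m : Lt n F) (σ : St n F) (hN : nn σ ≠ 0) (hl : Ok l σ) (hm : Ok m σ)
    (hc : m.c = l.c) : step m (step l σ) = step l (step m σ) := by
  have hr := rne hl
  have hr₂ := rne hm
  have h12 : l.s ^ 2 - m.s ^ 2
      = ((algebraMap ℝ F l.r) ^ 2 - (algebraMap ℝ F m.r) ^ 2) * nn σ := by
    rw [hl.2, hm.2, hc]; ring
  have e1 : (step m (step l σ)).w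
      = (step l σ).w - (2 * m.s / (algebraMap ℝ F m.r) ^ 2) • aa m (step l σ) := rfl
  have e2 : (step l (step m σ)).w
      = (step m σ).w - (2 * l.s / (algebraMap ℝ F l.r) ^ 2) • aa l (step m σ) := rfl
  have e3 : (step l σ).w = σ.w - (2 * l.s / (algebraMap ℝ F l.r) ^ 2) • aa l σ := rfl
  have e4 : (step m σ).w = σ.w - (2 * m.s / (algebraMap ℝ F m.r) ^ 2) • aa m σ := rfl
  have a1 : aa l σ = (σ.x - cc l.c) + ((l.s - iq l.c σ) / nn σ) • σ.w := rfl
  have a2 : aa m σ = (σ.x - cc l.c) + ((m.s - iq l.c σ) / nn σ) • σ.w := by rw [← hc]; rfl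
  have hw : (step m (step l σ)).w = (step l (step m σ)).w := by
    rw [e1, e2, aa_step l σ hN hl m hc, aa_step m σ hN hm l hc.symm, e3, e4, a1, a2]
    ext i
    simp only [Pi.sub_apply, Pi.add_apply, Pi.smul_apply, smul_eq_mul]
    generalize σ.x i - (cc l.c : Fin n → F) i = a
    generalize σ.w i = b
    generalize iq l.c σ = q at *
    generalize nn σ = N at *
    generalize algebraMap ℝ F l.r = r at *
    generalize algebraMap ℝ F m.r = r₂ at *
    generalize l.s = s at *
    generalize m.s = s₂ at *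
    field_simp
    linear_combination (4 * s * s₂ * b) * h12
  have hx : (step m (step l σ)).x = (step l (step m σ)).x := by
    rw [step_x, step_x, hw, aa_step l σ hN hl m hc, aa_step m σ hN hm l hc.symm, tt_eq, tt_eq,
      nn_step l σ hN hl, nn_step m σ hN hm, hc, iq_step l σ hN hl]
    rw [show iq l.c (step m σ) = iq l.c σ - 2 * m.s by rw [← hc]; exact iq_step m σ hN hm]
    rw [e2, aa_step m σ hN hm l hc.symm, e3, e4, a1, a2]
    ext i
    simp only [Pi.sub_apply, Pi.add_apply, Pi.smul_apply, smul_eq_mul]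
    generalize σ.x i - (cc l.c : Fin n → F) i = a
    generalize (cc l.c : Fin n → F) i = c₀
    generalize σ.w i = b
    generalize iq l.c σ = q at *
    generalize nn σ = N at *
    generalize algebraMap ℝ F l.r = r at *
    generalize algebraMap ℝ F m.r = r₂ at *
    generalize l.s = s at *
    generalize m.s = s₂ at *
    field_simp
    linear_combination (-4 * N * a * s * s₂ + 4 * s * s₂ * q * b - 4 * s * s₂ ^ 2 * b) * h12
  exact St.ext hx hw

lemma nn_iter (l : Lt n F) (k : ℕ) (σ : St n F) (hN : nn σ ≠ 0) (h : Ok l σ) :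
    nn ((step l)^[k] σ) = nn σ ∧ Ok l ((step l)^[k] σ) := by
  induction k with
  | zero => exact ⟨rfl, h⟩
  | succ k ih =>
    rw [Function.iterate_succ_apply']
    have hN' : nn ((step l)^[k] σ) ≠ 0 := by rw [ih.1]; exact hN
    exact ⟨by rw [nn_step l _ hN' ih.2, ih.1], (ok_step l _ hN' ih.2 l rfl).mpr ih.2⟩

lemma ok_iter (l : Lt n F) (k : ℕ) (σ : St n F) (hN : nn σ ≠ 0) (h : Ok l σ) (m : Lt n F)
    (hc : m.c = l.c) : Ok m ((step l)^[k] σ) ↔ Ok m σ := by
  induction k with
  | zero => rfl
  | succ k ih =>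
    rw [Function.iterate_succ_apply', ok_step l _ (by rw [(nn_iter l k σ hN h).1]; exact hN)
      (nn_iter l k σ hN h).2 m hc, ih]

lemma iter_comm (l m : Lt n F) (k : ℕ) (σ : St n F) (hN : nn σ ≠ 0) (hl : Ok l σ) (hm : Ok m σ)
    (hc : m.c = l.c) : (step m)^[k] (step l σ) = step l ((step m)^[k] σ) := by
  induction k with
  | zero => rfl
  | succ k ih =>
    rw [Function.iterate_succ_apply', Function.iterate_succ_apply', ih]
    have h1 := nn_iter m k σ hN hm
    exact step_comm l m _ (by rw [h1.1]; exact hN) ((ok_iter m k σ hN hm l hc.symm).mpr hl)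
      h1.2 hc

open Classical in
lemma insert_letter (L : List (Lt n F × ℕ)) : ∀ (l : Lt n F) (σ : St n F), nn σ ≠ 0 → Ok l σ →
    OkE L (step l σ) → RedE L →
    ∃ L' : List (Lt n F × ℕ), OkE L' σ ∧ RedE L' ∧ runE L' σ = runE L (step l σ) ∧
      ∀ q ∈ L'.takeWhile (fun q => decide (q.1.c = l.c)), q.1.r = l.r ∨
        ∃ q' ∈ L.takeWhile (fun q => decide (q.1.c = l.c)), q'.1.r = q.1.r := by
  induction L with
  | nil =>
    intro l σ hN hl _ _
    refine ⟨[(l, 1)], ⟨hl, le_refl 1, trivial⟩, ⟨trivial, by simp⟩, rfl, ?_⟩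
    intro q hq
    left
    simp at hq
    rw [hq]
  | cons p L ih =>
    intro l σ hN hl hOk hRed
    obtain ⟨a, k⟩ := p
    obtain ⟨ha, hk, hOk2⟩ := hOk
    obtain ⟨hRed1, hRed2⟩ := hRed
    by_cases hac : a.c = l.c
    · have haσ : Ok a σ := (ok_step l σ hN hl a hac).mp ha
      by_cases har : a.r = l.r
      · -- the same sphere
        have hsq : a.s ^ 2 = l.s ^ 2 := by rw [haσ.2, hl.2, har, hac]
        rcases sq_eq_sq_iff_eq_or_eq_neg.mp hsq with hs | hs
        · have hal : a = l := by
            cases a; cases l; simp_all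
          subst hal
          refine ⟨(a, k + 1) :: L, ⟨haσ, by simp, ?_⟩, ⟨hRed1, hRed2⟩, ?_, ?_⟩
          · change OkE L ((step a)^[k + 1] σ)
            rw [Function.iterate_succ_apply]; exact hOk2
          · change runE L ((step a)^[k + 1] σ) = runE L ((step a)^[k] (step a σ))
            rw [Function.iterate_succ_apply]
          · intro q hq
            rw [List.takeWhile_cons] at hq ⊢
            simp only [decide_true, if_true, List.mem_cons] at hq ⊢
            rcases hq with rfl | hq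
            · left; rfl
            · right; exact ⟨q, Or.inr hq, rfl⟩
        · have hinv : step a (step l σ) = σ := step_step_neg l σ hN hl a hac har hs
          obtain ⟨j, rfl⟩ : ∃ j, k = j + 1 := ⟨k - 1, by omega⟩
          have hit : (step a)^[j + 1] (step l σ) = (step a)^[j] σ := by
            rw [Function.iterate_succ_apply, hinv]
          change OkE L ((step a)^[j + 1] (step l σ)) at hOk2
          rw [hit] at hOk2
          rcases Nat.eq_zero_or_pos j with rfl | hj
          · refine ⟨L, hOk2, hRed1, ?_, ?_⟩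
            · change runE L σ = runE L ((step a)^[0 + 1] (step l σ))
              rw [hit]; rfl
            · intro q hq
              right
              refine ⟨q, ?_, rfl⟩
              rw [List.takeWhile_cons]
              simp only [hac, decide_true, if_true, List.mem_cons]
              exact Or.inr hq
          · refine ⟨(a, j) :: L, ⟨haσ, hj, hOk2⟩, ⟨hRed1, hRed2⟩, ?_, ?_⟩
            · change runE L ((step a)^[j] σ) = runE L ((step a)^[j + 1] (step l σ))
              rw [hit]
            · intro q hq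
              right
              rw [List.takeWhile_cons] at hq ⊢
              simp only [hac, decide_true, if_true, List.mem_cons] at hq ⊢
              rcases hq with rfl | hq
              · exact ⟨(a, j + 1), Or.inl rfl, rfl⟩
              · exact ⟨q, Or.inr hq, rfl⟩
      · -- concentric, another radius: push `l` through
        have hcomm := iter_comm l a k σ hN hl haσ hac
        have h1 := nn_iter a k σ hN haσ
        have hlσ : Ok l ((step a)^[k] σ) := (ok_iter a k σ hN haσ l hac.symm).mpr hl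
        change OkE L ((step a)^[k] (step l σ)) at hOk2
        rw [hcomm] at hOk2
        obtain ⟨L', hL1, hL2, hL3, hL4⟩ := ih l _ (by rw [h1.1]; exact hN) hlσ hOk2 hRed1
        refine ⟨(a, k) :: L', ⟨haσ, hk, hL1⟩, ⟨hL2, ?_⟩, ?_, ?_⟩
        · intro q hq
          change q ∈ L'.takeWhile (fun q => decide (q.1.c = a.c)) at hq
          rw [hac] at hq
          rcases hL4 q hq with h | ⟨q', hq', h⟩
          · rw [h]; exact fun h' => har h'.symm
          · rw [← h]
            apply hRed2 q'
            change q' ∈ L.takeWhile (fun q => decide (q.1.c = a.c))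
            rw [hac]; exact hq'
        · change runE L' ((step a)^[k] σ) = runE L ((step a)^[k] (step l σ))
          rw [hL3, hcomm]
        · intro q hq
          rw [List.takeWhile_cons] at hq ⊢
          simp only [hac, decide_true, if_true, List.mem_cons] at hq ⊢
          rcases hq with rfl | hq
          · right; exact ⟨(a, k), Or.inl rfl, rfl⟩
          · rcases hL4 q hq with h | ⟨q', hq', h⟩
            · left; exact h
            · right; exact ⟨q', Or.inr hq', h⟩
    · refine ⟨(l, 1) :: (a, k) :: L, ⟨hl, le_refl 1, ha, hk, hOk2⟩, ⟨⟨hRed1, hRed2⟩, ?_⟩, rfl, ?_⟩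
      · intro q hq
        rw [List.takeWhile_cons] at hq
        simp [hac] at hq
      · intro q hq
        rw [List.takeWhile_cons] at hq
        simp only [decide_true, if_true, List.mem_cons] at hq
        rcases hq with rfl | hq
        · left; rfl
        · rw [List.takeWhile_cons] at hq
          simp [hac] at hq

/-- PART P6: every word can be reduced, in the same field, without changing its value -/
theorem reduce (L : List (Lt n F)) (σ : St n F)
    (hN : nn σ ≠ 0) (hL : OkL L σ) :
    ∃ L' : List (Lt n F × ℕ), OkE L' σ ∧ RedE L' ∧ runE L' σ = run L σ := by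
  induction L generalizing σ with
  | nil => exact ⟨[], trivial, trivial, rfl⟩
  | cons l L ih =>
    obtain ⟨hl, hL⟩ := hL
    obtain ⟨L', h1, h2, h3⟩ := ih (step l σ) (by rw [nn_step l σ hN hl]; exact hN) hL
    obtain ⟨L'', h4, h5, h6, -⟩ := insert_letter L' l σ hN hl h1 h2
    exact ⟨L'', h4, h5, by rw [h6, h3]; rfl⟩

end

end Inv38
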