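import Mathlib

set_option autoImplicit false

/-!
# Corner connection tile number versus traditional tile number

We define traditional and corner connection knot mosaics, the knots they depict, and the two
tile numbers, and prove `t_cc(K) ≤ t(K)` for every knot `K`.
-/

namespace Pool.Agent.Lib_helper37.Mosaic

open Set Real

/-- Three-dimensional space. -/
abbrev R3 : Type := ℝ × ℝ × ℝ

/-- A knot: the image of an injective continuous map of the circle into three-dimensional space. -/
def IsKnot (K : Set R3) : Prop :=
  ∃ f : Circle → R3, Continuous f ∧ Function.Injective f ∧ Set.range f = K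

/-- `A` is carried to `B` by an ambient isotopy of three-dimensional space. -/
def AmbientIsotopic (A B : Set R3) : Prop :=
  ∃ H : unitInterval → (R3 ≃ₜ R3), Continuous (fun q : unitInterval × R3 => H q.1 q.2) ∧
    (∀ x, H 0 x = x) ∧ H 1 '' A = B

/-- The eleven tiles, for both systems. A tile has four connection points `0, 1, 2, 3`, in
counterclockwise order: the midpoints of its right, top, left and bottom edge in the traditional
system, and its top right, top left, bottom left and bottom right corner in the corner connection
system. `arc k` is one arc joining `k` and `k + 1`; `line02`, `line13` are one straight segment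
joining `0, 2` or `1, 3`; `arcs01` is `arc 0` together with `arc 2`; `arcs12` is `arc 1` together
with `arc 3`; `cross02`, `cross13` are both segments crossing, with the segment named in front on
top (`0, 2` on top for `cross02`; `1, 3` on top for `cross13`). -/
inductive Tile : Type
  | blank : Tile
  | arc (k : Fin 4) : Tile
  | line02 : Tile
  | line13 : Tile
  | arcs01 : Tile
  | arcs12 : Tile
  | cross02 : Tile
  | cross13 : Tile

/-- The connection points at which a tile has an arc end (exactly one arc end at each of them). -/
def Tile.ends : Tile → Set (Fin 4)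
  | .blank => ∅
  | .arc k => {k, k + 1}
  | .line02 => {0, 2}
  | .line13 => {1, 3}
  | .arcs01 => univ
  | .arcs12 => univ
  | .cross02 => univ
  | .cross13 => univ

/-- Positions, relative to the centre of the unit tile, of the connection points in the
traditional system: the edge midpoints. -/
noncomputable def tradPt : Fin 4 → ℝ × ℝ :=
  ![(1/2, 0), (0, 1/2), (-1/2, 0), (0, -1/2)]

/-- Positions, relative to the centre of the unit tile, of the connection points in the
corner connection system: the tile corners. -/
noncomputable def cornerPt : Fin 4 → ℝ × ℝ :=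
  ![(1/2, 1/2), (-1/2, 1/2), (-1/2, -1/2), (1/2, -1/2)]

/-- The segment from `p k` to the opposite point `-p k`, lifted to height `h * (1 - s ^ 2)`
(so at height `0` at its two ends, and at height `h` over the centre of the tile). -/
def segment (p : Fin 4 → ℝ × ℝ) (k : Fin 4) (h : ℝ) : Set R3 :=
  {x | ∃ s ∈ Icc (-1 : ℝ) 1, x = (s * (p k).1, s * (p k).2, h * (1 - s ^ 2))}

/-- The quarter circle from `p (k + 1)` to `p k` centred at `p k + p (k + 1)`, at height `0`. -/
def quarter (p : Fin 4 → ℝ × ℝ) (k : Fin 4) : Set R3 :=
  {x | ∃ θ ∈ Icc (0 : ℝ) (π / 2), x =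
    ((p k).1 + (p (k + 1)).1 - (cos θ * (p k).1 + sin θ * (p (k + 1)).1),
     (p k).2 + (p (k + 1)).2 - (cos θ * (p k).2 + sin θ * (p (k + 1)).2), 0)}

/-- The piece of curve in space carried by a tile, relative to the centre of the tile, where `p`
gives the positions of the connection points. At a crossing the strand on top is lifted. -/
def Tile.curve (p : Fin 4 → ℝ × ℝ) : Tile → Set R3
  | .blank => ∅
  | .arc k => quarter p k
  | .line02 => segment p 0 0
  | .line13 => segment p 1 0
  | .arcs01 => quarter p 0 ∪ quarter p 2
  | .arcs12 => quarter p 1 ∪ quarter p 3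
  | .cross02 => segment p 0 1 ∪ segment p 1 0
  | .cross13 => segment p 0 0 ∪ segment p 1 1

/-- An `n`-mosaic: an `n × n` array of tiles. The tile `M i j` fills the unit square
`[i, i + 1] × [j, j + 1]`. -/
abbrev Mosaic (n : ℕ) : Type := Fin n → Fin n → Tile

/-- The curve in space carried by a mosaic. -/
def curve {n : ℕ} (p : Fin 4 → ℝ × ℝ) (M : Mosaic n) : Set R3 :=
  ⋃ i : Fin n, ⋃ j : Fin n,
    (fun x : R3 => (((i : ℕ) : ℝ) + 1/2 + x.1, ((j : ℕ) : ℝ) + 1/2 + x.2.1, x.2.2)) ''
      (M i j).curve p

/-- The number of non-blank tiles of a mosaic. -/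
noncomputable def nonblank {n : ℕ} (M : Mosaic n) : ℕ :=
  {q : Fin n × Fin n | M q.1 q.2 ≠ Tile.blank}.ncard

/-- The step from a tile to the neighbouring tile across its edge `k` (right, top, left, bottom). -/
def dir : Fin 4 → ℤ × ℤ := ![(1, 0), (0, 1), (-1, 0), (0, -1)]

/-- Traditional system: each connection point of a tile meets a connection point of the tile
across that edge (which has to exist, so none lies on the outer boundary). -/
def TradConnected {n : ℕ} (M : Mosaic n) : Prop :=
  ∀ i j : Fin n, ∀ k ∈ (M i j).ends, ∃ i' j' : Fin n,
    ((i' : ℕ) : ℤ) = (i : ℕ) + (dir k).1 ∧ ((j' : ℕ) : ℤ) = (j : ℕ) + (dir k).2 ∧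
      k + 2 ∈ (M i' j').ends

/-- The corner `k` of the tile at `(0, 0)` (top right, top left, bottom left, bottom right). -/
def cor : Fin 4 → ℕ × ℕ := ![(1, 1), (0, 1), (0, 0), (1, 0)]

/-- The arc ends meeting at the grid point `(a, b)` in the corner connection system: the triples
(column, row, corner) such that the tile there has an arc end at that corner and that corner
is `(a, b)`. -/
def endsAt {n : ℕ} (M : Mosaic n) (a b : ℕ) : Set (Fin n × Fin n × Fin 4) :=
  {q | q.2.2 ∈ (M q.1 q.2.1).ends ∧
    (q.1 : ℕ) + (cor q.2.2).1 = a ∧ (q.2.1 : ℕ) + (cor q.2.2).2 = b}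

/-- Corner connection system: at every grid point exactly `0` or `2` arc ends meet. -/
def CornerConnected {n : ℕ} (M : Mosaic n) : Prop :=
  ∀ a b : ℕ, (endsAt M a b).ncard = 0 ∨ (endsAt M a b).ncard = 2

/-- The traditional mosaic `M` depicts the knot `K`. -/
def TradDepicts {n : ℕ} (M : Mosaic n) (K : Set R3) : Prop :=
  TradConnected M ∧ AmbientIsotopic (curve tradPt M) K

/-- The corner connection mosaic `M` depicts the knot `K`. -/
def CornerDepicts {n : ℕ} (M : Mosaic n) (K : Set R3) : Prop :=
  CornerConnected M ∧ AmbientIsotopic (curve cornerPt M) K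

/-- The tile number `t(K)`: the least number of non-blank tiles in a traditional mosaic of any
size that depicts `K` (`⊤` if there is none). -/
noncomputable def tradTileNumber (K : Set R3) : ℕ∞ :=
  ⨅ (n : ℕ) (M : Mosaic n) (_ : TradDepicts M K), (nonblank M : ℕ∞)

/-- The corner connection tile number `t_cc(K)`: the least number of non-blank tiles in a corner
connection mosaic of any size that depicts `K` (`⊤` if there is none). -/
noncomputable def cornerTileNumber (K : Set R3) : ℕ∞ :=
  ⨅ (n : ℕ) (M : Mosaic n) (_ : CornerDepicts M K), (nonblank M : ℕ∞)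

end Pool.Agent.Lib_helper37.Mosaic
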