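import Pool.Agent.Lib_helper37.MosaicDefs

set_option autoImplicit false

namespace Pool.Agent.Lib_helper37.Mosaic

open Set Real

/-! ### The proof -/

/-- rotation by 45 degrees, scaled, on the local pieces -/
def lin (x : R3) : R3 := (x.1 - x.2.1, x.1 + x.2.1, x.2.2)

lemma lin_tradPt (k : Fin 4) :
    ((tradPt k).1 - (tradPt k).2, (tradPt k).1 + (tradPt k).2) = cornerPt k := by
  fin_cases k <;> simp [tradPt, cornerPt] <;> norm_num

lemma lin1 (k : Fin 4) : (cornerPt k).1 = (tradPt k).1 - (tradPt k).2 := by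
  rw [← lin_tradPt]

lemma lin2 (k : Fin 4) : (cornerPt k).2 = (tradPt k).1 + (tradPt k).2 := by
  rw [← lin_tradPt]

lemma lin_segment (k : Fin 4) (h : ℝ) : lin '' segment tradPt k h = segment cornerPt k h := by
  ext x
  constructor
  · rintro ⟨y, ⟨s, hs, rfl⟩, rfl⟩
    refine ⟨s, hs, ?_⟩
    simp only [lin, lin1, lin2, Prod.mk.injEq]
    refine ⟨by ring, by ring, trivial⟩
  · rintro ⟨s, hs, rfl⟩
    refine ⟨_, ⟨s, hs, rfl⟩, ?_⟩
    simp only [lin, lin1, lin2, Prod.mk.injEq]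
    refine ⟨by ring, by ring, trivial⟩

lemma lin_quarter (k : Fin 4) : lin '' quarter tradPt k = quarter cornerPt k := by
  ext x
  constructor
  · rintro ⟨y, ⟨s, hs, rfl⟩, rfl⟩
    refine ⟨s, hs, ?_⟩
    simp only [lin, lin1, lin2, Prod.mk.injEq]
    refine ⟨by ring, by ring, trivial⟩
  · rintro ⟨s, hs, rfl⟩
    refine ⟨_, ⟨s, hs, rfl⟩, ?_⟩
    simp only [lin, lin1, lin2, Prod.mk.injEq]
    refine ⟨by ring, by ring, trivial⟩

lemma lin_tile (T : Tile) : lin '' T.curve tradPt = T.curve cornerPt := by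
  cases T <;> simp [Tile.curve, image_union, lin_segment, lin_quarter]

/-- the positions: `(i, j)` goes to `(i', j')` -/
def Pos {n : ℕ} (i j : Fin n) (i' j' : Fin (2 * n)) : Prop :=
  (i' : ℕ) + 1 + (j : ℕ) = (i : ℕ) + n ∧ (j' : ℕ) = (i : ℕ) + (j : ℕ)

lemma Pos.exists {n : ℕ} (i j : Fin n) : ∃ i' j' : Fin (2 * n), Pos i j i' j' := by
  have hi := i.2
  have hj := j.2
  exact ⟨⟨(i : ℕ) + n - 1 - j, by omega⟩, ⟨(i : ℕ) + j, by omega⟩, by
    constructor
    · simp only; omega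
    · simp⟩

lemma Pos.inj {n : ℕ} {i j k l : Fin n} {i' j' : Fin (2 * n)} (h : Pos i j i' j')
    (h' : Pos k l i' j') : i = k ∧ j = l := by
  obtain ⟨h1, h2⟩ := h
  obtain ⟨h3, h4⟩ := h'
  constructor <;> apply Fin.ext <;> omega

lemma Pos.fun {n : ℕ} {i j : Fin n} {i' j' k' l' : Fin (2 * n)} (h : Pos i j i' j')
    (h' : Pos i j k' l') : i' = k' ∧ j' = l' := by
  obtain ⟨h1, h2⟩ := h
  obtain ⟨h3, h4⟩ := h'
  constructor <;> apply Fin.ext <;> omega

open Classical in
/-- the rotated mosaic -/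
noncomputable def rot {n : ℕ} (M : Mosaic n) : Mosaic (2 * n) := fun i' j' =>
  if h : ∃ q : Fin n × Fin n, Pos q.1 q.2 i' j' then M h.choose.1 h.choose.2 else Tile.blank

lemma rot_pos {n : ℕ} (M : Mosaic n) {i j : Fin n} {i' j' : Fin (2 * n)} (h : Pos i j i' j') :
    rot M i' j' = M i j := by
  have hex : ∃ q : Fin n × Fin n, Pos q.1 q.2 i' j' := ⟨(i, j), h⟩
  have h1 := hex.choose_spec.inj h
  simp only [rot, hex, dite_true]
  rw [h1.1, h1.2]

lemma rot_neg {n : ℕ} (M : Mosaic n) {i' j' : Fin (2 * n)}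
    (h : ¬ ∃ q : Fin n × Fin n, Pos q.1 q.2 i' j') : rot M i' j' = Tile.blank := by
  simp only [rot, h, dite_false]

lemma nonblank_rot {n : ℕ} (M : Mosaic n) : nonblank (rot M) = nonblank M := by
  unfold nonblank
  symm
  choose f g hfg using fun (q : Fin n × Fin n) => Pos.exists q.1 q.2
  apply Set.ncard_congr (fun q _ => (f q, g q))
  · intro q hq
    show rot M (f q) (g q) ≠ Tile.blank
    rw [rot_pos M (hfg q)]
    exact hq
  · intro q r _ _ h
    simp only [Prod.mk.injEq] at h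
    have h1 := hfg q
    have h2 := hfg r
    rw [← h.1, ← h.2] at h2
    have := h1.inj h2
    exact Prod.ext this.1 this.2
  · intro q hq
    by_cases h : ∃ r : Fin n × Fin n, Pos r.1 r.2 q.1 q.2
    · obtain ⟨r, hr⟩ := h
      refine ⟨r, ?_, ?_⟩
      · show M r.1 r.2 ≠ Tile.blank
        rw [← rot_pos M hr]
        exact hq
      · have := (hfg r).fun hr
        exact Prod.ext this.1 this.2
    · exact absurd (rot_neg M h) hq

lemma curve_rot {n : ℕ} (M : Mosaic n) : curve cornerPt (rot M) =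
    (fun x : R3 => (x.1 - x.2.1 + ((n : ℝ) - 1/2), x.1 + x.2.1 + (-1/2), x.2.2)) ''
      curve tradPt M := by
  ext x
  simp only [curve, mem_iUnion, mem_image]
  constructor
  · rintro ⟨i', j', y, hy, rfl⟩
    by_cases h : ∃ r : Fin n × Fin n, Pos r.1 r.2 i' j'
    · obtain ⟨⟨i, j⟩, hr⟩ := h
      rw [rot_pos M hr, ← lin_tile] at hy
      obtain ⟨z, hz, rfl⟩ := hy
      refine ⟨_, ⟨i, j, z, hz, rfl⟩, ?_⟩
      obtain ⟨h1, h2⟩ := hr
      simp only at h1 h2
      have h1' : ((i' : ℕ) : ℝ) + 1 + ((j : ℕ) : ℝ) = ((i : ℕ) : ℝ) + n := by exact_mod_cast h1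
      have h2' : ((j' : ℕ) : ℝ) = ((i : ℕ) : ℝ) + ((j : ℕ) : ℝ) := by exact_mod_cast h2
      simp only [lin, Prod.mk.injEq]
      refine ⟨by linarith, by linarith, trivial⟩
    · rw [rot_neg M h] at hy
      exact absurd hy (by simp [Tile.curve])
  · rintro ⟨y, ⟨i, j, z, hz, rfl⟩, rfl⟩
    obtain ⟨i', j', hr⟩ := Pos.exists i j
    refine ⟨i', j', lin z, ?_, ?_⟩
    · rw [rot_pos M hr, ← lin_tile]
      exact ⟨z, hz, rfl⟩
    · obtain ⟨h1, h2⟩ := hr
      have h1' : ((i' : ℕ) : ℝ) + 1 + ((j : ℕ) : ℝ) = ((i : ℕ) : ℝ) + n := by exact_mod_cast h1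
      have h2' : ((j' : ℕ) : ℝ) = ((i : ℕ) : ℝ) + ((j : ℕ) : ℝ) := by exact_mod_cast h2
      simp only [lin, Prod.mk.injEq]
      refine ⟨by linarith, by linarith, trivial⟩

lemma rot_connected {n : ℕ} {M : Mosaic n} (hM : TradConnected M) : CornerConnected (rot M) := by
  intro a b
  by_cases hemp : endsAt (rot M) a b = ∅
  · left; rw [hemp]; exact Set.ncard_empty _
  right
  obtain ⟨⟨i', j', k⟩, hq⟩ := Set.nonempty_iff_ne_empty.2 hemp
  obtain ⟨hk, ha, hb⟩ := hq
  simp only at hk ha hb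
  by_cases h : ∃ r : Fin n × Fin n, Pos r.1 r.2 i' j'
  swap
  · rw [rot_neg M h] at hk
    simp [Tile.ends] at hk
  obtain ⟨⟨i, j⟩, hr⟩ := h
  simp only at hr
  rw [rot_pos M hr] at hk
  obtain ⟨i2, j2, h1, h2, h3⟩ := hM i j k hk
  obtain ⟨i2', j2', hr2⟩ := Pos.exists i2 j2
  rw [Set.ncard_eq_two]
  refine ⟨(i', j', k), (i2', j2', k + 2), ?_, ?_⟩
  · intro h
    simp only [Prod.mk.injEq] at h
    have := h.2.2
    revert this
    fin_cases k <;> simp
  · ext ⟨x, y, l⟩
    simp only [endsAt, Set.mem_ofPred_eq, Set.mem_insert_iff, Set.mem_singleton_iff,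
      Prod.mk.injEq]
    constructor
    · rintro ⟨hl, hxa, hyb⟩
      by_cases h : ∃ r : Fin n × Fin n, Pos r.1 r.2 x y
      swap
      · rw [rot_neg M h] at hl
        simp [Tile.ends] at hl
      obtain ⟨⟨r, s⟩, hrs⟩ := h
      simp only [Pos] at hrs hr hr2
      fin_cases k <;> fin_cases l <;> simp [cor, dir] at * <;> omega
    · rintro (⟨rfl, rfl, rfl⟩ | ⟨rfl, rfl, rfl⟩)
      · refine ⟨?_, ha, hb⟩
        rw [rot_pos M hr]; exact hk
      · refine ⟨?_, ?_⟩
        · rw [rot_pos M hr2]; exact h3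
        · simp only [Pos] at hr hr2
          fin_cases k <;> simp [cor, dir] at * <;> omega

/-- the isotopy from the identity to the rotation -/
noncomputable def iso (a b t : ℝ) : R3 ≃ₜ R3 where
  toFun x := (x.1 - t * x.2.1 + t * a, t * x.1 + x.2.1 + t * b, x.2.2)
  invFun x := (((x.1 - t * a) + t * (x.2.1 - t * b)) / (1 + t ^ 2),
    ((x.2.1 - t * b) - t * (x.1 - t * a)) / (1 + t ^ 2), x.2.2)
  left_inv x := by
    have : (1 + t ^ 2) ≠ 0 := by positivity
    ext <;> simp <;> field_simp <;> ring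
  right_inv x := by
    have : (1 + t ^ 2) ≠ 0 := by positivity
    ext <;> simp <;> field_simp <;> ring
  continuous_toFun := by fun_prop
  continuous_invFun := by
    have : ∀ _ : R3, (1 + t ^ 2) ≠ 0 := fun _ => by positivity
    fun_prop (disch := assumption)

lemma isotopic_image {A K : Set R3} (a b : ℝ) (h : AmbientIsotopic A K) :
    AmbientIsotopic ((fun x : R3 => (x.1 - x.2.1 + a, x.1 + x.2.1 + b, x.2.2)) '' A) K := by
  obtain ⟨H, hc, h0, h1⟩ := h
  refine ⟨fun t => (iso a b t).symm.trans (H t), ?_, ?_, ?_⟩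
  · have hcont : Continuous (fun q : unitInterval × R3 => (iso a b q.1).symm q.2) := by
      have hpos : ∀ q : unitInterval × R3, (1 + (q.1 : ℝ) ^ 2) ≠ 0 := fun q => by positivity
      change Continuous (fun q : unitInterval × R3 =>
        (((q.2.1 - (q.1 : ℝ) * a) + (q.1 : ℝ) * (q.2.2.1 - (q.1 : ℝ) * b)) / (1 + (q.1 : ℝ) ^ 2),
          ((q.2.2.1 - (q.1 : ℝ) * b) - (q.1 : ℝ) * (q.2.1 - (q.1 : ℝ) * a)) / (1 + (q.1 : ℝ) ^ 2),
          q.2.2.2))
      fun_prop (disch := assumption)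
    exact hc.comp (continuous_fst.prodMk hcont)
  · intro x
    simp only [Homeomorph.trans_apply, h0]
    simp [iso]
  · rw [← h1]
    ext y
    simp only [mem_image]
    constructor
    · rintro ⟨z, ⟨x, hx, rfl⟩, rfl⟩
      refine ⟨x, hx, ?_⟩
      simp only [Homeomorph.trans_apply]
      congr 1
      rw [Homeomorph.eq_symm_apply]
      simp [iso]
    · rintro ⟨x, hx, rfl⟩
      refine ⟨_, ⟨x, hx, rfl⟩, ?_⟩
      simp only [Homeomorph.trans_apply]
      congr 1
      rw [Homeomorph.symm_apply_eq]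
      simp [iso]

theorem cornerTileNumber_le : ∀ K : Set R3, IsKnot K → cornerTileNumber K ≤ tradTileNumber K := by
  intro K _
  unfold tradTileNumber
  refine le_iInf fun n => le_iInf fun M => le_iInf fun hM => ?_
  unfold cornerTileNumber
  refine (iInf_le _ (2 * n)).trans ((iInf_le _ (rot M)).trans ?_)
  refine (iInf_le _ ?_).trans ?_
  · refine ⟨rot_connected hM.1, ?_⟩
    rw [curve_rot]
    exact isotopic_image _ _ hM.2
  · rw [nonblank_rot]


end Pool.Agent.Lib_helper37.Mosaic
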