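import Mathlib

set_option autoImplicit false

open Cardinal Set

namespace Pool.Agent.Lib_helper37

section

variable {X : Type} [NormedAddCommGroup X] [NormedSpace ℝ X]

/-- value of a rational combination -/
noncomputable def qval (a : X →₀ ℚ) : X := a.sum (fun m q => (q : ℝ) • m)

lemma qval_zero : qval (0 : X →₀ ℚ) = 0 := by simp [qval]

lemma qval_single (m : X) (q : ℚ) : qval (Finsupp.single m q) = (q : ℝ) • m := by
  simp [qval]

lemma qval_add (a b : X →₀ ℚ) : qval (a + b) = qval a + qval b := by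
  classical
  unfold qval
  rw [Finsupp.sum_add_index']
  · intro m; simp
  · intro m q r; push_cast; rw [add_smul]

lemma qval_smul (q : ℚ) (a : X →₀ ℚ) : qval (q • a) = (q : ℝ) • qval a := by
  classical
  unfold qval
  rw [Finsupp.sum_smul_index' (by intro i; simp), Finsupp.smul_sum]
  apply Finsupp.sum_congr
  intro m _
  rw [smul_smul]
  simp

/-- A subset `E` of `M` closed under adding supports of the chosen functionals. -/
def Closed (M : Set X) (F : X → X →L[ℝ] ℝ) (E : Set X) : Prop :=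
  E ⊆ M ∧ ∀ a : X →₀ ℚ, (a.support : Set X) ⊆ E → {m ∈ M | F (qval a) m ≠ 0} ⊆ E

variable {M : Set X} {F : X → X →L[ℝ] ℝ}

lemma closed_self : Closed M F M := ⟨subset_rfl, fun _ _ _ hm => hm.1⟩

lemma Closed.inter {E E' : Set X} (h : Closed M F E) (h' : Closed M F E') : Closed M F (E ∩ E') :=
  ⟨inter_subset_left.trans h.1, fun a ha =>
    subset_inter (h.2 a (ha.trans inter_subset_left)) (h'.2 a (ha.trans inter_subset_right))⟩

/-- closure -/
def cl (M : Set X) (F : X → X →L[ℝ] ℝ) (S : Set X) : Set X :=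
  ⋂₀ {E | Closed M F E ∧ S ⊆ E}

lemma cl_closed {S : Set X} (hS : S ⊆ M) : Closed M F (cl M F S) := by
  refine ⟨fun x hx => hx M ⟨closed_self, hS⟩, fun a ha m hm E hE => ?_⟩
  exact hE.1.2 a (fun y hy => ha hy E hE) hm

lemma subset_cl {S : Set X} : S ⊆ cl M F S := fun _ hx _ hE => hE.2 hx

lemma cl_min {S E : Set X} (hE : Closed M F E) (h : S ⊆ E) : cl M F S ⊆ E :=
  fun _ hx => hx E ⟨hE, h⟩

/-- one closing-off step -/
def step (M : Set X) (F : X → X →L[ℝ] ℝ) (S : Set X) : Set X :=
  S ∪ ⋃ a : (S →₀ ℚ), {m ∈ M | F (qval (a.mapDomain Subtype.val)) m ≠ 0}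

lemma mk_step_le {S : Set X} {κ : Cardinal.{0}} (hκ : ℵ₀ ≤ κ) (hS : #S ≤ κ)
    (hF : ∀ x, Set.Countable {m ∈ M | F x m ≠ 0}) : #(step M F S) ≤ κ := by
  have h1 : #(S →₀ ℚ) ≤ κ := by
    rcases isEmpty_or_nonempty S with h | h
    · have : Subsingleton (S →₀ ℚ) := inferInstance
      exact (Cardinal.le_one_iff_subsingleton.2 this).trans (Cardinal.one_le_aleph0.trans hκ)
    · rw [Cardinal.mk_finsupp_of_infinite' S ℚ]
      simp only [Cardinal.lift_id, max_le_iff]
      exact ⟨hS, by simpa using hκ⟩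
  have h2 : #(⋃ a : (S →₀ ℚ), {m ∈ M | F (qval (a.mapDomain Subtype.val)) m ≠ 0} : Set X) ≤ κ := by
    refine (Cardinal.mk_iUnion_le _).trans ?_
    calc #(S →₀ ℚ) * ⨆ a : (S →₀ ℚ), #{m | m ∈ M ∧ F (qval (a.mapDomain Subtype.val)) m ≠ 0}
        ≤ κ * ℵ₀ := by
          gcongr
          apply ciSup_le'
          intro a
          exact (Cardinal.le_aleph0_iff_set_countable).2 (hF _)
      _ ≤ κ := by rw [Cardinal.mul_aleph0_eq hκ]
  unfold step
  refine (Cardinal.mk_union_le _ _).trans ?_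
  calc _ ≤ κ + κ := add_le_add hS h2
    _ = κ := Cardinal.add_eq_self hκ

lemma step_subset {S : Set X} (hS : S ⊆ M) : step M F S ⊆ M := by
  intro x hx
  rcases hx with hx | hx
  · exact hS hx
  · obtain ⟨_, ⟨a, rfl⟩, hx⟩ := hx
    exact hx.1

lemma exists_closed {S : Set X} (hSM : S ⊆ M) {κ : Cardinal.{0}} (hκ : ℵ₀ ≤ κ) (hS : #S ≤ κ)
    (hF : ∀ x, Set.Countable {m ∈ M | F x m ≠ 0}) :
    ∃ E, Closed M F E ∧ S ⊆ E ∧ #E ≤ κ := by
  classical
  let it : ℕ → Set X := fun n => (step M F)^[n] S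
  have it_succ : ∀ n, it (n+1) = step M F (it n) := fun n => Function.iterate_succ_apply' _ _ _
  have it_card : ∀ n, #(it n) ≤ κ := by
    intro n
    induction n with
    | zero => exact hS
    | succ n ih => rw [it_succ]; exact mk_step_le hκ ih hF
  have it_sub : ∀ n, it n ⊆ M := by
    intro n
    induction n with
    | zero => exact hSM
    | succ n ih => rw [it_succ]; exact step_subset ih
  have it_mono : Monotone it := by
    apply monotone_nat_of_le_succ
    intro n
    rw [it_succ]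
    exact subset_union_left
  refine ⟨⋃ n, it n, ⟨?_, ?_⟩, ?_, ?_⟩
  · exact iUnion_subset it_sub
  · intro a ha
    have h1 : ∃ n, (a.support : Set X) ⊆ it n := by
      have hfin : (a.support : Set X).Finite := a.support.finite_toSet
      have hdir : Directed (· ⊆ ·) it := it_mono.directed_le
      exact hdir.exists_mem_subset_of_finset_subset_biUnion ha |>.imp fun _ h => h
    obtain ⟨n, hn⟩ := h1
    intro m hm
    refine mem_iUnion.2 ⟨n+1, ?_⟩
    rw [it_succ]
    right
    refine mem_iUnion.2 ⟨a.subtypeDomain (· ∈ it n), ?_⟩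
    have : (a.subtypeDomain (· ∈ it n)).mapDomain Subtype.val = a := by
      have h2 := Finsupp.extendDomain_subtypeDomain (P := (· ∈ it n)) a (fun x hx => hn hx)
      rw [Finsupp.extendDomain_eq_embDomain_subtype, Finsupp.embDomain_eq_mapDomain] at h2
      exact h2
    rw [this]
    exact hm
  · exact fun x hx => mem_iUnion.2 ⟨0, hx⟩
  · refine (Cardinal.mk_iUnion_le _).trans ?_
    calc #ℕ * ⨆ n, #(it n) ≤ ℵ₀ * κ := by
          gcongr
          · simp
          · exact ciSup_le' it_card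
      _ = κ := Cardinal.aleph0_mul_eq hκ

end

end Pool.Agent.Lib_helper37
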