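import Pool.Agent.Lib_helper37.Plichko1

set_option autoImplicit false

open Cardinal Set

namespace Pool.Agent.Lib_helper37

section

variable {X : Type} [NormedAddCommGroup X] [NormedSpace ℝ X]
variable {M : Set X} {F : X → X →L[ℝ] ℝ}

/-- rational combinations supported in `E` -/
def QS (E : Set X) : Set X := {x | ∃ a : X →₀ ℚ, (a.support : Set X) ⊆ E ∧ qval a = x}

lemma QS_add {E : Set X} {x y : X} (hx : x ∈ QS E) (hy : y ∈ QS E) : x + y ∈ QS E := by
  classical
  obtain ⟨a, ha, rfl⟩ := hx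
  obtain ⟨b, hb, rfl⟩ := hy
  refine ⟨a + b, ?_, qval_add a b⟩
  intro z hz
  have := Finsupp.support_add hz
  rcases Finset.mem_union.1 this with h | h
  · exact ha h
  · exact hb h

lemma QS_smul {E : Set X} (q : ℚ) {x : X} (hx : x ∈ QS E) : (q : ℝ) • x ∈ QS E := by
  obtain ⟨a, ha, rfl⟩ := hx
  exact ⟨q • a, fun z hz => ha (Finsupp.support_smul hz), qval_smul q a⟩

lemma mem_QS {E : Set X} {x : X} (hx : x ∈ E) : x ∈ QS E := by
  classical
  refine ⟨Finsupp.single x 1, ?_, by simp [qval_single]⟩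
  intro z hz
  have := Finsupp.support_single_subset hz
  simp at this
  subst this
  exact hx

lemma zero_mem_QS {E : Set X} : (0 : X) ∈ QS E := ⟨0, by simp, qval_zero⟩

lemma span_subset_closure_QS (E : Set X) :
    ((Submodule.span ℝ E : Submodule ℝ X) : Set X) ⊆ closure (QS E) := by
  intro x hx
  induction hx using Submodule.span_induction with
  | mem x hx => exact subset_closure (mem_QS hx)
  | zero => exact subset_closure zero_mem_QS
  | add x y _ _ hx hy =>
    exact map_mem_closure₂ continuous_add hx hy (fun a ha b hb => QS_add ha hb)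
  | smul r x _ hx =>
    have hr : r ∈ closure (Set.range ((↑) : ℚ → ℝ)) := Rat.denseRange_cast r
    refine map_mem_closure₂ continuous_smul hr hx ?_
    rintro _ ⟨q, rfl⟩ b hb
    exact QS_smul q hb

lemma QS_subset_span (E : Set X) : QS E ⊆ ((Submodule.span ℝ E : Submodule ℝ X) : Set X) := by
  rintro x ⟨a, ha, rfl⟩
  unfold qval
  apply Submodule.sum_mem
  intro m hm
  exact Submodule.smul_mem _ _ (Submodule.subset_span (ha hm))

lemma mk_QS_le {E : Set X} {κ : Cardinal.{0}} (hκ : ℵ₀ ≤ κ) (hE : #E ≤ κ) : #(QS E) ≤ κ := by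
  classical
  have h1 : #(E →₀ ℚ) ≤ κ := by
    rcases isEmpty_or_nonempty E with h | h
    · have : Subsingleton (E →₀ ℚ) := inferInstance
      exact (Cardinal.le_one_iff_subsingleton.2 this).trans (Cardinal.one_le_aleph0.trans hκ)
    · rw [Cardinal.mk_finsupp_of_infinite' E ℚ]
      simp only [max_le_iff]
      exact ⟨hE, by simpa using hκ⟩
  have h2 : QS E ⊆ Set.range (fun a : E →₀ ℚ => qval (a.mapDomain Subtype.val)) := by
    rintro x ⟨a, ha, rfl⟩
    refine ⟨a.subtypeDomain (· ∈ E), ?_⟩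
    have : (a.subtypeDomain (· ∈ E)).mapDomain Subtype.val = a := by
      have h2 := Finsupp.extendDomain_subtypeDomain (P := (· ∈ E)) a (fun x hx => ha hx)
      rw [Finsupp.extendDomain_eq_embDomain_subtype, Finsupp.embDomain_eq_mapDomain] at h2
      exact h2
    simp only [this]
  exact (Cardinal.mk_le_mk_of_subset h2).trans (Cardinal.mk_range_le.trans h1)

variable (hFc : ∀ x, Set.Countable {m ∈ M | F x m ≠ 0}) (hF1 : ∀ x, ‖F x‖ ≤ 1)
  {c : ℝ} (hc : 0 < c) (hFn : ∀ x, c * ‖x‖ ≤ |F x x|)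

include hF1 hc hFn

omit hc in
lemma norm_est_QS {E : Set X} (hE : Closed M F E) {x : X} (hx : x ∈ QS E) {y : X}
    (hy : y ∈ Submodule.span ℝ (M \ E)) : c * ‖x‖ ≤ ‖x + y‖ := by
  obtain ⟨a, ha, rfl⟩ := hx
  have h0 : F (qval a) y = 0 := by
    induction hy using Submodule.span_induction with
    | mem m hm =>
      by_contra h
      exact hm.2 (hE.2 a ha ⟨hm.1, h⟩)
    | zero => simp
    | add x y _ _ hx hy => simp [hx, hy]
    | smul r x _ hx => simp [hx]
  calc c * ‖qval a‖ ≤ |F (qval a) (qval a)| := hFn _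
    _ = |F (qval a) (qval a + y)| := by simp [h0]
    _ ≤ ‖F (qval a)‖ * ‖qval a + y‖ := by
        rw [← Real.norm_eq_abs]; exact ContinuousLinearMap.le_opNorm _ _
    _ ≤ 1 * ‖qval a + y‖ := by gcongr; exact hF1 _
    _ = _ := one_mul _

omit hc in
lemma norm_est {E : Set X} (hE : Closed M F E) {x : X} (hx : x ∈ Submodule.span ℝ E) {y : X}
    (hy : y ∈ Submodule.span ℝ (M \ E)) : c * ‖x‖ ≤ ‖x + y‖ := by
  have hcl : x ∈ closure (QS E) := span_subset_closure_QS E hx
  have hclosed : IsClosed {x : X | c * ‖x‖ ≤ ‖x + y‖} := by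
    apply isClosed_le <;> fun_prop
  exact hclosed.closure_subset_iff.2 (fun x hx => norm_est_QS hF1 hFn hE hx hy) hcl

theorem exists_proj [CompleteSpace X] (hM : Dense ((Submodule.span ℝ M : Submodule ℝ X) : Set X))
    {E : Set X} (hE : Closed M F E) :
    ∃ P : X →L[ℝ] X, (∀ m ∈ E, P m = m) ∧ (∀ m ∈ M, m ∉ E → P m = 0) ∧
      ∀ x, ‖P x‖ ≤ c⁻¹ * ‖x‖ := by
  let A := Submodule.span ℝ E
  let B := Submodule.span ℝ (M \ E)
  let f : (A × B) →ₗ[ℝ] X := A.subtype ∘ₗ LinearMap.fst ℝ A B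
  let e : (A × B) →ₗ[ℝ] X := LinearMap.coprod A.subtype B.subtype
  have he : ∀ z : A × B, e z = (z.1 : X) + (z.2 : X) := fun z => by simp [e]
  have hf : ∀ z : A × B, f z = (z.1 : X) := fun z => by simp [f]
  have hnorm : ∀ z : A × B, ‖f z‖ ≤ c⁻¹ * ‖e z‖ := by
    intro z
    rw [he, hf, ← div_eq_inv_mul, le_div_iff₀ hc, mul_comm]
    exact norm_est hF1 hFn hE z.1.2 z.2.2
  have hmem : ∀ m ∈ M, m ∈ LinearMap.range e := by
    intro m hm
    by_cases h : m ∈ E
    · exact ⟨(⟨m, Submodule.subset_span h⟩, 0), by simp [he]⟩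
    · exact ⟨(0, ⟨m, Submodule.subset_span ⟨hm, h⟩⟩), by simp [he]⟩
  have hdense : DenseRange e := by
    have : ((Submodule.span ℝ M : Submodule ℝ X) : Set X) ⊆ Set.range e := by
      have h1 : Submodule.span ℝ M ≤ LinearMap.range e := Submodule.span_le.2 hmem
      intro x hx
      exact h1 hx
    exact hM.mono this
  refine ⟨f.extendOfNorm e, ?_, ?_, ?_⟩
  · intro m hm
    have := LinearMap.extendOfNorm_eq hdense ⟨c⁻¹, hnorm⟩
      ((⟨m, Submodule.subset_span hm⟩, 0) : A × B)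
    simpa [he, hf] using this
  · intro m hm hmE
    have := LinearMap.extendOfNorm_eq hdense ⟨c⁻¹, hnorm⟩
      ((0, ⟨m, Submodule.subset_span ⟨hm, hmE⟩⟩) : A × B)
    simpa [he, hf] using this
  · intro x
    exact LinearMap.norm_extendOfNorm_apply_le hdense _ hnorm x

end

end Pool.Agent.Lib_helper37
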