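import Mathlib

/-! Tools on the complex space of absolutely summable families. -/

open scoped ENNReal

namespace Pool.Agent.Lib_helper37.TwoNorms

noncomputable abbrev L1 (ι : Type) := lp (fun _ : ι => ℂ) 1

open Classical in
/-- The standard unit vector. -/
noncomputable def dl {ι : Type} (i : ι) : L1 ι := lp.single 1 i (1 : ℂ)

lemma summable_norm {ι : Type} (x : L1 ι) : Summable fun i => ‖x i‖ := by
  have := (lp.memℓp x).summable (by simp)
  simpa using this

lemma norm_eq_tsum {ι : Type} (x : L1 ι) : ‖x‖ = ∑' i, ‖x i‖ := by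
  have := lp.norm_eq_tsum_rpow (p := 1) (by simp) x
  simpa using this

lemma norm_coord_le {ι : Type} (x : L1 ι) (i : ι) : ‖x i‖ ≤ ‖x‖ :=
  lp.norm_apply_le_norm (by simp) x i

lemma norm_dl {ι : Type} (i : ι) : ‖dl i‖ = 1 := by
  classical
  unfold dl
  rw [lp.norm_single (by simp)]
  simp

open Classical in
lemma dl_apply {ι : Type} (i j : ι) : dl i j = if j = i then 1 else 0 := by
  unfold dl
  by_cases h : j = i
  · subst h; simp
  · simp [h]

@[simp] lemma dl_self {ι : Type} (i : ι) : dl i i = 1 := by simp [dl_apply]

lemma hasSum_dl {ι : Type} (x : L1 ι) : HasSum (fun i => x i • dl i) x := by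
  classical
  have := lp.hasSum_single (p := 1) (by simp) x
  convert this using 2 with i
  unfold dl
  rw [← lp.single_smul]
  simp

/-- The coordinate functional. -/
noncomputable def ev {ι : Type} (i : ι) : L1 ι →L[ℂ] ℂ := lp.evalCLM ℂ (fun _ : ι => ℂ) 1 i

@[simp] lemma ev_apply {ι : Type} (i : ι) (x : L1 ι) : ev i x = x i := rfl

section lift

variable {J : Type} {X : Type} [NormedAddCommGroup X] [NormedSpace ℂ X] [CompleteSpace X]

lemma summable_lift (M : J → X) (C : ℝ) (hM : ∀ j, ‖M j‖ ≤ C) (x : L1 J) :
    Summable fun j => x j • M j := by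
  refine Summable.of_norm_bounded ((summable_norm x).mul_right C) fun j => ?_
  rw [norm_smul]
  exact mul_le_mul_of_nonneg_left (hM j) (norm_nonneg _)

/-- The continuous linear map out of `L1 J` with prescribed bounded values on the unit vectors. -/
noncomputable def lift (M : J → X) (C : ℝ) (hM : ∀ j, ‖M j‖ ≤ C) : L1 J →L[ℂ] X :=
  LinearMap.mkContinuous
    { toFun := fun x => ∑' j, x j • M j
      map_add' := fun x y => by
        rw [← Summable.tsum_add (summable_lift M C hM x) (summable_lift M C hM y)]
        congr 1; ext j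
        rw [lp.coeFn_add, Pi.add_apply, add_smul]
      map_smul' := fun c x => by
        rw [RingHom.id_apply, ← (summable_lift M C hM x).tsum_const_smul]
        congr 1; ext j
        rw [lp.coeFn_smul, Pi.smul_apply, smul_eq_mul, mul_smul] } C
    (fun x => by
      change ‖∑' j, x j • M j‖ ≤ C * ‖x‖
      have h1 : Summable fun j => ‖x j • M j‖ := by
        refine Summable.of_nonneg_of_le (fun _ => norm_nonneg _) (fun j => ?_)
          ((summable_norm x).mul_right C)
        rw [norm_smul]
        exact mul_le_mul_of_nonneg_left (hM j) (norm_nonneg _)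
      refine (norm_tsum_le_tsum_norm h1).trans ?_
      rw [norm_eq_tsum, mul_comm, ← tsum_mul_right]
      refine h1.tsum_le_tsum (fun j => ?_) ((summable_norm x).mul_right C)
      rw [norm_smul]
      exact mul_le_mul_of_nonneg_left (hM j) (norm_nonneg _))

lemma lift_apply (M : J → X) (C : ℝ) (hM : ∀ j, ‖M j‖ ≤ C) (x : L1 J) :
    lift M C hM x = ∑' j, x j • M j := rfl

lemma hasSum_lift (M : J → X) (C : ℝ) (hM : ∀ j, ‖M j‖ ≤ C) (x : L1 J) :
    HasSum (fun j => x j • M j) (lift M C hM x) :=
  (summable_lift M C hM x).hasSum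

@[simp] lemma lift_dl (M : J → X) (C : ℝ) (hM : ∀ j, ‖M j‖ ≤ C) (j : J) :
    lift M C hM (dl j) = M j := by
  rw [lift_apply, tsum_eq_single j]
  · simp
  · intro k hk
    rw [dl_apply, if_neg hk, zero_smul]

end lift

lemma clm_ext {J X : Type} [NormedAddCommGroup X] [NormedSpace ℂ X]
    {f g : L1 J →L[ℂ] X} (h : ∀ j, f (dl j) = g (dl j)) : f = g := by
  ext x
  have h1 := (hasSum_dl x).mapL f
  have h2 := (hasSum_dl x).mapL g
  refine h1.unique ?_
  convert h2 using 2 with j
  rw [map_smul, map_smul, h]

/-- Push forward along a map. -/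
noncomputable def push {α β : Type} (j : α → β) : L1 α →L[ℂ] L1 β :=
  lift (fun a => dl (j a)) 1 (fun _ => (norm_dl _).le)

@[simp] lemma push_dl {α β : Type} (j : α → β) (a : α) : push j (dl a) = dl (j a) := by
  simp [push]

open Classical in
/-- Pull back along an injective map. -/
noncomputable def pull {α β : Type} (j : α → β) (hj : Function.Injective j) :
    L1 β →L[ℂ] L1 α :=
  LinearMap.mkContinuous
    { toFun := fun x => ⟨fun a => x (j a), by
        apply memℓp_gen
        have := (summable_norm x).comp_injective hj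
        simpa [Function.comp_def] using this⟩
      map_add' := fun x y => by ext a; rfl
      map_smul' := fun c x => by ext a; rfl } 1
    (fun x => by
      rw [one_mul, norm_eq_tsum, norm_eq_tsum]
      exact tsum_comp_le_tsum_of_inj (summable_norm x) (fun _ => norm_nonneg _) hj)

@[simp] lemma pull_apply {α β : Type} (j : α → β) (hj : Function.Injective j) (x : L1 β) (a : α) :
    pull j hj x a = x (j a) := rfl

lemma push_apply {α β : Type} (j : α → β) (hj : Function.Injective j) (x : L1 α) (a : α) :
    push j x (j a) = x a := by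
  have : (ev (j a)).comp (push j) = ev a := by
    apply clm_ext
    intro b
    simp only [ContinuousLinearMap.comp_apply, push_dl, ev_apply, dl_apply]
    by_cases h : a = b
    · simp [h]
    · simp [h, hj.ne h]
  exact DFunLike.congr_fun this x

lemma push_apply_of_notMem {α β : Type} (j : α → β) (x : L1 α) (b : β)
    (hb : b ∉ Set.range j) : push j x b = 0 := by
  have : (ev b).comp (push j) = 0 := by
    apply clm_ext
    intro a
    simp only [ContinuousLinearMap.comp_apply, push_dl, ev_apply, dl_apply]
    rw [if_neg]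
    · simp
    · rintro rfl; exact hb ⟨a, rfl⟩
  exact DFunLike.congr_fun this x

open Classical in
/-- Coordinate projection. -/
noncomputable def pr {J : Type} (S : Set J) : L1 J →L[ℂ] L1 J :=
  lift (fun j => if j ∈ S then dl j else 0) 1 (fun j => by
    by_cases h : j ∈ S <;> simp [h, norm_dl])

open Classical in
lemma pr_dl {J : Type} (S : Set J) (j : J) : pr S (dl j) = if j ∈ S then dl j else 0 := by
  simp [pr]

open Classical in
lemma pr_apply {J : Type} (S : Set J) (x : L1 J) (j : J) :
    pr S x j = if j ∈ S then x j else 0 := by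
  by_cases hj : j ∈ S
  · have : (ev j).comp (pr S) = ev j := by
      apply clm_ext
      intro b
      simp only [ContinuousLinearMap.comp_apply, pr_dl, ev_apply]
      by_cases hb : b ∈ S
      · simp [hb]
      · simp only [hb, if_false, dl_apply]
        rw [if_neg]
        · rfl
        · rintro rfl; exact hb hj
    rw [if_pos hj]
    exact DFunLike.congr_fun this x
  · have : (ev j).comp (pr S) = 0 := by
      apply clm_ext
      intro b
      simp only [ContinuousLinearMap.comp_apply, pr_dl, ev_apply]
      by_cases hb : b ∈ S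
      · simp only [hb, if_true, dl_apply]
        rw [if_neg]
        · simp
        · rintro rfl; exact hj hb
      · simp [hb]
    rw [if_neg hj]
    exact DFunLike.congr_fun this x

lemma norm_pr_le {J : Type} (S : Set J) (x : L1 J) : ‖pr S x‖ ≤ ‖x‖ := by
  rw [norm_eq_tsum, norm_eq_tsum]
  refine (summable_norm _).tsum_le_tsum (fun j => ?_) (summable_norm _)
  rw [pr_apply]
  by_cases hj : j ∈ S <;> simp [hj]

lemma norm_push_le {α β : Type} (j : α → β) (x : L1 α) : ‖push j x‖ ≤ ‖x‖ := by
  have := (lift (fun a => dl (j a)) 1 (fun a => (norm_dl _).le)).le_of_opNorm_le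
    (LinearMap.mkContinuous_norm_le _ zero_le_one _) x
  simpa [push] using this

lemma norm_pull_le {α β : Type} (j : α → β) (hj : Function.Injective j) (x : L1 β) :
    ‖pull j hj x‖ ≤ ‖x‖ := by
  rw [norm_eq_tsum, norm_eq_tsum]
  exact tsum_comp_le_tsum_of_inj (summable_norm x) (fun _ => norm_nonneg _) hj

lemma pull_push {α β : Type} (j : α → β) (hj : Function.Injective j) (x : L1 α) :
    pull j hj (push j x) = x := by
  ext a
  rw [pull_apply, push_apply j hj]

lemma push_pull {α β : Type} (j : α → β) (hj : Function.Injective j) (x : L1 β)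
    (hx : ∀ b, b ∉ Set.range j → x b = 0) : push j (pull j hj x) = x := by
  ext b
  by_cases hb : b ∈ Set.range j
  · obtain ⟨a, rfl⟩ := hb
    rw [push_apply j hj, pull_apply]
  · rw [push_apply_of_notMem j _ b hb, hx b hb]

/-- The tensor of two summable families. -/
noncomputable def ten {α β : Type} (x : L1 α) (y : L1 β) : L1 (α × β) :=
  ⟨fun p => x p.1 * y p.2, by
    apply memℓp_gen
    have := (summable_norm x).mul_of_nonneg (summable_norm y) (fun _ => norm_nonneg _)
      (fun _ => norm_nonneg _)
    simpa using this⟩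

@[simp] lemma ten_apply {α β : Type} (x : L1 α) (y : L1 β) (a : α) (b : β) :
    ten x y (a, b) = x a * y b := rfl

lemma ten_apply' {α β : Type} (x : L1 α) (y : L1 β) (p : α × β) :
    ten x y p = x p.1 * y p.2 := rfl

lemma norm_ten {α β : Type} (x : L1 α) (y : L1 β) : ‖ten x y‖ = ‖x‖ * ‖y‖ := by
  rw [norm_eq_tsum, norm_eq_tsum, norm_eq_tsum]
  rw [(summable_norm x).tsum_mul_tsum (summable_norm y)
    ((summable_norm x).mul_of_nonneg (summable_norm y) (fun _ => norm_nonneg _)
      (fun _ => norm_nonneg _))]
  congr 1; ext p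
  rw [ten_apply', norm_mul]

/-- The tensor map as a continuous bilinear map. -/
noncomputable def tenL (α β : Type) : L1 α →L[ℂ] L1 β →L[ℂ] L1 (α × β) :=
  LinearMap.mkContinuous₂
    (LinearMap.mk₂ ℂ ten
      (fun x y z => by ext p; simp only [lp.coeFn_add, Pi.add_apply, ten_apply']; ring)
      (fun c x y => by
        ext p; simp only [lp.coeFn_smul, Pi.smul_apply, ten_apply', smul_eq_mul]; ring)
      (fun x y z => by ext p; simp only [lp.coeFn_add, Pi.add_apply, ten_apply']; ring)
      (fun c x y => by
        ext p; simp only [lp.coeFn_smul, Pi.smul_apply, ten_apply', smul_eq_mul]; ring)) 1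
    (fun x y => by
      rw [LinearMap.mk₂_apply, norm_ten, one_mul])

@[simp] lemma tenL_apply {α β : Type} (x : L1 α) (y : L1 β) : tenL α β x y = ten x y := rfl

lemma ten_dl {α β : Type} (a : α) (b : β) : ten (dl a) (dl b) = dl (a, b) := by
  classical
  ext ⟨p, q⟩
  rw [ten_apply, dl_apply, dl_apply, dl_apply]
  by_cases h1 : p = a <;> by_cases h2 : q = b <;> simp [h1, h2]

end Pool.Agent.Lib_helper37.TwoNorms
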