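import Pool.Agent.Lib_helper37.TwoNorms9

/-! Elements of the algebra and their products. -/

set_option linter.unusedSimpArgs false
set_option linter.unusedSectionVars false

namespace Pool.Agent.Lib_helper37.TwoNorms

section

variable {N M E : Type} [AddCommGroup N] [Module ℂ N] [AddCommGroup M] [Module ℂ M]
    [AddCommGroup E] [Module ℂ E] (β : Bil N M E)

def hI (i : Fin 3) : VV N M E := (Pi.single i 1, 0, 0, 0, 0, 0, 0, 0, 0, 0, 0, 0)
def eE : VV N M E := (0, 1, 0, 0, 0, 0, 0, 0, 0, 0, 0, 0)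
def lC : VV N M E := (0, 0, 0, 0, 0, 0, 1, 0, 0, 0, 0, 0)
def qC : VV N M E := (0, 0, 0, 0, 0, 0, 0, 0, 1, 0, 0, 0)
def sI (i : Fin 3) : VV N M E := (0, 0, 0, 0, Pi.single i 1, 0, 0, 0, 0, 0, 0, 0)

def iLQ : ((Fin 3 → E) × (Fin 3 → E)) →ₗ[ℂ] VV N M E where
  toFun x := (0, 0, x.1, x.2, 0, 0, 0, 0, 0, 0, 0, 0)
  map_add' x y := by apply VV_ext <;> (try intro i) <;> simp [ca, ce, cl, cq, cs, cln, clc, cqn, cqc, c00, c01, c10]
  map_smul' c x := by apply VV_ext <;> (try intro i) <;> simp [ca, ce, cl, cq, cs, cln, clc, cqn, cqc, c00, c01, c10]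

def iLn : N →ₗ[ℂ] VV N M E where
  toFun x := (0, 0, 0, 0, 0, x, 0, 0, 0, 0, 0, 0)
  map_add' x y := by apply VV_ext <;> (try intro i) <;> simp [ca, ce, cl, cq, cs, cln, clc, cqn, cqc, c00, c01, c10]
  map_smul' c x := by apply VV_ext <;> (try intro i) <;> simp [ca, ce, cl, cq, cs, cln, clc, cqn, cqc, c00, c01, c10]

def iQn : N →ₗ[ℂ] VV N M E where
  toFun x := (0, 0, 0, 0, 0, 0, 0, x, 0, 0, 0, 0)
  map_add' x y := by apply VV_ext <;> (try intro i) <;> simp [ca, ce, cl, cq, cs, cln, clc, cqn, cqc, c00, c01, c10]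
  map_smul' c x := by apply VV_ext <;> (try intro i) <;> simp [ca, ce, cl, cq, cs, cln, clc, cqn, cqc, c00, c01, c10]

def i00 : M →ₗ[ℂ] VV N M E where
  toFun x := (0, 0, 0, 0, 0, 0, 0, 0, 0, x, 0, 0)
  map_add' x y := by apply VV_ext <;> (try intro i) <;> simp [ca, ce, cl, cq, cs, cln, clc, cqn, cqc, c00, c01, c10]
  map_smul' c x := by apply VV_ext <;> (try intro i) <;> simp [ca, ce, cl, cq, cs, cln, clc, cqn, cqc, c00, c01, c10]

def i01 : N →ₗ[ℂ] VV N M E where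
  toFun x := (0, 0, 0, 0, 0, 0, 0, 0, 0, 0, x, 0)
  map_add' x y := by apply VV_ext <;> (try intro i) <;> simp [ca, ce, cl, cq, cs, cln, clc, cqn, cqc, c00, c01, c10]
  map_smul' c x := by apply VV_ext <;> (try intro i) <;> simp [ca, ce, cl, cq, cs, cln, clc, cqn, cqc, c00, c01, c10]

def i10 : N →ₗ[ℂ] VV N M E where
  toFun x := (0, 0, 0, 0, 0, 0, 0, 0, 0, 0, 0, x)
  map_add' x y := by apply VV_ext <;> (try intro i) <;> simp [ca, ce, cl, cq, cs, cln, clc, cqn, cqc, c00, c01, c10]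
  map_smul' c x := by apply VV_ext <;> (try intro i) <;> simp [ca, ce, cl, cq, cs, cln, clc, cqn, cqc, c00, c01, c10]

/-- The scalar part. -/
def iS : ((Fin 3 → ℂ) × ℂ × (Fin 3 → ℂ) × ℂ × ℂ) →ₗ[ℂ] VV N M E where
  toFun x := (x.1, x.2.1, 0, 0, x.2.2.1, 0, x.2.2.2.1, 0, x.2.2.2.2, 0, 0, 0)
  map_add' x y := by apply VV_ext <;> (try intro i) <;> simp [ca, ce, cl, cq, cs, cln, clc, cqn, cqc, c00, c01, c10]
  map_smul' c x := by apply VV_ext <;> (try intro i) <;> simp [ca, ce, cl, cq, cs, cln, clc, cqn, cqc, c00, c01, c10]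

def iL (i : Fin 3) (a : E) : VV N M E := iLQ (Pi.single i a, 0)
def iQ (i : Fin 3) (a : E) : VV N M E := iLQ (0, Pi.single i a)

lemma decomp (x : VV N M E) : x = iS (ca x, ce x, cs x, clc x, cqc x) + iLQ (cl x, cq x) +
    iLn (cln x) + iQn (cqn x) + i00 (c00 x) + i01 (c01 x) + i10 (c10 x) := by
  apply VV_ext <;> (try intro i) <;>
    simp [iS, iLQ, iLn, iQn, i00, i01, i10, ca, ce, cl, cq, cs, cln, clc, cqn, cqc, c00, c01, c10]

-- products
lemma mul_L0_Q1 (a b : E) : mulV β (iL 0 a) (iQ 1 b) = i01 (β.mn a b) := by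
  apply VV_ext <;> (try intro i; fin_cases i) <;>
    simp [mulV, iL, iQ, iLQ, i01, ca, ce, cl, cq, cs, cln, clc, cqn, cqc, c00, c01, c10]

lemma mul_L1_Q0 (a b : E) : mulV β (iL 1 a) (iQ 0 b) = i10 (β.mn a b) := by
  apply VV_ext <;> (try intro i; fin_cases i) <;>
    simp [mulV, iL, iQ, iLQ, i10, ca, ce, cl, cq, cs, cln, clc, cqn, cqc, c00, c01, c10]

lemma mul_L0_Q0 (a b : E) : mulV β (iL 0 a) (iQ 0 b) = i00 (β.mz a b) := by
  apply VV_ext <;> (try intro i; fin_cases i) <;>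
    simp [mulV, iL, iQ, iLQ, i00, ca, ce, cl, cq, cs, cln, clc, cqn, cqc, c00, c01, c10]

lemma mul_Ln_Qn (a b : N) : mulV β (iLn a) (iQn b) = i00 (β.bb a b) := by
  apply VV_ext <;> (try intro i; fin_cases i) <;>
    simp [mulV, iLn, iQn, i00, ca, ce, cl, cq, cs, cln, clc, cqn, cqc, c00, c01, c10]

lemma mul_Ln_qC (a : N) : mulV β (iLn a) qC = i01 a := by
  apply VV_ext <;> (try intro i; fin_cases i) <;>
    simp [mulV, iLn, qC, i01, ca, ce, cl, cq, cs, cln, clc, cqn, cqc, c00, c01, c10]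

lemma mul_lC_Qn (a : N) : mulV β lC (iQn a) = i10 a := by
  apply VV_ext <;> (try intro i; fin_cases i) <;>
    simp [mulV, lC, iQn, i10, ca, ce, cl, cq, cs, cln, clc, cqn, cqc, c00, c01, c10]

lemma mul_h0_h1 (x : VV N M E) : mulV β (mulV β (hI 0) x) (hI 1) = i01 (c01 x) := by
  apply VV_ext <;> (try intro i; fin_cases i) <;>
    simp [mulV, hI, i01, ca, ce, cl, cq, cs, cln, clc, cqn, cqc, c00, c01, c10]

lemma mul_h1_h0 (x : VV N M E) : mulV β (mulV β (hI 1) x) (hI 0) = i10 (c10 x) := by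
  apply VV_ext <;> (try intro i; fin_cases i) <;>
    simp [mulV, hI, i10, ca, ce, cl, cq, cs, cln, clc, cqn, cqc, c00, c01, c10]

/-- Tests detecting every component. -/
lemma sep (y : VV N M E) (n : N) (hn : n ≠ 0)
    (hp : ∀ a, (∀ b, β.pg a b = 0) → a = 0) (hp' : ∀ b, (∀ a, β.pg a b = 0) → b = 0)
    (h1 : ∀ i j, mulV β (mulV β (hI i) y) (hI j) = 0)
    (h2 : mulV β (mulV β eE y) eE = 0)
    (h3 : mulV β (mulV β oneV y) qC = 0)
    (h4 : mulV β (mulV β lC y) oneV = 0)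
    (h5 : mulV β (mulV β (hI 1) y) (iQn n) = 0)
    (h6 : mulV β (mulV β (iLn n) y) (hI 1) = 0)
    (h7 : ∀ i d, mulV β (mulV β (hI i) y) (iQ (Fin.rev i) d) = 0)
    (h8 : ∀ j d, mulV β (mulV β (iL (Fin.rev j) d) y) (hI j) = 0) : y = 0 := by
  rw [one_mulV] at h3
  rw [mulV_one] at h4
  apply VV_ext
  · intro i
    have := congrFun (congrArg (fun z : VV N M E => ca z) (h1 i i)) i
    simpa [ca, ce, cl, cq, cs, cln, clc, cqn, cqc, c00, c01, c10, mulV, hI] using this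
  · have := congrArg (fun z : VV N M E => ce z) h2
    simpa [ca, ce, cl, cq, cs, cln, clc, cqn, cqc, c00, c01, c10, mulV, eE] using this
  · intro i
    apply hp
    intro d
    have := congrFun (congrArg (fun z : VV N M E => cs z) (h7 i d)) i
    simpa [ca, ce, cl, cq, cs, cln, clc, cqn, cqc, c00, c01, c10, mulV, hI, iQ, iLQ] using this
  · intro i
    apply hp'
    intro d
    have := congrFun (congrArg (fun z : VV N M E => cs z) (h8 i d)) (Fin.rev i)
    simpa [ca, ce, cl, cq, cs, cln, clc, cqn, cqc, c00, c01, c10, mulV, hI, iL, iLQ] using this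
  · intro i
    have := congrFun (congrArg (fun z : VV N M E => cs z) (h1 i (Fin.rev i))) i
    simpa [ca, ce, cl, cq, cs, cln, clc, cqn, cqc, c00, c01, c10, mulV, hI] using this
  · have := congrArg (fun z : VV N M E => c01 z) h3
    simpa [ca, ce, cl, cq, cs, cln, clc, cqn, cqc, c00, c01, c10, mulV, qC] using this
  · have := congrArg (fun z : VV N M E => c10 z) h5
    simpa [ca, ce, cl, cq, cs, cln, clc, cqn, cqc, c00, c01, c10, mulV, hI, iQn, hn] using this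
  · have := congrArg (fun z : VV N M E => c10 z) h4
    simpa [ca, ce, cl, cq, cs, cln, clc, cqn, cqc, c00, c01, c10, mulV, lC] using this
  · have := congrArg (fun z : VV N M E => c01 z) h6
    simpa [ca, ce, cl, cq, cs, cln, clc, cqn, cqc, c00, c01, c10, mulV, hI, iLn, hn] using this
  · have := congrArg (fun z : VV N M E => c00 z) (h1 0 0)
    simpa [ca, ce, cl, cq, cs, cln, clc, cqn, cqc, c00, c01, c10, mulV, hI] using this
  · have := congrArg (fun z : VV N M E => c01 z) (h1 0 1)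
    simpa [ca, ce, cl, cq, cs, cln, clc, cqn, cqc, c00, c01, c10, mulV, hI] using this
  · have := congrArg (fun z : VV N M E => c10 z) (h1 1 0)
    simpa [ca, ce, cl, cq, cs, cln, clc, cqn, cqc, c00, c01, c10, mulV, hI] using this

/-- The tests on the `E` parts. -/
lemma test_LQ1 (x : (Fin 3 → E) × (Fin 3 → E)) (i j : Fin 3) :
    mulV β (mulV β (hI i) (iLQ x)) (hI j) = 0 := by
  apply VV_ext <;> (try intro i) <;>
    simp [mulV, iLQ, hI, ca, ce, cl, cq, cs, cln, clc, cqn, cqc, c00, c01, c10]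

lemma test_LQ2 (x : (Fin 3 → E) × (Fin 3 → E)) :
    mulV β (mulV β eE (iLQ x)) eE = 0 := by
  apply VV_ext <;> (try intro i) <;>
    simp [mulV, iLQ, eE, ca, ce, cl, cq, cs, cln, clc, cqn, cqc, c00, c01, c10]

lemma test_LQ3 (x : (Fin 3 → E) × (Fin 3 → E)) :
    mulV β (mulV β oneV (iLQ x)) qC = 0 := by
  rw [one_mulV]
  apply VV_ext <;> (try intro i) <;>
    simp [mulV, iLQ, qC, ca, ce, cl, cq, cs, cln, clc, cqn, cqc, c00, c01, c10]

lemma test_LQ4 (x : (Fin 3 → E) × (Fin 3 → E)) :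
    mulV β (mulV β lC (iLQ x)) oneV = 0 := by
  rw [mulV_one]
  apply VV_ext <;> (try intro i) <;>
    simp [mulV, iLQ, lC, ca, ce, cl, cq, cs, cln, clc, cqn, cqc, c00, c01, c10]

lemma test_LQ5 (x : (Fin 3 → E) × (Fin 3 → E)) (n : N) :
    mulV β (mulV β (hI 1) (iLQ x)) (iQn n) = 0 := by
  apply VV_ext <;> (try intro i) <;>
    simp [mulV, iLQ, hI, iQn, ca, ce, cl, cq, cs, cln, clc, cqn, cqc, c00, c01, c10]

lemma test_LQ6 (x : (Fin 3 → E) × (Fin 3 → E)) (n : N) :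
    mulV β (mulV β (iLn n) (iLQ x)) (hI 1) = 0 := by
  apply VV_ext <;> (try intro i) <;>
    simp [mulV, iLQ, hI, iLn, ca, ce, cl, cq, cs, cln, clc, cqn, cqc, c00, c01, c10]

lemma test_LQ7 (x : (Fin 3 → E) × (Fin 3 → E)) (i : Fin 3) (d : E) :
    mulV β (mulV β (hI i) (iLQ x)) (iQ (Fin.rev i) d) = β.pg (x.1 i) d • sI i := by
  fin_cases i <;> apply VV_ext <;> (try intro i; fin_cases i) <;>
    simp [mulV, iLQ, iQ, hI, sI, ca, ce, cl, cq, cs, cln, clc, cqn, cqc, c00, c01, c10]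

lemma test_LQ8 (x : (Fin 3 → E) × (Fin 3 → E)) (j : Fin 3) (d : E) :
    mulV β (mulV β (iL (Fin.rev j) d) (iLQ x)) (hI j) = β.pg d (x.2 j) • sI (Fin.rev j) := by
  fin_cases j <;> apply VV_ext <;> (try intro i; fin_cases i) <;>
    simp [mulV, iLQ, iL, hI, sI, ca, ce, cl, cq, cs, cln, clc, cqn, cqc, c00, c01, c10]

/-- The tests on the `N` parts. -/
lemma test_N1 (n m : N) (i j : Fin 3) :
    mulV β (mulV β (hI i) (iLn n + iQn m)) (hI j) = 0 := by
  apply VV_ext <;> (try intro i) <;>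
    simp [mulV, iLn, iQn, hI, ca, ce, cl, cq, cs, cln, clc, cqn, cqc, c00, c01, c10]

lemma test_N2 (n m : N) :
    mulV β (mulV β eE (iLn n + iQn m)) eE = 0 := by
  apply VV_ext <;> (try intro i) <;>
    simp [mulV, iLn, iQn, eE, ca, ce, cl, cq, cs, cln, clc, cqn, cqc, c00, c01, c10]

lemma test_N3 (n m : N) :
    mulV β (mulV β oneV (iLn n + iQn m)) qC = i01 n := by
  rw [one_mulV]
  apply VV_ext <;> (try intro i) <;>
    simp [mulV, iLn, iQn, qC, i01, ca, ce, cl, cq, cs, cln, clc, cqn, cqc, c00, c01, c10]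

lemma test_N4 (n m : N) :
    mulV β (mulV β lC (iLn n + iQn m)) oneV = i10 m := by
  rw [mulV_one]
  apply VV_ext <;> (try intro i) <;>
    simp [mulV, iLn, iQn, lC, i10, ca, ce, cl, cq, cs, cln, clc, cqn, cqc, c00, c01, c10]

lemma test_N5 (n m k : N) :
    mulV β (mulV β (hI 1) (iLn n + iQn m)) (iQn k) = 0 := by
  apply VV_ext <;> (try intro i) <;>
    simp [mulV, iLn, iQn, hI, ca, ce, cl, cq, cs, cln, clc, cqn, cqc, c00, c01, c10]

lemma test_N6 (n m k : N) :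
    mulV β (mulV β (iLn k) (iLn n + iQn m)) (hI 1) = 0 := by
  apply VV_ext <;> (try intro i) <;>
    simp [mulV, iLn, iQn, hI, ca, ce, cl, cq, cs, cln, clc, cqn, cqc, c00, c01, c10]

lemma test_N7 (n m : N) (i : Fin 3) (d : E) :
    mulV β (mulV β (hI i) (iLn n + iQn m)) (iQ (Fin.rev i) d) = 0 := by
  fin_cases i <;> apply VV_ext <;> (try intro i; fin_cases i) <;>
    simp [mulV, iLn, iQn, iQ, iLQ, hI, ca, ce, cl, cq, cs, cln, clc, cqn, cqc, c00, c01, c10]

lemma test_N8 (n m : N) (j : Fin 3) (d : E) :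
    mulV β (mulV β (iL (Fin.rev j) d) (iLn n + iQn m)) (hI j) = 0 := by
  fin_cases j <;> apply VV_ext <;> (try intro i; fin_cases i) <;>
    simp [mulV, iLn, iQn, iL, iLQ, hI, ca, ce, cl, cq, cs, cln, clc, cqn, cqc, c00, c01, c10]

end

end Pool.Agent.Lib_helper37.TwoNorms
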