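import Pool.Agent.Lib_helper37.TwoNorms10

/-! Classification of the complete algebra norms. -/

set_option linter.unusedSimpArgs false
set_option linter.unusedSectionVars false

open Filter Topology

namespace Pool.Agent.Lib_helper37.TwoNorms

lemma scale_bound {N B : Type} [NormedAddCommGroup N] [NormedSpace ℂ N] [NormedAddCommGroup B]
    [NormedSpace ℂ B] (G : N →ₗ[ℂ] B) (C : ℝ) (h : ∀ z, ‖z‖ ≤ 1 → ‖G z‖ ≤ C) (z : N) :
    ‖G z‖ ≤ C * ‖z‖ := by
  by_cases hz : z = 0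
  · subst hz; simp
  have hz' : 0 < ‖z‖ := norm_pos_iff.2 hz
  have h1 := h (((‖z‖⁻¹ : ℝ) : ℂ) • z) (by
    rw [norm_smul, Complex.norm_real, norm_inv, norm_norm, inv_mul_cancel₀ hz'.ne'])
  rw [map_smul, norm_smul, Complex.norm_real, norm_inv, norm_norm, inv_mul_le_iff₀ hz'] at h1
  linarith

lemma ext_dense {X B : Type} [NormedAddCommGroup X] [NormedSpace ℂ X] [NormedAddCommGroup B]
    [NormedSpace ℂ B] [CompleteSpace B] (N : Submodule ℂ X) (hN : Dense (N : Set X))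
    (G : N →ₗ[ℂ] B) (C : ℝ) (h : ∀ z : N, ‖z‖ ≤ 1 → ‖G z‖ ≤ C) :
    ∃ T : X →L[ℂ] B, ∀ z : N, T z = G z := by
  refine ⟨G.extendOfNorm N.subtype, fun z => ?_⟩
  have hd : DenseRange N.subtype := by
    have : Set.range N.subtype = (N : Set X) := by simp
    unfold DenseRange
    rw [this]
    exact hN
  exact LinearMap.extendOfNorm_eq hd ⟨C, fun x => scale_bound G C h x⟩ z

section

variable {U Z E : Type} [NormedAddCommGroup U] [NormedSpace ℂ U] [CompleteSpace U]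
  [NormedAddCommGroup Z] [NormedSpace ℂ Z] [CompleteSpace Z]
  [NormedAddCommGroup E] [NormedSpace ℂ E] [CompleteSpace E] (S : Sys U Z E)
  {B : Type} [NormedRing B] [NormedAlgebra ℂ B] [CompleteSpace B]
  (F : VV S.N S.M E →ₗ[ℂ] B) (hF : Function.Bijective F)
  (hmul : ∀ x y, F (mulV S.bil x y) = F x * F y)

include hF hmul

lemma cg {X : Type} [NormedAddCommGroup X] [NormedSpace ℂ X] [CompleteSpace X]
    (T : X →ₗ[ℂ] VV S.N S.M E) (n : S.N) (hn : n ≠ 0)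
    (h1 : ∀ i j x, mulV S.bil (mulV S.bil (hI i) (T x)) (hI j) = 0)
    (h2 : ∀ x, mulV S.bil (mulV S.bil eE (T x)) eE = 0)
    (h3 : Continuous fun x => F (mulV S.bil (mulV S.bil oneV (T x)) qC))
    (h4 : Continuous fun x => F (mulV S.bil (mulV S.bil lC (T x)) oneV))
    (h5 : ∀ x, mulV S.bil (mulV S.bil (hI 1) (T x)) (iQn n) = 0)
    (h6 : ∀ x, mulV S.bil (mulV S.bil (iLn n) (T x)) (hI 1) = 0)
    (h7 : ∀ i d, Continuous fun x =>
      F (mulV S.bil (mulV S.bil (hI i) (T x)) (iQ (Fin.rev i) d)))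
    (h8 : ∀ j d, Continuous fun x =>
      F (mulV S.bil (mulV S.bil (iL (Fin.rev j) d) (T x)) (hI j))) :
    Continuous (F.comp T) := by
  apply LinearMap.continuous_of_seq_closed_graph
  intro u x y hu hy
  obtain ⟨v, hv⟩ := hF.2 (y - F (T x))
  have key : ∀ l r : VV S.N S.M E,
      (Continuous fun x => F (mulV S.bil (mulV S.bil l (T x)) r)) →
      mulV S.bil (mulV S.bil l v) r = 0 := by
    intro l r hc
    apply hF.1
    rw [map_zero, hmul, hmul, hv]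
    have e1 : Tendsto (fun n => F l * F (T (u n)) * F r) atTop (𝓝 (F l * y * F r)) :=
      (hy.const_mul (F l)).mul_const (F r)
    have e2 : Tendsto (fun n => F l * F (T (u n)) * F r) atTop (𝓝 (F l * F (T x) * F r)) := by
      have := (hc.tendsto x).comp hu
      simpa only [Function.comp_def, hmul] using this
    have := tendsto_nhds_unique e1 e2
    rw [mul_sub, sub_mul, this, sub_self]
  have key0 : ∀ l r : VV S.N S.M E, (∀ x, mulV S.bil (mulV S.bil l (T x)) r = 0) →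
      mulV S.bil (mulV S.bil l v) r = 0 := by
    intro l r h
    apply key
    simp only [h]
    exact continuous_const
  have hv0 : v = 0 := sep S.bil v n hn S.hpg S.hpg' (fun i j => key0 _ _ (h1 i j)) (key0 _ _ h2)
    (key _ _ h3) (key _ _ h4) (key0 _ _ h5) (key0 _ _ h6) (fun i d => key _ _ (h7 i d))
    (fun j d => key _ _ (h8 j d))
  rw [hv0, map_zero] at hv
  exact (sub_eq_zero.1 hv.symm)

lemma cont_LQ (n : S.N) (hn : n ≠ 0) :
    Continuous (F.comp (iLQ : ((Fin 3 → E) × (Fin 3 → E)) →ₗ[ℂ] VV S.N S.M E)) := by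
  have hpg : ∀ a b, S.bil.pg a b = S.pg a b := fun _ _ => rfl
  refine cg S F hF hmul iLQ n hn (fun i j x => test_LQ1 _ x i j) (fun x => test_LQ2 _ x) ?_ ?_
    (fun x => test_LQ5 _ x n) (fun x => test_LQ6 _ x n) ?_ ?_
  · simp only [test_LQ3]; exact continuous_const
  · simp only [test_LQ4]; exact continuous_const
  · intro i d
    simp only [test_LQ7, map_smul, hpg]
    fun_prop
  · intro i d
    simp only [test_LQ8, map_smul, hpg]
    fun_prop

lemma exists_bound_LQ (n : S.N) (hn : n ≠ 0) :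
    ∃ C : ℝ, 0 ≤ C ∧ (∀ (i : Fin 3) (a : E), ‖F (iL i a)‖ ≤ C * ‖a‖) ∧
      ∀ (i : Fin 3) (a : E), ‖F (iQ i a)‖ ≤ C * ‖a‖ := by
  let T : ((Fin 3 → E) × (Fin 3 → E)) →L[ℂ] B := ⟨F.comp iLQ, cont_LQ S F hF hmul n hn⟩
  refine ⟨‖T‖, norm_nonneg _, fun i a => ?_, fun i a => ?_⟩
  · have h := T.le_opNorm (Pi.single i a, 0)
    have h2 : ‖((Pi.single i a, 0) : (Fin 3 → E) × (Fin 3 → E))‖ = ‖a‖ := by
      rw [Prod.norm_def, Pi.norm_single]
      simp
    rwa [h2] at h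
  · have h := T.le_opNorm (0, Pi.single i a)
    have h2 : ‖((0, Pi.single i a) : (Fin 3 → E) × (Fin 3 → E))‖ = ‖a‖ := by
      rw [Prod.norm_def, Pi.norm_single]
      simp
    rwa [h2] at h

lemma bound_prod {C : ℝ} (hC : 0 ≤ C) (hL : ∀ (i : Fin 3) (a : E), ‖F (iL i a)‖ ≤ C * ‖a‖)
    (hQ : ∀ (i : Fin 3) (a : E), ‖F (iQ i a)‖ ≤ C * ‖a‖) (i j : Fin 3) (a b : E)
    (ha : ‖a‖ ≤ 1) (hb : ‖b‖ ≤ 1) : ‖F (mulV S.bil (iL i a) (iQ j b))‖ ≤ C * C := by
  rw [hmul]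
  refine (norm_mul_le _ _).trans ?_
  have h1 : ‖F (iL i a)‖ ≤ C := (hL i a).trans (mul_le_of_le_one_right hC ha)
  have h2 : ‖F (iQ j b)‖ ≤ C := (hQ j b).trans (mul_le_of_le_one_right hC hb)
  exact mul_le_mul h1 h2 (norm_nonneg _) hC

lemma exists_T (n : S.N) (hn : n ≠ 0) :
    ∃ (T01 T10 : U →L[ℂ] B) (T00 : Z →L[ℂ] B), (∀ z : S.N, T01 z = F (i01 z)) ∧
      (∀ z : S.N, T10 z = F (i10 z)) ∧ ∀ z : S.M, T00 z = F (i00 z) := by
  obtain ⟨C, hC, hL, hQ⟩ := exists_bound_LQ S F hF hmul n hn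
  obtain ⟨T01, h01⟩ := ext_dense S.N S.hN (F.comp i01) (C * C) (by
    intro z hz
    obtain ⟨a, b, ha, hb, hab⟩ := S.hmn' z z.2 hz
    have h1 : z = S.bil.mn a b := Subtype.ext hab.symm
    rw [LinearMap.comp_apply, h1, ← mul_L0_Q1]
    exact bound_prod S F hF hmul hC hL hQ 0 1 a b ha hb)
  obtain ⟨T10, h10⟩ := ext_dense S.N S.hN (F.comp i10) (C * C) (by
    intro z hz
    obtain ⟨a, b, ha, hb, hab⟩ := S.hmn' z z.2 hz
    have h1 : z = S.bil.mn a b := Subtype.ext hab.symm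
    rw [LinearMap.comp_apply, h1, ← mul_L1_Q0]
    exact bound_prod S F hF hmul hC hL hQ 1 0 a b ha hb)
  obtain ⟨T00, h00⟩ := ext_dense S.M S.hM (F.comp i00) (C * C) (by
    intro z hz
    obtain ⟨a, b, ha, hb, hab⟩ := S.hmz' z z.2 hz
    have h1 : z = S.bil.mz a b := Subtype.ext hab.symm
    rw [LinearMap.comp_apply, h1, ← mul_L0_Q0]
    exact bound_prod S F hF hmul hC hL hQ 0 0 a b ha hb)
  exact ⟨T01, T10, T00, h01, h10, h00⟩

end

/-- Coordinate projections of the algebra as linear maps. -/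
def c01L (N M E : Type) [AddCommGroup N] [Module ℂ N] [AddCommGroup M] [Module ℂ M]
    [AddCommGroup E] [Module ℂ E] : VV N M E →ₗ[ℂ] N where
  toFun x := c01 x
  map_add' _ _ := rfl
  map_smul' _ _ := rfl

def c10L (N M E : Type) [AddCommGroup N] [Module ℂ N] [AddCommGroup M] [Module ℂ M]
    [AddCommGroup E] [Module ℂ E] : VV N M E →ₗ[ℂ] N where
  toFun x := c10 x
  map_add' _ _ := rfl
  map_smul' _ _ := rfl

section

variable {U Z E : Type} [NormedAddCommGroup U] [NormedSpace ℂ U] [CompleteSpace U]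
  [NormedAddCommGroup Z] [NormedSpace ℂ Z] [CompleteSpace Z]
  [NormedAddCommGroup E] [NormedSpace ℂ E] [CompleteSpace E] (S : Sys U Z E)
  {B : Type} [NormedRing B] [NormedAlgebra ℂ B] [CompleteSpace B]
  (F : VV S.N S.M E →ₗ[ℂ] B) (hF : Function.Bijective F)
  (hmul : ∀ x y, F (mulV S.bil x y) = F x * F y)

include hF hmul

lemma exists_P (T01 T10 : U →L[ℂ] B) (h01 : ∀ z : S.N, T01 z = F (i01 z))
    (h10 : ∀ z : S.N, T10 z = F (i10 z)) :
    ∃ P P' : U →ₗ[ℂ] S.N, (∀ x, T01 x = F (i01 (P x))) ∧ (∀ x, T10 x = F (i10 (P' x))) ∧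
      (∀ z : S.N, P z = z) ∧ ∀ z : S.N, P' z = z := by
  let Fi : B →ₗ[ℂ] VV S.N S.M E := (LinearEquiv.ofBijective F hF).symm
  have hFi : ∀ b, F (Fi b) = b := fun b => (LinearEquiv.ofBijective F hF).apply_symm_apply b
  have e01 : ∀ x, T01 x = F (i01 (c01 (Fi (T01 x)))) := by
    have hcl : IsClosed {x : U | T01 x = F (hI 0) * T01 x * F (hI 1)} :=
      isClosed_eq (by fun_prop) (by fun_prop)
    have hsub : (S.N : Set U) ⊆ {x : U | T01 x = F (hI 0) * T01 x * F (hI 1)} := by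
      intro x hx
      change T01 ((⟨x, hx⟩ : S.N) : U) = F (hI 0) * T01 ((⟨x, hx⟩ : S.N) : U) * F (hI 1)
      rw [h01, ← hmul, ← hmul, mul_h0_h1]
      rfl
    intro x
    have hx := S.hN.induction (P := fun x => T01 x = F (hI 0) * T01 x * F (hI 1)) hsub hcl x
    rw [← mul_h0_h1 S.bil (Fi (T01 x)), hmul, hmul, hFi]
    exact hx
  have e10 : ∀ x, T10 x = F (i10 (c10 (Fi (T10 x)))) := by
    have hcl : IsClosed {x : U | T10 x = F (hI 1) * T10 x * F (hI 0)} :=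
      isClosed_eq (by fun_prop) (by fun_prop)
    have hsub : (S.N : Set U) ⊆ {x : U | T10 x = F (hI 1) * T10 x * F (hI 0)} := by
      intro x hx
      change T10 ((⟨x, hx⟩ : S.N) : U) = F (hI 1) * T10 ((⟨x, hx⟩ : S.N) : U) * F (hI 0)
      rw [h10, ← hmul, ← hmul, mul_h1_h0]
      rfl
    intro x
    have hx := S.hN.induction (P := fun x => T10 x = F (hI 1) * T10 x * F (hI 0)) hsub hcl x
    rw [← mul_h1_h0 S.bil (Fi (T10 x)), hmul, hmul, hFi]
    exact hx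
  refine ⟨(c01L _ _ _).comp (Fi.comp (T01 : U →ₗ[ℂ] B)),
    (c10L _ _ _).comp (Fi.comp (T10 : U →ₗ[ℂ] B)), e01, e10, fun z => ?_, fun z => ?_⟩
  · have h1 := (h01 z).symm.trans (e01 z)
    exact (congrArg (fun y : VV S.N S.M E => c01 y) (hF.1 h1)).symm
  · have h1 := (h10 z).symm.trans (e10 z)
    exact (congrArg (fun y : VV S.N S.M E => c10 y) (hF.1 h1)).symm

lemma cont_PP (n : S.N) (hn : n ≠ 0) (T01 T10 : U →L[ℂ] B) (P P' : U →ₗ[ℂ] S.N)
    (hP : ∀ x, T01 x = F (i01 (P x))) (hP' : ∀ x, T10 x = F (i10 (P' x))) :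
    Continuous (F.comp ((iLn.comp P).coprod (iQn.comp P') : U × U →ₗ[ℂ] VV S.N S.M E)) := by
  refine cg S F hF hmul _ n hn (fun i j x => test_N1 _ _ _ i j) (fun x => test_N2 _ _ _) ?_ ?_
    (fun x => test_N5 _ _ _ n) (fun x => test_N6 _ _ _ n) ?_ ?_
  · have : (fun x : U × U => F (mulV S.bil (mulV S.bil oneV
        (((iLn.comp P).coprod (iQn.comp P') : U × U →ₗ[ℂ] VV S.N S.M E) x)) qC)) =
        fun x => T01 x.1 := by
      funext x
      rw [hP, ← test_N3 S.bil (P x.1) (P' x.2)]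
      rfl
    rw [this]
    fun_prop
  · have : (fun x : U × U => F (mulV S.bil (mulV S.bil lC
        (((iLn.comp P).coprod (iQn.comp P') : U × U →ₗ[ℂ] VV S.N S.M E) x)) oneV)) =
        fun x => T10 x.2 := by
      funext x
      rw [hP', ← test_N4 S.bil (P x.1) (P' x.2)]
      rfl
    rw [this]
    fun_prop
  · intro i d
    have : ∀ x : U × U, mulV S.bil (mulV S.bil (hI i)
        (((iLn.comp P).coprod (iQn.comp P') : U × U →ₗ[ℂ] VV S.N S.M E) x))
        (iQ (Fin.rev i) d) = 0 := fun x => test_N7 _ _ _ i d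
    simp only [this]
    exact continuous_const
  · intro i d
    have : ∀ x : U × U, mulV S.bil (mulV S.bil (iL (Fin.rev i) d)
        (((iLn.comp P).coprod (iQn.comp P') : U × U →ₗ[ℂ] VV S.N S.M E) x))
        (hI i) = 0 := fun x => test_N8 _ _ _ i d
    simp only [this]
    exact continuous_const

lemma exists_nz : ∃ n : S.N, n ≠ 0 :=
  ⟨⟨_, S.hu⟩, fun h => S.hune (sub_eq_zero.1 (congrArg Subtype.val h))⟩

lemma exists_all : ∃ (T01 T10 T12 T23 : U →L[ℂ] B) (T00 : Z →L[ℂ] B) (P P' : U →ₗ[ℂ] S.N),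
    (∀ z : S.N, P z = z) ∧ (∀ z : S.N, P' z = z) ∧
    (∀ x, T01 x = F (i01 (P x))) ∧ (∀ x, T10 x = F (i10 (P' x))) ∧
    (∀ x, T12 x = F (iLn (P x))) ∧ (∀ x, T23 x = F (iQn (P' x))) ∧
    (∀ z : S.M, T00 z = F (i00 z)) ∧ ∀ x y, T00 (S.b x y) = T12 x * T23 y := by
  obtain ⟨n, hn⟩ := exists_nz S F hF hmul
  obtain ⟨T01, T10, T00, h01, h10, h00⟩ := exists_T S F hF hmul n hn
  obtain ⟨P, P', hP, hP', hPN, hPN'⟩ := exists_P S F hF hmul T01 T10 h01 h10
  have hc := cont_PP S F hF hmul n hn T01 T10 P P' hP hP'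
  let T : U × U →L[ℂ] B := ⟨_, hc⟩
  have hT : ∀ x y, T (x, y) = F (iLn (P x) + iQn (P' y)) := fun x y => rfl
  let T12 : U →L[ℂ] B := T.comp (ContinuousLinearMap.inl ℂ U U)
  let T23 : U →L[ℂ] B := T.comp (ContinuousLinearMap.inr ℂ U U)
  have h12 : ∀ x, T12 x = F (iLn (P x)) := by
    intro x
    change T (x, 0) = _
    rw [hT, map_zero, map_zero, add_zero]
  have h23 : ∀ x, T23 x = F (iQn (P' x)) := by
    intro x
    change T (0, x) = _
    rw [hT, map_zero, map_zero, zero_add]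
  refine ⟨T01, T10, T12, T23, T00, P, P', hPN, hPN', hP, hP', h12, h23, h00, ?_⟩
  have hcl : IsClosed {p : U × U | T00 (S.b p.1 p.2) = T12 p.1 * T23 p.2} :=
    isClosed_eq (by fun_prop) (by fun_prop)
  have hd : Dense ((S.N : Set U) ×ˢ (S.N : Set U)) := S.hN.prod S.hN
  have hsub : (S.N : Set U) ×ˢ (S.N : Set U) ⊆
      {p : U × U | T00 (S.b p.1 p.2) = T12 p.1 * T23 p.2} := by
    rintro ⟨x, y⟩ ⟨hx, hy⟩
    change T00 (S.b x y) = T12 x * T23 y
    rw [h12, h23, hPN ⟨x, hx⟩, hPN' ⟨y, hy⟩, ← hmul, mul_Ln_Qn, ← h00]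
    rfl
  intro x y
  have h2 := hcl.closure_subset_iff.2 hsub
  rw [hd.closure_eq] at h2
  exact h2 (Set.mem_univ (x, y))

end

end Pool.Agent.Lib_helper37.TwoNorms
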