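import Pool.Agent.Lib_helper37.TwoNorms11

/-! The count of the norms. -/

set_option linter.unusedSimpArgs false
set_option linter.unusedSectionVars false

open Filter Topology

namespace Pool.Agent.Lib_helper37.TwoNorms

open TwoNormsDefs

section

variable {U Z E : Type} [NormedAddCommGroup U] [NormedSpace ℂ U] [CompleteSpace U]
  [NormedAddCommGroup Z] [NormedSpace ℂ Z] [CompleteSpace Z]
  [NormedAddCommGroup E] [NormedSpace ℂ E] [CompleteSpace E] (S : Sys U Z E)

section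

variable {B : Type} [NormedRing B] [NormedAlgebra ℂ B] [CompleteSpace B]
  (F : VV S.N S.M E →ₗ[ℂ] B) (hF : Function.Bijective F)
  (hmul : ∀ x y, F (mulV S.bil x y) = F x * F y)

include hF hmul

lemma exists_upper : ∃ (k : Bool) (Ps : VV U Z E →L[ℂ] B), ∀ x, Ps (S.Th k x) = F x := by
  obtain ⟨T01, T10, T12, T23, T00, P, P', hPN, hPN', hP, hP', h12, h23, h00, hb⟩ :=
    exists_all S F hF hmul
  obtain ⟨n, hn⟩ := exists_nz S F hF hmul
  -- the dichotomy
  have hdich : ∀ k, P (S.u k) = 0 ∨ P' (S.u !k) = 0 := by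
    intro k
    have h1 := hb (S.u k) (S.u !k)
    rw [S.hbu, map_zero, h12, h23, ← hmul, mul_Ln_Qn] at h1
    have h2 : S.bil.bb (P (S.u k)) (P' (S.u !k)) = 0 := by
      have h3 : (i00 (S.bil.bb (P (S.u k)) (P' (S.u !k))) : VV S.N S.M E) = 0 :=
        hF.1 (by rw [map_zero]; exact h1.symm)
      exact congrArg (fun y : VV S.N S.M E => c00 y) h3
    have h3 : S.b (P (S.u k) : U) (P' (S.u !k) : U) = 0 := congrArg Subtype.val h2
    rcases S.hb0 _ (P (S.u k)).2 _ (P' (S.u !k)).2 h3 with h | h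
    · exact Or.inl (Subtype.ext h)
    · exact Or.inr (Subtype.ext h)
  have hne : S.u true - S.u false ≠ 0 := fun h => S.hune (sub_eq_zero.1 h)
  have hd : ∀ Q : U →ₗ[ℂ] S.N, (∀ z : S.N, Q z = z) → Q (S.u true) = 0 →
      Q (S.u false) = 0 → False := by
    intro Q hQ h1 h2
    have h3 := hQ ⟨_, S.hu⟩
    have h4 : Q (S.u true - S.u false) = 0 := by rw [map_sub, h1, h2, sub_zero]
    apply hne
    have h5 : (⟨S.u true - S.u false, S.hu⟩ : S.N) = 0 := h3.symm.trans h4
    exact congrArg Subtype.val h5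
  have hk : ∃ k, P (S.u k) = 0 ∧ P' (S.u k) = 0 := by
    have ht := hdich true
    have hf := hdich false
    simp only [Bool.not_true, Bool.not_false] at ht hf
    rcases ht with ht | ht
    · rcases hf with hf | hf
      · exact (hd P hPN ht hf).elim
      · exact ⟨true, ht, hf⟩
    · rcases hf with hf | hf
      · exact ⟨false, hf, ht⟩
      · exact (hd P' hPN' hf ht).elim
  obtain ⟨k, hk1, hk2⟩ := hk
  have e12 : ∀ x, T12 (S.pU k x) = T12 x := by
    intro x
    obtain ⟨c, hc⟩ := S.pU_sub k x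
    have h := congrArg T12 hc
    rw [map_sub, map_smul, h12 (S.u k), hk1, map_zero, map_zero, smul_zero, sub_eq_zero] at h
    exact h.symm
  have e23 : ∀ x, T23 (S.pU k x) = T23 x := by
    intro x
    obtain ⟨c, hc⟩ := S.pU_sub k x
    have h := congrArg T23 hc
    rw [map_sub, map_smul, h23 (S.u k), hk2, map_zero, map_zero, smul_zero, sub_eq_zero] at h
    exact h.symm
  have e01 : ∀ x, T01 (S.pU k x) = T01 x := by
    intro x
    obtain ⟨c, hc⟩ := S.pU_sub k x
    have h := congrArg T01 hc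
    rw [map_sub, map_smul, hP (S.u k), hk1, map_zero, map_zero, smul_zero, sub_eq_zero] at h
    exact h.symm
  have e10 : ∀ x, T10 (S.pU k x) = T10 x := by
    intro x
    obtain ⟨c, hc⟩ := S.pU_sub k x
    have h := congrArg T10 hc
    rw [map_sub, map_smul, hP' (S.u k), hk2, map_zero, map_zero, smul_zero, sub_eq_zero] at h
    exact h.symm
  have e00 : ∀ z, T00 (S.pZ k z) = T00 z := by
    intro z
    obtain ⟨x, y, hxy⟩ := S.pZ_sub k z
    have h := congrArg T00 hxy
    rw [map_sub, map_add, hb, hb, h12 (S.u k), h23 (S.u k), hk1, hk2] at h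
    simp only [map_zero, zero_mul, mul_zero, add_zero] at h
    exact (sub_eq_zero.1 h).symm
  let TE : ((Fin 3 → E) × (Fin 3 → E)) →L[ℂ] B := ⟨F.comp iLQ, cont_LQ S F hF hmul n hn⟩
  let TS : ((Fin 3 → ℂ) × ℂ × (Fin 3 → ℂ) × ℂ × ℂ) →L[ℂ] B :=
    ⟨F.comp iS, LinearMap.continuous_of_finiteDimensional _⟩
  obtain ⟨a1, a2, a3, a4, a5, a6, a7, a8, a9, a10, a11, a12⟩ :=
    Sys.cont_proj (U := U) (Z := Z) (E := E) continuous_id
  let pS : VV U Z E →L[ℂ] ((Fin 3 → ℂ) × ℂ × (Fin 3 → ℂ) × ℂ × ℂ) :=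
    { toFun := fun y => (ca y, ce y, cs y, clc y, cqc y)
      map_add' := fun _ _ => rfl
      map_smul' := fun _ _ => rfl
      cont := a1.prodMk (a2.prodMk (a5.prodMk (a7.prodMk a9))) }
  let pE : VV U Z E →L[ℂ] ((Fin 3 → E) × (Fin 3 → E)) :=
    { toFun := fun y => (cl y, cq y)
      map_add' := fun _ _ => rfl
      map_smul' := fun _ _ => rfl
      cont := a3.prodMk a4 }
  let pln : VV U Z E →L[ℂ] U :=
    { toFun := fun y => cln y, map_add' := fun _ _ => rfl, map_smul' := fun _ _ => rfl, cont := a6 }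
  let pqn : VV U Z E →L[ℂ] U :=
    { toFun := fun y => cqn y, map_add' := fun _ _ => rfl, map_smul' := fun _ _ => rfl, cont := a8 }
  let p00 : VV U Z E →L[ℂ] Z :=
    { toFun := fun y => c00 y, map_add' := fun _ _ => rfl, map_smul' := fun _ _ => rfl, cont := a10 }
  let p01 : VV U Z E →L[ℂ] U :=
    { toFun := fun y => c01 y, map_add' := fun _ _ => rfl, map_smul' := fun _ _ => rfl, cont := a11 }
  let p10 : VV U Z E →L[ℂ] U :=
    { toFun := fun y => c10 y, map_add' := fun _ _ => rfl, map_smul' := fun _ _ => rfl, cont := a12 }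
  refine ⟨k, TS.comp pS + TE.comp pE + T12.comp pln + T23.comp pqn + T00.comp p00 +
    T01.comp p01 + T10.comp p10, fun x => ?_⟩
  change F (iS (ca x, ce x, cs x, clc x, cqc x)) + F (iLQ (cl x, cq x)) +
    T12 (S.pU k ((cln x : S.N) : U)) + T23 (S.pU k ((cqn x : S.N) : U)) +
    T00 (S.pZ k ((c00 x : S.M) : Z)) + T01 (S.pU k ((c01 x : S.N) : U)) +
    T10 (S.pU k ((c10 x : S.N) : U)) = F x
  rw [e12, e23, e00, e01, e10, h12, h23, h00, hP, hP', hPN, hPN', hPN, hPN', ← map_add, ← map_add,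
    ← map_add, ← map_add, ← map_add, ← map_add, ← decomp x]

set_option maxRecDepth 20000 in
theorem classify : ∃ (k : Bool) (C D : ℝ), ∀ x, ‖F x‖ ≤ C * ‖S.Th k x‖ ∧
    ‖S.Th k x‖ ≤ D * ‖F x‖ := by
  obtain ⟨k, Ps, hPs⟩ := exists_upper S F hF hmul
  let R : Submodule ℂ (VV U Z E) := LinearMap.range (S.Th k)
  have hRc : IsClosed (R : Set (VV U Z E)) := by
    have h := S.range_closed k
    rwa [← LinearMap.coe_range] at h
  have : CompleteSpace R := hRc.completeSpace_coe
  let Q : R →L[ℂ] B := Ps.comp R.subtypeL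
  have hQ : ∀ x, Q ⟨S.Th k x, ⟨x, rfl⟩⟩ = F x := fun x => hPs x
  have hinj : LinearMap.ker (Q : R →ₗ[ℂ] B) = ⊥ := by
    rw [LinearMap.ker_eq_bot']
    rintro ⟨_, x, rfl⟩ h
    have h1 : F x = 0 := (hQ x).symm.trans h
    have h2 : x = 0 := hF.1 (by rw [h1, map_zero])
    subst h2
    exact Subtype.ext (map_zero _)
  have hsurj : LinearMap.range (Q : R →ₗ[ℂ] B) = ⊤ := by
    rw [LinearMap.range_eq_top]
    intro b
    obtain ⟨x, rfl⟩ := hF.2 b
    exact ⟨⟨S.Th k x, ⟨x, rfl⟩⟩, hQ x⟩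
  let e := ContinuousLinearEquiv.ofBijective Q hinj hsurj
  refine ⟨k, ‖Ps‖, ‖(e.symm : B →L[ℂ] R)‖, fun x => ⟨?_, ?_⟩⟩
  · rw [← hPs]
    exact Ps.le_opNorm _
  · have h1 : e.symm (F x) = ⟨S.Th k x, ⟨x, rfl⟩⟩ := by
      rw [← hQ x]
      exact e.symm_apply_apply _
    have h2 := (e.symm : B →L[ℂ] R).le_opNorm (F x)
    have h3 : ‖(e.symm : B →L[ℂ] R) (F x)‖ = ‖S.Th k x‖ := by
      change ‖e.symm (F x)‖ = _
      rw [h1]
      rfl
    rwa [h3] at h2

end

set_option maxRecDepth 20000 in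
lemma classify_norm (r : TA S.bil → ℝ) (h : IsBanachAlgebraNorm r) :
    ∃ (k : Bool) (C D : ℝ), ∀ x : TA S.bil, r x ≤ C * ‖S.Th k x‖ ∧ ‖S.Th k x‖ ≤ D * r x := by
  let i1 : NormedRing (TA S.bil) := toNormedRing h
  let i2 : NormedAlgebra ℂ (TA S.bil) :=
    { (inferInstance : Algebra ℂ (TA S.bil)) with
      norm_smul_le := fun c x => (h.smul c x).le }
  have i3 : CompleteSpace (TA S.bil) := complete_toNormedRing h
  let F : VV S.N S.M E →ₗ[ℂ] TA S.bil :=
    { toFun := fun x => x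
      map_add' := fun _ _ => rfl
      map_smul' := fun _ _ => rfl }
  exact classify S F ⟨fun _ _ h => h, fun x => ⟨x, rfl⟩⟩ fun _ _ => rfl

lemma norm_Th_iLn (k : Bool) (n : S.N) : ‖S.Th k (iLn n)‖ = ‖S.pU k (n : U)‖ := by
  have : S.Th k (iLn n) = (0, 0, 0, 0, 0, S.pU k (n : U), 0, 0, 0, 0, 0, 0) := by
    apply VV_ext
    · intro i; rfl
    · rfl
    · intro i; rfl
    · intro i; rfl
    · intro i; rfl
    · rfl
    · rfl
    · exact map_zero _
    · rfl
    · exact map_zero _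
    · exact map_zero _
    · exact map_zero _
  rw [this]
  simp [Prod.norm_def]

lemma not_equiv (K : ℝ) (h : ∀ x, ‖S.Th false x‖ ≤ K * ‖S.Th true x‖) : False := by
  have h1 : ∀ n : S.N, ‖S.pU false (n : U)‖ ≤ K * ‖S.pU true (n : U)‖ := by
    intro n
    have := h (iLn n)
    rwa [norm_Th_iLn, norm_Th_iLn] at this
  have hcl : IsClosed {x : U | ‖S.pU false x‖ ≤ K * ‖S.pU true x‖} :=
    isClosed_le (by fun_prop) (by fun_prop)
  have h2 := S.hN.induction (P := fun x => ‖S.pU false x‖ ≤ K * ‖S.pU true x‖)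
    (fun x hx => h1 ⟨x, hx⟩) hcl (S.u true)
  rw [S.pU_u, norm_zero, mul_zero] at h2
  have h3 : S.pU false (S.u true) = 0 := norm_le_zero_iff.1 h2
  have h4 : S.pU false (S.u true - S.u false) = 0 := by rw [map_sub, h3, S.pU_u, sub_zero]
  exact S.hune (sub_eq_zero.1 (S.pU_inj false _ S.hu h4))

end

lemma normEquivalent_of_le {A : Type} {p q : A → ℝ} (hp : ∀ x, 0 ≤ p x) (hq : ∀ x, 0 ≤ q x)
    (C D : ℝ) (h1 : ∀ x, p x ≤ C * q x) (h2 : ∀ x, q x ≤ D * p x) : NormEquivalent p q := by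
  have hC : (0 : ℝ) < max C 1 := lt_of_lt_of_le one_pos (le_max_right _ _)
  refine ⟨(max C 1)⁻¹, max D (max C 1)⁻¹, inv_pos.2 hC, le_max_right _ _, fun x => ⟨?_, ?_⟩⟩
  · rw [inv_mul_le_iff₀ hC]
    exact (h1 x).trans (mul_le_mul_of_nonneg_right (le_max_left _ _) (hq x))
  · exact (h2 x).trans (mul_le_mul_of_nonneg_right (le_max_left _ _) (hp x))

set_option maxRecDepth 20000 in
theorem main : ∃ (A : Type) (_ : Ring A) (_ : Algebra ℂ A), numBanachAlgebraNorms A = 2 := by
  obtain ⟨Γ, I₁, I₂, ⟨S⟩⟩ := exists_sys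
  refine ⟨TA S.bil, inferInstance, inferInstance, ?_⟩
  choose C hC hCm using S.mul_bound
  have hp : ∀ k, IsBanachAlgebraNorm (fun x : TA S.bil => C k * ‖S.Th k x‖) := by
    intro k
    let T : TA S.bil →ₗ[ℂ] VV (L1 Γ) (L1 (Γ × Γ) × L1 (I₂ × I₂)) (L1 I₁ × L1 I₂) := S.Th k
    refine norm_of_embedding T (S.Th_inj k) (S.range_closed k) (C k) (hC k) fun x y => ?_
    have h1 : T (x * y) = mulV (S.bilk k) (T x) (T y) := S.Th_mul k x y
    rw [h1]
    exact hCm k _ _
  let P : Bool → BanachAlgebraNorms (TA S.bil) := fun k => ⟨_, hp k⟩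
  have hbij : Function.Bijective (fun k => (⟦P k⟧ : Quotient (normSetoid (TA S.bil)))) := by
    have hne : ¬ NormEquivalent (P true).1 (P false).1 := by
      rintro ⟨c, D, hc, hcD, h⟩
      refine not_equiv S ((C false)⁻¹ * (D * C true)) fun x => ?_
      have h1 := (h x).2
      change C false * ‖S.Th false x‖ ≤ D * (C true * ‖S.Th true x‖) at h1
      rw [mul_assoc, le_inv_mul_iff₀ (hC false)]
      linarith [mul_assoc D (C true) ‖S.Th true x‖]
    have hne' : (⟦P true⟧ : Quotient (normSetoid (TA S.bil))) ≠ ⟦P false⟧ := by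
      intro h
      exact hne (Quotient.exact h)
    constructor
    · intro a b h
      cases a <;> cases b
      · rfl
      · exact (hne' h.symm).elim
      · exact (hne' h).elim
      · rfl
    · intro q
      induction q using Quotient.inductionOn with
      | h r =>
        obtain ⟨k, a, b, hab⟩ := classify_norm S r.1 r.2
        refine ⟨k, Quotient.sound ?_⟩
        refine normEquivalent_of_le (hp k).nonneg r.2.nonneg (C k * b) (a * (C k)⁻¹)
          (fun x => ?_) fun x => ?_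
        · change C k * ‖S.Th k x‖ ≤ C k * b * r.1 x
          rw [mul_assoc]
          exact mul_le_mul_of_nonneg_left (hab x).2 (hC k).le
        · change r.1 x ≤ a * (C k)⁻¹ * (C k * ‖S.Th k x‖)
          have h1 : a * (C k)⁻¹ * (C k * ‖S.Th k x‖) = a * ‖S.Th k x‖ := by
            have := (hC k).ne'
            field_simp
          rw [h1]
          exact (hab x).1
  unfold numBanachAlgebraNorms
  rw [← ENat.card_congr (Equiv.ofBijective _ hbij)]
  simp

end Pool.Agent.Lib_helper37.TwoNorms
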