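import Pool.Agent.Lib_helper37.TwoNorms1

/-! A set of indices coding the unit ball of a space built from the same set of indices. -/

open scoped ENNReal

namespace Pool.Agent.Lib_helper37.TwoNorms

/-- Codes. -/
inductive Code (Z : Type) : Type
  | base : Code Z
  | mk : Z → (ℕ → ℂ) → (ℕ → Code Z) → (ℕ → Code Z) → Code Z

variable {Z : Type} [NormedAddCommGroup Z] [NormedSpace ℂ Z]

/-- The vector of a code, before truncation. -/
noncomputable def rawc : Code Z → Z × L1 (Code Z × Code Z)
  | .base => 0
  | .mk z c l r => (z, ∑' n, c n • dl (l n, r n))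

open Classical in
/-- The vector of a code. -/
noncomputable def zc (x : Code Z) : Z × L1 (Code Z × Code Z) :=
  if ‖rawc x‖ ≤ 1 then rawc x else 0

omit [NormedSpace ℂ Z] in
lemma norm_zc (x : Code Z) : ‖zc x‖ ≤ 1 := by
  unfold zc
  by_cases h : ‖rawc x‖ ≤ 1
  · rw [if_pos h]; exact h
  · rw [if_neg h]; simp

lemma exists_seq {J : Type} (j₀ : J) (w : L1 J) :
    ∃ (c : ℕ → ℂ) (s : ℕ → J), ∑' n, c n • dl (s n) = w := by
  have hS : (Function.support fun j => ‖w j‖).Countable := (summable_norm w).countable_support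
  obtain ⟨e, he⟩ := hS.to_subtype.exists_injective_nat
  refine ⟨Function.extend e (fun p => w p) 0, Function.extend e (fun p => (p : J)) (fun _ => j₀),
    ?_⟩
  have h1 : (fun n => Function.extend e (fun p => w p) 0 n •
      dl (Function.extend e (fun p => (p : J)) (fun _ => j₀) n)) =
      Function.extend e (fun p => w p • dl (p : J)) 0 := by
    funext n
    by_cases hn : ∃ p, e p = n
    · obtain ⟨p, rfl⟩ := hn
      rw [he.extend_apply, he.extend_apply, he.extend_apply]
    · rw [Function.extend_apply' _ _ _ hn, Function.extend_apply' _ _ _ hn,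
        Function.extend_apply' _ _ _ hn]
      simp
  rw [h1]
  apply HasSum.tsum_eq
  rw [hasSum_extend_zero he]
  have h2 := hasSum_dl w
  have h3 := (hasSum_subtype_iff_of_support_subset (f := fun i => w i • dl i)
    (s := Function.support fun j => ‖w j‖) (a := w) (by
      intro j hj hj'
      apply hj
      have : w j = 0 := by simpa using hj'
      simp [this])).2 h2
  exact h3

omit [NormedSpace ℂ Z] in
lemma exists_code (v : Z × L1 (Code Z × Code Z)) (hv : ‖v‖ ≤ 1) : ∃ x : Code Z, zc x = v := by
  obtain ⟨c, s, hs⟩ := exists_seq (Code.base, Code.base) v.2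
  refine ⟨Code.mk v.1 c (fun n => (s n).1) (fun n => (s n).2), ?_⟩
  have h : rawc (Code.mk v.1 c (fun n => (s n).1) (fun n => (s n).2)) = v := by
    unfold rawc
    simp only
    rw [hs]
  unfold zc
  rw [h, if_pos hv]

variable (Z) in
omit [NormedSpace ℂ Z] in
theorem exists_coding : ∃ (I : Type) (_ : Nonempty I) (w : I → Z × L1 (I × I)),
    (∀ i, ‖w i‖ ≤ 1) ∧ ∀ v, ‖v‖ ≤ 1 → ∃ i, w i = v :=
  ⟨Code Z, ⟨Code.base⟩, zc, norm_zc, exists_code⟩

end Pool.Agent.Lib_helper37.TwoNorms
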