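import Pool.Agent.Lib_helper37.TwoNorms2

/-! The tail lemma. -/

open scoped ENNReal

namespace Pool.Agent.Lib_helper37.TwoNorms

lemma enorm_eq_tsum {ι : Type} (x : L1 ι) : ‖x‖ₑ = ∑' i, ‖x i‖ₑ := by
  rw [← ofReal_norm, norm_eq_tsum,
    ENNReal.ofReal_tsum_of_nonneg (fun _ => norm_nonneg _) (summable_norm x)]
  congr 1; ext i
  rw [ofReal_norm]

section

variable {Z₀ : Type} [NormedAddCommGroup Z₀] [NormedSpace ℂ Z₀] [CompleteSpace Z₀]
  {I : Type} (w : I → Z₀ × L1 (I × I)) (hw : ∀ i, ‖w i‖ ≤ 1)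

lemma diag_inj : Function.Injective (fun k : I => (k, k)) := fun a b h => by
  simpa using congrArg Prod.fst h

lemma row_inj (k : I) : Function.Injective (fun l : I => (k, l)) := fun a b h => by
  simpa using congrArg Prod.snd h

lemma col_inj (k : I) : Function.Injective (fun l : I => (l, k)) := fun a b h => by
  simpa using congrArg Prod.fst h

/-- The map from matrices to the space. -/
noncomputable def RR : L1 (I × I) →L[ℂ] Z₀ × L1 (I × I) :=
  (ContinuousLinearMap.inr ℂ Z₀ (L1 (I × I))).comp (pr {p : I × I | p.1 ≠ p.2}) +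
    (lift w 1 hw).comp (pull (fun k : I => (k, k)) diag_inj)

lemma RR_apply (t : L1 (I × I)) : RR w hw t =
    (0, pr {p : I × I | p.1 ≠ p.2} t) + lift w 1 hw (pull (fun k : I => (k, k)) diag_inj t) := rfl

lemma pull_diag_dl (i : I) : pull (fun k : I => (k, k)) diag_inj (dl (i, i)) = dl i := by
  classical
  ext k
  rw [pull_apply, dl_apply, dl_apply]
  by_cases h : k = i <;> simp [h]

lemma pull_diag_dl_ne {i j : I} (h : i ≠ j) :
    pull (fun k : I => (k, k)) diag_inj (dl (i, j)) = 0 := by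
  classical
  ext k
  rw [pull_apply, dl_apply, if_neg]
  · rfl
  · intro h'
    simp only [Prod.mk.injEq] at h'
    exact h (h'.1.symm.trans h'.2)

lemma RR_dl_self (i : I) : RR w hw (dl (i, i)) = w i := by
  classical
  rw [RR_apply, pr_dl, if_neg (by simp), pull_diag_dl, lift_dl]
  simp

lemma lift_snd_apply (x : L1 I) (p : I × I) :
    HasSum (fun k => x k * (w k).2 p) ((lift w 1 hw x).2 p) := by
  have h1 := hasSum_lift w 1 hw x
  have h2 := h1.mapL ((ev p).comp (ContinuousLinearMap.snd ℂ Z₀ (L1 (I × I))))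
  exact h2

lemma RR_snd_apply (t : L1 (I × I)) (p : I × I) :
    (RR w hw t).2 p = pr {p : I × I | p.1 ≠ p.2} t p +
      ∑' k, t (k, k) * (w k).2 p := by
  rw [RR_apply]
  have h := (lift_snd_apply w hw (pull (fun k : I => (k, k)) diag_inj t) p).tsum_eq
  simp only [pull_apply] at h
  rw [h]
  rfl

/-- Finite rank matrices. -/
noncomputable def FR (I : Type) : Submodule ℂ (L1 (I × I)) :=
  Submodule.span ℂ {t | ∃ a b : L1 I, ten a b = t}

lemma FR_rows {t : L1 (I × I)} (ht : t ∈ FR I) :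
    ∃ V : Submodule ℂ (L1 I), FiniteDimensional ℂ V ∧ ∀ k, pull _ (row_inj k) t ∈ V := by
  refine Submodule.span_induction (p := fun t _ => ∃ V : Submodule ℂ (L1 I),
    FiniteDimensional ℂ V ∧ ∀ k, pull _ (row_inj k) t ∈ V) ?_ ?_ ?_ ?_ ht
  · rintro _ ⟨a, b, rfl⟩
    refine ⟨Submodule.span ℂ {b}, inferInstance, fun k => ?_⟩
    have : pull _ (row_inj k) (ten a b) = a k • b := by
      ext l
      rw [pull_apply, ten_apply, lp.coeFn_smul, Pi.smul_apply, smul_eq_mul]
    rw [this]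
    exact Submodule.smul_mem _ _ (Submodule.mem_span_singleton_self b)
  · refine ⟨⊥, inferInstance, fun k => ?_⟩
    rw [map_zero]
    exact Submodule.zero_mem _
  · rintro x y _ _ ⟨V, hV, hx⟩ ⟨W, hW, hy⟩
    refine ⟨V ⊔ W, inferInstance, fun k => ?_⟩
    rw [map_add]
    exact Submodule.add_mem_sup (hx k) (hy k)
  · rintro c x _ ⟨V, hV, hx⟩
    refine ⟨V, hV, fun k => ?_⟩
    rw [map_smul]
    exact V.smul_mem c (hx k)

lemma small_tail (V : Submodule ℂ (L1 I)) [FiniteDimensional ℂ V] {ε : ℝ} (hε : 0 < ε) :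
    ∃ G : Finset I, ∀ v ∈ V, ∀ k ∉ G, ‖v k‖ ≤ ε * ‖v‖ := by
  classical
  have hcomp : IsCompact (Metric.closedBall (0 : V) 1) :=
    have : ProperSpace V := FiniteDimensional.proper ℂ V
    isCompact_closedBall 0 1
  obtain ⟨t, ht, hcov⟩ := Metric.totallyBounded_iff.1 hcomp.totallyBounded (ε / 2) (half_pos hε)
  have h1 : ∀ y : V, ∃ G : Finset I, ∀ k ∉ G, ‖(y : L1 I) k‖ ≤ ε / 2 := by
    intro y
    have := (summable_norm (y : L1 I)).tendsto_cofinite_zero
    have h2 := this.eventually (gt_mem_nhds (half_pos hε))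
    rw [Filter.eventually_cofinite] at h2
    refine ⟨h2.toFinset, fun k hk => ?_⟩
    simp only [Set.Finite.mem_toFinset, Set.mem_ofPred_eq, not_not] at hk
    exact hk.le
  choose G hG using h1
  refine ⟨ht.toFinset.biUnion G, fun v hv k hk => ?_⟩
  by_cases hv0 : ‖v‖ = 0
  · have : v = 0 := norm_eq_zero.1 hv0
    subst this
    simp
  · have hpos : 0 < ‖v‖ := lt_of_le_of_ne (norm_nonneg v) (Ne.symm hv0)
    let u : V := (((‖v‖⁻¹ : ℝ) : ℂ)) • ⟨v, hv⟩
    have hu : u ∈ Metric.closedBall (0 : V) 1 := by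
      rw [mem_closedBall_zero_iff, norm_smul]
      simp only [Complex.norm_real, norm_inv, norm_norm]
      change ‖v‖⁻¹ * ‖v‖ ≤ 1
      rw [inv_mul_cancel₀ hv0]
    have h3 := hcov hu
    simp only [Set.mem_iUnion, exists_prop] at h3
    obtain ⟨y, hy, hyu⟩ := h3
    have hky : k ∉ G y := fun h => hk (Finset.mem_biUnion.2 ⟨y, ht.mem_toFinset.2 hy, h⟩)
    have h4 : ‖(u : L1 I) k‖ ≤ ε := by
      have h5 : (u : L1 I) k = ((u - y : V) : L1 I) k + (y : L1 I) k := by
        simp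
      rw [h5]
      refine (norm_add_le _ _).trans ?_
      have h6 : ‖((u - y : V) : L1 I) k‖ ≤ ε / 2 := by
        refine (norm_coord_le _ k).trans ?_
        rw [Metric.mem_ball, dist_eq_norm] at hyu
        exact hyu.le
      have := hG y k hky
      linarith
    have h7 : (u : L1 I) k = ((‖v‖⁻¹ : ℝ) : ℂ) * v k := rfl
    rw [h7, norm_mul, Complex.norm_real, norm_inv, norm_norm, inv_mul_le_iff₀ hpos] at h4
    linarith [mul_comm ε ‖v‖]

/-- `i` occurs in the vector coded by `k`. -/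
def Below (i k : I) : Prop := ∃ j, (w k).2 (i, j) ≠ 0 ∨ (w k).2 (j, i) ≠ 0

include hw in
open Classical in
lemma tail_est {t : L1 (I × I)} (h0 : (RR w hw t).2 = 0) (T : Set I)
    (hT : ∀ k ∈ T, ‖t (k, k)‖ ≤ (1 / 4) * ‖pull _ (row_inj k) t‖)
    (hup : ∀ k ∈ T, ∀ k', Below w k k' → t (k', k') ≠ 0 → k' ∈ T) :
    ∀ k ∈ T, t (k, k) = 0 := by
  set d : I → ℝ≥0∞ := T.indicator (fun k => ‖t (k, k)‖ₑ) with hd
  -- claim A
  have hA : ∀ k ∈ T, ∀ l, l ≠ k → ‖t (k, l)‖ₑ ≤ ∑' k', d k' * ‖(w k').2 (k, l)‖ₑ := by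
    intro k hk l hl
    have h1 : (RR w hw t).2 (k, l) = 0 := by rw [h0]; rfl
    rw [RR_snd_apply, pr_apply, if_pos (by simpa using hl.symm)] at h1
    rw [eq_neg_of_add_eq_zero_left h1, enorm_neg]
    refine (enorm_tsum_le_tsum_enorm).trans ?_
    refine ENNReal.tsum_le_tsum fun k' => ?_
    rw [enorm_mul]
    by_cases h2 : (w k').2 (k, l) = 0
    · simp [h2]
    · by_cases h3 : t (k', k') = 0
      · simp [h3]
      · have h4 : k' ∈ T := hup k hk k' ⟨l, Or.inl h2⟩ h3
        rw [hd, Set.indicator_of_mem h4]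
  -- claim B
  have hB : ∑' k, T.indicator (fun k => ∑' l, if l = k then 0 else ‖t (k, l)‖ₑ) k ≤ ∑' k, d k := by
    calc ∑' k, T.indicator (fun k => ∑' l, if l = k then 0 else ‖t (k, l)‖ₑ) k
        ≤ ∑' k, ∑' l, ∑' k', d k' * ‖(w k').2 (k, l)‖ₑ := by
          refine ENNReal.tsum_le_tsum fun k => ?_
          by_cases hk : k ∈ T
          · rw [Set.indicator_of_mem hk]
            refine ENNReal.tsum_le_tsum fun l => ?_
            by_cases hl : l = k
            · simp [hl]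
            · rw [if_neg hl]
              exact hA k hk l hl
          · rw [Set.indicator_of_notMem hk]
            exact zero_le
      _ = ∑' p : I × I, ∑' k', d k' * ‖(w k').2 p‖ₑ :=
          (ENNReal.tsum_prod (f := fun k l => ∑' k', d k' * ‖(w k').2 (k, l)‖ₑ)).symm
      _ = ∑' k', ∑' p : I × I, d k' * ‖(w k').2 p‖ₑ := ENNReal.tsum_comm
      _ ≤ ∑' k', d k' := by
          refine ENNReal.tsum_le_tsum fun k' => ?_
          rw [ENNReal.tsum_mul_left, ← enorm_eq_tsum]
          have h5 : ‖(w k').2‖ₑ ≤ 1 := by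
            rw [← ofReal_norm]
            refine ENNReal.ofReal_le_one.2 ?_
            exact (norm_snd_le (w k')).trans (hw k')
          calc d k' * ‖(w k').2‖ₑ ≤ d k' * 1 := by gcongr
            _ = d k' := mul_one _
  -- claim C
  have hC : ∀ k, d k ≤ (1 / 4) * (d k +
      T.indicator (fun k => ∑' l, if l = k then 0 else ‖t (k, l)‖ₑ) k) := by
    intro k
    by_cases hk : k ∈ T
    · rw [hd, Set.indicator_of_mem hk, Set.indicator_of_mem hk]
      have h1 := hT k hk
      have h2 : ‖t (k, k)‖ₑ ≤ (1 / 4) * ‖pull _ (row_inj k) t‖ₑ := by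
        rw [← ofReal_norm, ← ofReal_norm]
        have h3 : (1 / 4 : ℝ≥0∞) = ENNReal.ofReal (1 / 4) := by
          rw [ENNReal.ofReal_div_of_pos (by norm_num)]
          simp
        rw [h3, ← ENNReal.ofReal_mul (by norm_num)]
        exact ENNReal.ofReal_le_ofReal h1
      refine h2.trans ?_
      gcongr
      rw [enorm_eq_tsum]
      simp only [pull_apply]
      have h4 := ENNReal.tsum_eq_add_tsum_ite (f := fun l => ‖t (k, l)‖ₑ) k
      rw [h4]
    · rw [hd, Set.indicator_of_notMem hk]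
      exact zero_le
  have hD : ∑' k, d k ≤ (1 / 2) * ∑' k, d k := by
    calc ∑' k, d k ≤ ∑' k, (1 / 4) * (d k +
        T.indicator (fun k => ∑' l, if l = k then 0 else ‖t (k, l)‖ₑ) k) :=
          ENNReal.tsum_le_tsum hC
      _ = (1 / 4) * (∑' k, d k +
        ∑' k, T.indicator (fun k => ∑' l, if l = k then 0 else ‖t (k, l)‖ₑ) k) := by
          rw [ENNReal.tsum_mul_left, ENNReal.tsum_add]
      _ ≤ (1 / 4) * (∑' k, d k + ∑' k, d k) := by gcongr
      _ = (1 / 2) * ∑' k, d k := by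
          rw [← two_mul, ← mul_assoc]
          congr 1
          rw [one_div, one_div, show (4 : ℝ≥0∞) = 2 * 2 by norm_num,
            ENNReal.mul_inv (by simp) (by simp), mul_assoc,
            ENNReal.inv_mul_cancel (by simp) (by simp), mul_one]
  have hfin : ∑' k, d k ≠ ⊤ := by
    have h1 : ∑' k, d k ≤ ‖pull _ diag_inj t‖ₑ := by
      rw [enorm_eq_tsum]
      refine ENNReal.tsum_le_tsum fun k => ?_
      exact Set.indicator_le_self T _ k
    exact ne_top_of_le_ne_top enorm_ne_top h1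
  have hz : ∑' k, d k = 0 := by
    by_contra hne
    have h1 : (1 / 2) * ∑' k, d k < ∑' k, d k := by
      rw [one_div, mul_comm]
      exact ENNReal.half_lt_self hne hfin
    exact absurd hD (not_le.2 h1)
  intro k hk
  have h1 := (ENNReal.tsum_eq_zero.1 hz) k
  rw [hd, Set.indicator_of_mem hk] at h1
  exact enorm_eq_zero.1 h1

include hw in
theorem tail {t : L1 (I × I)} (ht : t ∈ FR I) (h0 : (RR w hw t).2 = 0) :
    ∃ G : Finset I, (∀ g ∈ G, t (g, g) ≠ 0) ∧ ∀ i j, t (i, j) ≠ 0 →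
      (∃ g ∈ G, Relation.ReflTransGen (Below w) i g) ∧
      (∃ g ∈ G, Relation.ReflTransGen (Below w) j g) := by
  classical
  obtain ⟨V, hV, hrow⟩ := FR_rows ht
  obtain ⟨G₀, hG₀⟩ := small_tail V (ε := 1 / 4) (by norm_num)
  set G : Finset I := G₀.filter (fun g => t (g, g) ≠ 0) with hG
  set T : Set I := {k | t (k, k) ≠ 0 ∧ ∀ g ∈ G, ¬ Relation.ReflTransGen (Below w) k g} with hT
  have hTe := tail_est w hw h0 T (by
    intro k hk
    have hk0 : k ∉ G₀ := fun h =>
      hk.2 k (Finset.mem_filter.2 ⟨h, hk.1⟩) Relation.ReflTransGen.refl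
    exact hG₀ _ (hrow k) k hk0) (by
    intro k hk k' hkk' hk'
    refine ⟨hk', fun g hg hr => ?_⟩
    exact hk.2 g hg (Relation.ReflTransGen.head hkk' hr))
  have hdiag : ∀ k, t (k, k) ≠ 0 → ∃ g ∈ G, Relation.ReflTransGen (Below w) k g := by
    intro k hk
    by_contra hcon
    push Not at hcon
    exact hk (hTe k ⟨hk, hcon⟩)
  refine ⟨G, fun g hg => (Finset.mem_filter.1 hg).2, fun i j hij => ?_⟩
  by_cases hne : i = j
  · subst hne
    exact ⟨hdiag i hij, hdiag i hij⟩
  · have h1 : (RR w hw t).2 (i, j) = 0 := by rw [h0]; rfl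
    rw [RR_snd_apply, pr_apply, if_pos (by simpa using hne)] at h1
    have h2 : ∃ k, t (k, k) * (w k).2 (i, j) ≠ 0 := by
      by_contra hcon
      push Not at hcon
      simp only [hcon, tsum_zero, add_zero] at h1
      exact hij h1
    obtain ⟨k, hk⟩ := h2
    obtain ⟨g, hg, hr⟩ := hdiag k (left_ne_zero_of_mul hk)
    exact ⟨⟨g, hg, Relation.ReflTransGen.head ⟨j, Or.inl (right_ne_zero_of_mul hk)⟩ hr⟩,
      ⟨g, hg, Relation.ReflTransGen.head ⟨i, Or.inr (right_ne_zero_of_mul hk)⟩ hr⟩⟩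

end

end Pool.Agent.Lib_helper37.TwoNorms
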