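import Pool.Agent.Lib_helper37.TwoNorms3

/-! Extension of a linear map whose kernel is the range of a bounded bilinear map. -/

open scoped ENNReal

namespace Pool.Agent.Lib_helper37.TwoNorms

lemma exists_ext {Z₀ Z K : Type} [AddCommGroup Z₀] [Module ℂ Z₀] [AddCommGroup Z] [Module ℂ Z]
    [AddCommGroup K] [Module ℂ K] (ι : Z₀ →ₗ[ℂ] Z) (Φ₀ : Z₀ →ₗ[ℂ] K) (W : Submodule ℂ Z)
    (h : ∀ z, ι z ∈ W → Φ₀ z = 0) :
    ∃ Φ : Z →ₗ[ℂ] K, (∀ z, Φ (ι z) = Φ₀ z) ∧ ∀ x ∈ W, Φ x = 0 := by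
  set g : Z₀ →ₗ[ℂ] Z ⧸ W := W.mkQ.comp ι with hg
  obtain ⟨s, hs⟩ := g.rangeRestrict.exists_rightInverse_of_surjective g.range_rangeRestrict
  obtain ⟨e, he⟩ := LinearMap.exists_extend (Φ₀.comp s)
  refine ⟨e.comp W.mkQ, fun z => ?_, fun x hx => ?_⟩
  · have h1 : e (g z) = Φ₀ (s ⟨g z, ⟨z, rfl⟩⟩) := by
      have := DFunLike.congr_fun he ⟨g z, ⟨z, rfl⟩⟩
      simpa using this
    have h2 : g (s ⟨g z, ⟨z, rfl⟩⟩) = g z := by
      have := DFunLike.congr_fun hs ⟨g z, ⟨z, rfl⟩⟩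
      exact congrArg Subtype.val this
    have h3 : Φ₀ (s ⟨g z, ⟨z, rfl⟩⟩ - z) = 0 := by
      have h4 : g (s ⟨g z, ⟨z, rfl⟩⟩ - z) = 0 := by rw [map_sub, h2, sub_self]
      exact h _ ((Submodule.Quotient.mk_eq_zero W).1 h4)
    rw [map_sub, sub_eq_zero] at h3
    change e (g z) = Φ₀ z
    rw [h1, h3]
  · rw [LinearMap.comp_apply, (Submodule.Quotient.mk_eq_zero W).2 hx |> fun h => (show W.mkQ x = 0
      from h), map_zero]

/-- Matrices supported in `S × S`. -/
noncomputable def SS {I : Type} (S : Set I) : Submodule ℂ (L1 (I × I)) where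
  carrier := {t | ∀ p : I × I, ¬ (p.1 ∈ S ∧ p.2 ∈ S) → t p = 0}
  add_mem' := by
    intro a b ha hb p hp
    rw [lp.coeFn_add, Pi.add_apply, ha p hp, hb p hp, add_zero]
  zero_mem' := by
    intro p _
    rfl
  smul_mem' := by
    intro c a ha p hp
    rw [lp.coeFn_smul, Pi.smul_apply, ha p hp, smul_zero]

lemma mem_SS {I : Type} {S : Set I} {t : L1 (I × I)} :
    t ∈ SS S ↔ ∀ p : I × I, ¬ (p.1 ∈ S ∧ p.2 ∈ S) → t p = 0 := Iff.rfl

lemma SS_mono {I : Type} {S T : Set I} (h : S ⊆ T) : SS S ≤ SS T := by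
  intro t ht p hp
  exact ht p fun h' => hp ⟨h h'.1, h h'.2⟩

lemma ten_mem_FR {I : Type} (a b : L1 I) : ten a b ∈ FR I :=
  Submodule.subset_span ⟨a, b, rfl⟩

lemma pr_mem_FR {I : Type} (S : Set I) {t : L1 (I × I)} (ht : t ∈ FR I) :
    pr {p : I × I | p.1 ∈ S ∧ p.2 ∈ S} t ∈ FR I := by
  classical
  refine Submodule.span_induction (p := fun t _ => pr {p : I × I | p.1 ∈ S ∧ p.2 ∈ S} t ∈ FR I)
    ?_ ?_ ?_ ?_ ht
  · rintro _ ⟨a, b, rfl⟩
    have : pr {p : I × I | p.1 ∈ S ∧ p.2 ∈ S} (ten a b) = ten (pr S a) (pr S b) := by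
      ext ⟨i, j⟩
      rw [pr_apply, ten_apply, ten_apply, pr_apply, pr_apply]
      by_cases h1 : i ∈ S <;> by_cases h2 : j ∈ S <;> simp [h1, h2]
    rw [this]
    exact ten_mem_FR _ _
  · rw [map_zero]; exact Submodule.zero_mem _
  · intro x y _ _ hx hy
    rw [map_add]; exact Submodule.add_mem _ hx hy
  · intro c x _ hx
    rw [map_smul]; exact Submodule.smul_mem _ c hx

section

variable {Z₀ : Type} [NormedAddCommGroup Z₀] [NormedSpace ℂ Z₀] [CompleteSpace Z₀]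
  {I : Type} (w : I → Z₀ × L1 (I × I)) (hw : ∀ i, ‖w i‖ ≤ 1)
  {K : Type} [AddCommGroup K] [Module ℂ K] (Φ₀ : Z₀ →ₗ[ℂ] K)

/-- Consistent sets of indices. -/
def Good (S : Set I) : Prop :=
  (∀ i ∈ S, (w i).2 ∈ SS S) ∧
    ∀ t ∈ FR I ⊓ SS S, (RR w hw t).2 = 0 → Φ₀ (RR w hw t).1 = 0

omit [NormedAddCommGroup Z₀] [NormedSpace ℂ Z₀] [CompleteSpace Z₀] in
lemma mem_of_below {S : Set I} (hS : ∀ i ∈ S, (w i).2 ∈ SS S) {i k : I}
    (h : Relation.ReflTransGen (Below w) i k) (hk : k ∈ S) : i ∈ S := by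
  induction h using Relation.ReflTransGen.head_induction_on with
  | refl => exact hk
  | head h _ ih =>
    obtain ⟨j, hj⟩ := h
    have h1 := hS _ ih
    rcases hj with hj | hj
    · by_contra hcon
      exact hj (h1 _ fun h => hcon h.1)
    · by_contra hcon
      exact hj (h1 _ fun h => hcon h.2)

lemma exists_maximal_good : ∃ S : Set I, Maximal (Good w hw Φ₀) S := by
  classical
  obtain ⟨S, hS⟩ := zorn_subset {S : Set I | Good w hw Φ₀ S} (by
    intro c hc hchain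
    refine ⟨⋃₀ c, ⟨?_, ?_⟩, fun s hs => Set.subset_sUnion_of_mem hs⟩
    · rintro i ⟨s, hs, his⟩
      exact SS_mono (Set.subset_sUnion_of_mem hs) ((hc hs).1 i his)
    · rintro t ⟨htF, htS⟩ h0
      obtain ⟨G, hG, hGt⟩ := tail w hw htF h0
      rcases c.eq_empty_or_nonempty with rfl | ⟨s₀, hs₀⟩
      · have : t = 0 := by
          ext p
          exact htS p (by simp)
        rw [this, map_zero]
        simp
      · have hfin : ∀ G : Finset I, (∀ g ∈ G, g ∈ ⋃₀ c) → ∃ s ∈ c, ∀ g ∈ G, g ∈ s := by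
          intro G
          induction G using Finset.induction_on with
          | empty => intro _; exact ⟨s₀, hs₀, by simp⟩
          | insert a G _ ih =>
            intro h
            obtain ⟨s, hs, hsG⟩ := ih fun g hg => h g (Finset.mem_insert_of_mem hg)
            obtain ⟨s', hs', has'⟩ := h a (Finset.mem_insert_self a G)
            rcases hchain.total hs hs' with hss | hss
            · refine ⟨s', hs', fun g hg => ?_⟩
              rcases Finset.mem_insert.1 hg with rfl | hg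
              · exact has'
              · exact hss (hsG g hg)
            · refine ⟨s, hs, fun g hg => ?_⟩
              rcases Finset.mem_insert.1 hg with rfl | hg
              · exact hss has'
              · exact hsG g hg
        obtain ⟨s, hs, hsG⟩ := hfin G fun g hg => by
          by_contra hcon
          exact hG g hg (htS (g, g) fun h => hcon h.1)
        have hts : t ∈ SS s := by
          rintro ⟨i, j⟩ hp
          by_contra hne
          obtain ⟨⟨g, hg, hig⟩, ⟨g', hg', hjg⟩⟩ := hGt i j hne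
          exact hp ⟨mem_of_below w (hc hs).1 hig (hsG g hg),
            mem_of_below w (hc hs).1 hjg (hsG g' hg')⟩
        exact (hc hs).2 t ⟨htF, hts⟩ h0)
  exact ⟨S, hS⟩

lemma RR_mem_SS {S : Set I} (hS : ∀ i ∈ S, (w i).2 ∈ SS S) {t : L1 (I × I)} (ht : t ∈ SS S) :
    (RR w hw t).2 ∈ SS S := by
  classical
  intro p hp
  rw [RR_snd_apply, pr_apply, ht p hp]
  have : ∀ k, t (k, k) * (w k).2 p = 0 := by
    intro k
    by_cases hk : k ∈ S
    · rw [hS k hk p hp, mul_zero]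
    · rw [ht (k, k) fun h => hk h.1, zero_mul]
  simp [this]

lemma good_maximal_code {S : Set I} (hS : Maximal (Good w hw Φ₀) S)
    (Φ : Z₀ × L1 (I × I) →ₗ[ℂ] K) (hΦ₀ : ∀ z, Φ (z, 0) = Φ₀ z)
    (hΦ : ∀ t ∈ FR I ⊓ SS S, Φ (RR w hw t) = 0) (i₀ : I)
    (hi : (w i₀).2 ∈ SS S) (hi₀ : Φ (w i₀) = 0) : i₀ ∈ S := by
  classical
  by_contra hn
  have hmono : SS S ≤ SS (insert i₀ S) := SS_mono (Set.subset_insert i₀ S)
  have hcl : ∀ i ∈ insert i₀ S, (w i).2 ∈ SS S := by
    rintro i (rfl | h)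
    · exact hi
    · exact hS.prop.1 i h
  have hgood : Good w hw Φ₀ (insert i₀ S) := by
    refine ⟨fun i h => hmono (hcl i h), ?_⟩
    rintro t ⟨htF, htS⟩ h0
    have hsum : ∀ p : I × I, ¬ (p.1 ∈ S ∧ p.2 ∈ S) → ∀ k, t (k, k) * (w k).2 p = 0 := by
      intro p hp k
      by_cases hk : k ∈ insert i₀ S
      · rw [hcl k hk p hp, mul_zero]
      · rw [htS (k, k) fun h => hk h.1, zero_mul]
    have hoff : ∀ p : I × I, ¬ (p.1 ∈ S ∧ p.2 ∈ S) → p.1 ≠ p.2 → t p = 0 := by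
      intro p hp hne
      have h1 : (RR w hw t).2 p = 0 := by rw [h0]; rfl
      rw [RR_snd_apply, pr_apply, if_pos (by exact hne)] at h1
      simpa [hsum p hp] using h1
    have hdec : t = pr {p : I × I | p.1 ∈ S ∧ p.2 ∈ S} t + t (i₀, i₀) • dl (i₀, i₀) := by
      ext p
      rw [lp.coeFn_add, Pi.add_apply, lp.coeFn_smul, Pi.smul_apply, pr_apply, dl_apply]
      by_cases hp : p.1 ∈ S ∧ p.2 ∈ S
      · have hne : p ≠ (i₀, i₀) := by
          rintro rfl
          exact hn hp.1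
        rw [if_pos (by exact hp), if_neg hne, smul_zero, add_zero]
      · rw [if_neg (by exact hp), zero_add]
        by_cases hne : p.1 = p.2
        · by_cases h : p = (i₀, i₀)
          · rw [if_pos h, h]; simp
          · rw [if_neg h, smul_zero]
            refine htS p fun h' => ?_
            rcases h'.1 with h1 | h1
            · exact h (Prod.ext h1 (hne.symm.trans h1))
            · exact hp ⟨h1, hne ▸ h1⟩
        · have h : p ≠ (i₀, i₀) := by
            rintro rfl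
            exact hne rfl
          rw [if_neg h, smul_zero]
          exact hoff p hp hne
    have hmem : pr {p : I × I | p.1 ∈ S ∧ p.2 ∈ S} t ∈ FR I ⊓ SS S := by
      refine ⟨pr_mem_FR S htF, ?_⟩
      intro p hp
      rw [pr_apply, if_neg (by exact hp)]
    have h1 : Φ (RR w hw t) = 0 := by
      rw [hdec, map_add, map_add, hΦ _ hmem, zero_add, map_smul, map_smul, RR_dl_self, hi₀,
        smul_zero]
    rw [← hΦ₀, ← h1]
    congr 1
    exact Prod.ext rfl h0.symm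
  exact hn (hS.le_of_ge hgood (Set.subset_insert i₀ S) (Set.mem_insert i₀ S))

end

/-- The main extension lemma. -/
theorem extension {Z₀ : Type} [NormedAddCommGroup Z₀] [NormedSpace ℂ Z₀] [CompleteSpace Z₀]
    {K : Type} [AddCommGroup K] [Module ℂ K] (Φ₀ : Z₀ →ₗ[ℂ] K) :
    ∃ (I : Type) (Φ : Z₀ × L1 (I × I) →ₗ[ℂ] K) (m : L1 I →L[ℂ] L1 I →L[ℂ] Z₀ × L1 (I × I)),
      (∀ z, Φ (z, 0) = Φ₀ z) ∧ (∀ a b, Φ (m a b) = 0) ∧
      ∀ z, Φ z = 0 → ‖z‖ ≤ 1 → ∃ i, m (dl i) (dl i) = z := by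
  classical
  obtain ⟨I, _, w, hw, hcode⟩ := exists_coding Z₀
  obtain ⟨S, hS⟩ := exists_maximal_good w hw Φ₀
  obtain ⟨Φ, hΦ₀, hΦ⟩ := exists_ext (LinearMap.inl ℂ Z₀ (L1 (I × I))) Φ₀
    ((FR I ⊓ SS S).map (RR w hw : L1 (I × I) →ₗ[ℂ] Z₀ × L1 (I × I))) (by
      rintro z ⟨t, ht, htz⟩
      have h1 : RR w hw t = (z, 0) := htz
      have h2 := hS.prop.2 t ht (by rw [h1])
      rwa [h1] at h2)
  have hΦ' : ∀ t ∈ FR I ⊓ SS S, Φ (RR w hw t) = 0 := fun t ht => hΦ _ ⟨t, ht, rfl⟩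
  set j : S → I := Subtype.val with hj
  set jj : S × S → I × I := fun p => (p.1, p.2) with hjj
  have hjinj : Function.Injective j := Subtype.val_injective
  have hjjinj : Function.Injective jj := by
    rintro ⟨a, b⟩ ⟨c, d⟩ h
    simp only [hjj, Prod.mk.injEq] at h
    exact Prod.ext (Subtype.ext h.1) (Subtype.ext h.2)
  have hrange : ∀ p : I × I, p ∈ Set.range jj ↔ p.1 ∈ S ∧ p.2 ∈ S := by
    intro p
    constructor
    · rintro ⟨q, rfl⟩
      exact ⟨q.1.2, q.2.2⟩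
    · rintro ⟨h1, h2⟩
      exact ⟨(⟨p.1, h1⟩, ⟨p.2, h2⟩), rfl⟩
  have hpush : ∀ t : L1 (S × S), push jj t ∈ SS S := by
    intro t p hp
    exact push_apply_of_notMem jj t p fun h => hp ((hrange p).1 h)
  have hpushten : ∀ a b : L1 S, push jj (ten a b) = ten (push j a) (push j b) := by
    intro a b
    ext ⟨p, q⟩
    by_cases h : (p, q) ∈ Set.range jj
    · obtain ⟨⟨p', q'⟩, hpq⟩ := h
      rw [← hpq, push_apply jj hjjinj]
      change a p' * b q' = push j a (j p') * push j b (j q')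
      rw [push_apply j hjinj, push_apply j hjinj]
    · rw [push_apply_of_notMem jj _ _ h, ten_apply]
      rw [hrange] at h
      by_cases hp : p ∈ S
      · have hq : q ∉ Set.range j := by
          rintro ⟨x, hx⟩
          exact h ⟨hp, hx ▸ x.2⟩
        rw [push_apply_of_notMem j b q hq, mul_zero]
      · have hp' : p ∉ Set.range j := by
          rintro ⟨x, hx⟩
          exact hp (hx ▸ x.2)
        rw [push_apply_of_notMem j a p hp', zero_mul]
  let T : Z₀ × L1 (I × I) →L[ℂ] Z₀ × L1 (S × S) :=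
    (ContinuousLinearMap.id ℂ Z₀).prodMap (pull jj hjjinj)
  let inc : Z₀ × L1 (S × S) →L[ℂ] Z₀ × L1 (I × I) :=
    (ContinuousLinearMap.id ℂ Z₀).prodMap (push jj)
  have hincT : ∀ x : Z₀ × L1 (I × I), x.2 ∈ SS S → inc (T x) = x := by
    intro x hx
    refine Prod.ext rfl ?_
    change push jj (pull jj hjjinj x.2) = x.2
    exact push_pull jj hjjinj x.2 fun b hb => hx b fun h => hb ((hrange b).2 h)
  have hTinc : ∀ x : Z₀ × L1 (S × S), T (inc x) = x := by
    intro x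
    refine Prod.ext rfl ?_
    exact pull_push jj hjjinj x.2
  let m : L1 S →L[ℂ] L1 S →L[ℂ] Z₀ × L1 (S × S) :=
    (ContinuousLinearMap.compL ℂ (L1 S) (L1 (S × S)) (Z₀ × L1 (S × S))
      ((T.comp (RR w hw)).comp (push jj))).comp (tenL S S)
  have hm : ∀ a b, m a b = T (RR w hw (push jj (ten a b))) := fun a b => rfl
  refine ⟨S, Φ.comp (inc : Z₀ × L1 (S × S) →ₗ[ℂ] Z₀ × L1 (I × I)), m, ?_, ?_, ?_⟩
  · intro z
    rw [← hΦ₀]
    change Φ (z, push jj 0) = Φ (z, 0)
    rw [map_zero]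
  · intro a b
    change Φ (inc (m a b)) = 0
    rw [hm, hincT _ (RR_mem_SS w hw hS.prop.1 (hpush _))]
    refine hΦ' _ ⟨?_, hpush _⟩
    rw [hpushten]
    exact ten_mem_FR _ _
  · intro z hz hz1
    have h1 : ‖inc z‖ ≤ 1 := by
      rw [Prod.norm_def] at hz1 ⊢
      refine max_le ((le_max_left _ _).trans hz1) ?_
      exact (norm_push_le jj z.2).trans ((le_max_right _ _).trans hz1)
    obtain ⟨i, hi⟩ := hcode (inc z) h1
    have hiS : i ∈ S := by
      refine good_maximal_code w hw Φ₀ hS Φ hΦ₀ hΦ' i ?_ ?_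
      · rw [hi]; exact hpush _
      · rw [hi]; exact hz
    refine ⟨⟨i, hiS⟩, ?_⟩
    rw [hm, ten_dl, push_dl]
    change T (RR w hw (dl (i, i))) = z
    rw [RR_dl_self, hi, hTinc]

end Pool.Agent.Lib_helper37.TwoNorms
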