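import Pool.Agent.Lib_helper37.TwoNorms4

/-! The two Banach spaces with their dense subspaces. -/

open scoped ENNReal

namespace Pool.Agent.Lib_helper37.TwoNorms

lemma linearIndependent_dl (ι : Type) : LinearIndependent ℂ (fun i : ι => dl i) := by
  classical
  rw [linearIndependent_iff']
  intro s g hg i hi
  have h1 := congrArg (fun x : L1 ι => ev i x) hg
  simp only [map_sum, map_smul, ev_apply, dl_apply, map_zero] at h1
  rw [Finset.sum_eq_single i] at h1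
  · simpa using h1
  · intro j _ hj
    rw [if_neg hj.symm, smul_zero]
  · intro h; exact absurd hi h

lemma exists_functional {ι : Type} (c : ι → ℂ) : ∃ f : L1 ι →ₗ[ℂ] ℂ, ∀ i, f (dl i) = c i := by
  have h := linearIndependent_dl ι
  obtain ⟨g, hg⟩ := (Finsupp.linearCombination ℂ (fun i : ι => dl i)).exists_leftInverse_of_injective
    (LinearMap.ker_eq_bot.2 h)
  refine ⟨(Finsupp.linearCombination ℂ c).comp g, fun i => ?_⟩
  have h1 := DFunLike.congr_fun hg (Finsupp.single i 1)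
  simp only [LinearMap.comp_apply, Finsupp.linearCombination_single, one_smul,
    LinearMap.id_apply] at h1
  rw [LinearMap.comp_apply, h1, Finsupp.linearCombination_single, one_smul]

theorem exists_U : ∃ (Γ : Type) (g₁ g₂ : Γ) (f : L1 Γ →ₗ[ℂ] ℂ) (I : Type)
    (m : L1 I →L[ℂ] L1 I →L[ℂ] L1 Γ),
    g₁ ≠ g₂ ∧ f (dl g₁) = 1 ∧ f (dl g₂) = 1 ∧ Dense (LinearMap.ker f : Set (L1 Γ)) ∧
    (∀ a b, f (m a b) = 0) ∧ ∀ z, f z = 0 → ‖z‖ ≤ 1 → ∃ i, m (dl i) (dl i) = z := by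
  classical
  obtain ⟨f₀, hf₀⟩ := exists_functional (fun n : ℕ => if n ≤ 1 then (1 : ℂ) else n)
  obtain ⟨I, f', m₁, hf', hm₁, hm₁'⟩ := extension f₀
  let e : L1 ℕ × L1 (I × I) →L[ℂ] L1 (ℕ ⊕ I × I) := (push Sum.inl).coprod (push Sum.inr)
  let e' : L1 (ℕ ⊕ I × I) →L[ℂ] L1 ℕ × L1 (I × I) :=
    (pull Sum.inl Sum.inl_injective).prod (pull Sum.inr Sum.inr_injective)
  have he : ∀ x, e' (e x) = x := by
    intro x
    have h1 : ∀ a : ℕ, (e x) (Sum.inl a) = x.1 a := by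
      intro a
      change (push Sum.inl x.1) (Sum.inl a) + (push Sum.inr x.2) (Sum.inl a) = x.1 a
      rw [push_apply _ Sum.inl_injective, push_apply_of_notMem _ _ _ (by simp), add_zero]
    have h2 : ∀ a : I × I, (e x) (Sum.inr a) = x.2 a := by
      intro a
      change (push Sum.inl x.1) (Sum.inr a) + (push Sum.inr x.2) (Sum.inr a) = x.2 a
      rw [push_apply _ Sum.inr_injective, push_apply_of_notMem _ _ _ (by simp), zero_add]
    refine Prod.ext ?_ ?_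
    · ext a; exact h1 a
    · ext a; exact h2 a
  have he' : ∀ x, e (e' x) = x := by
    intro x
    ext a
    rcases a with a | a
    · change (push Sum.inl (e' x).1) (Sum.inl a) + (push Sum.inr (e' x).2) (Sum.inl a) = _
      rw [push_apply _ Sum.inl_injective, push_apply_of_notMem _ _ _ (by simp), add_zero]
      rfl
    · change (push Sum.inl (e' x).1) (Sum.inr a) + (push Sum.inr (e' x).2) (Sum.inr a) = _
      rw [push_apply _ Sum.inr_injective, push_apply_of_notMem _ _ _ (by simp), zero_add]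
      rfl
  let f : L1 (ℕ ⊕ I × I) →ₗ[ℂ] ℂ := f'.comp (e' : L1 (ℕ ⊕ I × I) →ₗ[ℂ] L1 ℕ × L1 (I × I))
  have hf : ∀ n : ℕ, f (dl (Sum.inl n)) = if n ≤ 1 then (1 : ℂ) else n := by
    intro n
    have h1 : e (dl n, 0) = dl (Sum.inl n) := by
      change push Sum.inl (dl n) + push Sum.inr 0 = _
      rw [push_dl, map_zero, add_zero]
    change f' (e' (dl (Sum.inl n))) = _
    rw [← h1, he, hf', hf₀]
  have hker : Dense (LinearMap.ker f : Set (L1 (ℕ ⊕ I × I))) := by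
    rcases f.isClosed_or_dense_ker with hcl | hd
    · exfalso
      have hcont : Continuous f := f.continuous_iff_isClosed_ker.2 hcl
      let F : L1 (ℕ ⊕ I × I) →L[ℂ] ℂ := ⟨f, hcont⟩
      obtain ⟨n, hn⟩ := exists_nat_gt (max ‖F‖ 1)
      have h1 : ‖F (dl (Sum.inl n))‖ ≤ ‖F‖ * ‖dl (Sum.inl n : ℕ ⊕ I × I)‖ := F.le_opNorm _
      have h2 : F (dl (Sum.inl n)) = n := by
        change f (dl (Sum.inl n)) = n
        rw [hf, if_neg]
        intro hle
        have : (n : ℝ) ≤ 1 := by exact_mod_cast hle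
        linarith [le_max_right ‖F‖ 1]
      rw [h2, norm_dl, mul_one, Complex.norm_natCast] at h1
      linarith [le_max_left ‖F‖ 1]
    · exact hd
  refine ⟨ℕ ⊕ I × I, Sum.inl 0, Sum.inl 1, f, I, (ContinuousLinearMap.compL ℂ _ _ _ e).comp m₁,
    by simp, ?_, ?_, hker, ?_, ?_⟩
  · rw [hf]; simp
  · rw [hf]; simp
  · intro a b
    change f' (e' (e (m₁ a b))) = 0
    rw [he, hm₁]
  · intro z hz hz1
    obtain ⟨i, hi⟩ := hm₁' (e' z) hz (by
      rw [Prod.norm_def]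
      exact max_le ((norm_pull_le _ _ z).trans hz1) ((norm_pull_le _ _ z).trans hz1))
    refine ⟨i, ?_⟩
    change e (m₁ (dl i) (dl i)) = z
    rw [hi, he']

section

variable {Γ : Type} (g₁ g₂ : Γ) (hg : g₁ ≠ g₂) (f : L1 Γ →ₗ[ℂ] ℂ)

/-- The two forbidden coordinates. -/
def BB : Set (Γ × Γ) := {(g₁, g₂), (g₂, g₁)}

/-- Row and column `g`. -/
def RC (g : Γ) : Set (Γ × Γ) := {p | (p.1 = g ∨ p.2 = g) ∧ p ∉ BB g₁ g₂}

/-- The truncated tensor map. -/
noncomputable def b0 : L1 Γ →L[ℂ] L1 Γ →L[ℂ] L1 (Γ × Γ) :=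
  (ContinuousLinearMap.compL ℂ _ _ _ (pr (BB g₁ g₂)ᶜ)).comp (tenL Γ Γ)

lemma b0_apply (x y : L1 Γ) : b0 g₁ g₂ x y = pr (BB g₁ g₂)ᶜ (ten x y) := rfl

open Classical in
lemma b0_apply' (x y : L1 Γ) (p : Γ × Γ) :
    b0 g₁ g₂ x y p = if p ∈ BB g₁ g₂ then 0 else x p.1 * y p.2 := by
  rw [b0_apply, pr_apply, ten_apply']
  by_cases h : p ∈ BB g₁ g₂ <;> simp [h]

lemma b0_swap : b0 g₁ g₂ = b0 g₂ g₁ := by
  unfold b0
  have : BB g₁ g₂ = BB g₂ g₁ := Set.pair_comm _ _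
  rw [this]

lemma b0_dl : b0 g₁ g₂ (dl g₁) (dl g₂) = 0 := by
  classical
  rw [b0_apply, ten_dl, pr_dl, if_neg]
  simp [BB]

lemma b0_dl' : b0 g₁ g₂ (dl g₂) (dl g₁) = 0 := by
  rw [b0_swap, b0_dl]

/-- Matrices supported on row and column `g`. -/
noncomputable def KK (g : Γ) : Submodule ℂ (L1 (Γ × Γ)) where
  carrier := {t | ∀ p : Γ × Γ, p ∉ RC g₁ g₂ g → t p = 0}
  add_mem' := by
    intro a b ha hb p hp
    rw [lp.coeFn_add, Pi.add_apply, ha p hp, hb p hp, add_zero]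
  zero_mem' := by
    intro p _
    rfl
  smul_mem' := by
    intro c a ha p hp
    rw [lp.coeFn_smul, Pi.smul_apply, ha p hp, smul_zero]

/-- The span of the truncated tensors of elements of the kernel of `f`. -/
noncomputable def YY : Submodule ℂ (L1 (Γ × Γ)) :=
  Submodule.span ℂ {t | ∃ x y : L1 Γ, f x = 0 ∧ f y = 0 ∧ b0 g₁ g₂ x y = t}

lemma b0_mem_YY {x y : L1 Γ} (hx : f x = 0) (hy : f y = 0) : b0 g₁ g₂ x y ∈ YY g₁ g₂ f :=
  Submodule.subset_span ⟨x, y, hx, hy, rfl⟩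

lemma b0_left_mem_KK {g : Γ} (y : L1 Γ) : b0 g₁ g₂ (dl g) y ∈ KK g₁ g₂ g := by
  classical
  intro p hp
  rw [b0_apply']
  by_cases h : p ∈ BB g₁ g₂
  · rw [if_pos h]
  · rw [if_neg h, dl_apply, if_neg, zero_mul]
    intro h'
    exact hp ⟨Or.inl h', h⟩

lemma b0_right_mem_KK {g : Γ} (x : L1 Γ) : b0 g₁ g₂ x (dl g) ∈ KK g₁ g₂ g := by
  classical
  intro p hp
  rw [b0_apply']
  by_cases h : p ∈ BB g₁ g₂
  · rw [if_pos h]
  · rw [if_neg h, dl_apply, if_neg, mul_zero]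
    intro h'
    exact hp ⟨Or.inr h', h⟩

/-- Every matrix supported on row and column `g` is a sum of two tensors. -/
lemma KK_decomp {g : Γ} {z : L1 (Γ × Γ)} (hz : z ∈ KK g₁ g₂ g) :
    ∃ x y : L1 Γ, z = b0 g₁ g₂ (dl g) y + b0 g₁ g₂ x (dl g) := by
  classical
  refine ⟨pr {g}ᶜ (pull _ (col_inj g) z), pull _ (row_inj g) z, ?_⟩
  ext ⟨p, q⟩
  rw [lp.coeFn_add, Pi.add_apply, b0_apply', b0_apply', pr_apply, pull_apply, pull_apply,
    dl_apply, dl_apply]
  by_cases hB : (p, q) ∈ BB g₁ g₂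
  · rw [if_pos hB, if_pos hB, add_zero]
    exact hz _ fun h => h.2 hB
  · rw [if_neg hB, if_neg hB]
    by_cases hp : p = g
    · subst hp
      simp
    · by_cases hq : q = g
      · subst hq
        simp [hp]
      · simp only [hp, hq, if_false, zero_mul, mul_zero, add_zero]
        exact hz _ fun h => h.1.elim hp hq

end

end Pool.Agent.Lib_helper37.TwoNorms
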