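import Pool.Agent.Lib_helper37.TwoNorms5

/-! The complement of the two row-and-column spaces. -/

open scoped ENNReal

namespace Pool.Agent.Lib_helper37.TwoNorms

section

variable {Γ : Type} (g₁ g₂ : Γ) (f : L1 Γ →ₗ[ℂ] ℂ)

lemma YY_lift {t : L1 (Γ × Γ)} (ht : t ∈ YY g₁ g₂ f) :
    ∃ s : L1 (Γ × Γ), pr (BB g₁ g₂)ᶜ s = t ∧ (∀ g, f (pull _ (row_inj g) s) = 0) ∧
      ∀ g, f (pull _ (col_inj g) s) = 0 := by
  refine Submodule.span_induction (p := fun t _ => ∃ s : L1 (Γ × Γ), pr (BB g₁ g₂)ᶜ s = t ∧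
    (∀ g, f (pull _ (row_inj g) s) = 0) ∧ ∀ g, f (pull _ (col_inj g) s) = 0) ?_ ?_ ?_ ?_ ht
  · rintro _ ⟨x, y, hx, hy, rfl⟩
    refine ⟨ten x y, rfl, fun g => ?_, fun g => ?_⟩
    · have : pull _ (row_inj g) (ten x y) = x g • y := by
        ext l
        rw [pull_apply, ten_apply, lp.coeFn_smul, Pi.smul_apply, smul_eq_mul]
      rw [this, map_smul, hy, smul_zero]
    · have : pull _ (col_inj g) (ten x y) = y g • x := by
        ext l
        rw [pull_apply, ten_apply, lp.coeFn_smul, Pi.smul_apply, smul_eq_mul, mul_comm]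
      rw [this, map_smul, hx, smul_zero]
  · exact ⟨0, by simp, by simp, by simp⟩
  · rintro x y _ _ ⟨s, hs, hs1, hs2⟩ ⟨s', hs', hs1', hs2'⟩
    refine ⟨s + s', by rw [map_add, hs, hs'], fun g => ?_, fun g => ?_⟩
    · rw [map_add, map_add, hs1, hs1', add_zero]
    · rw [map_add, map_add, hs2, hs2', add_zero]
  · rintro c x _ ⟨s, hs, hs1, hs2⟩
    refine ⟨c • s, by rw [map_smul, hs], fun g => ?_, fun g => ?_⟩
    · rw [map_smul, map_smul, hs1, smul_zero]
    · rw [map_smul, map_smul, hs2, smul_zero]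

lemma eq_smul_dl {g : Γ} {x : L1 Γ} (h : ∀ l, l ≠ g → x l = 0) : x = x g • dl g := by
  classical
  ext l
  rw [lp.coeFn_smul, Pi.smul_apply, dl_apply]
  by_cases hl : l = g
  · subst hl; simp
  · rw [if_neg hl, h l hl, smul_zero]

lemma apply_zero_of_supp {g : Γ} (hfg : f (dl g) = 1) {x : L1 Γ} (h : ∀ l, l ≠ g → x l = 0)
    (hx : f x = 0) : x g = 0 := by
  rw [eq_smul_dl h, map_smul, hfg] at hx
  simpa using hx

lemma YY_inf_KK {g : Γ} (hg : g = g₁ ∨ g = g₂) (hfg : f (dl g) = 1) {t : L1 (Γ × Γ)}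
    (ht : t ∈ YY g₁ g₂ f) (ht' : t ∈ KK g₁ g₂ g) : t = 0 := by
  classical
  obtain ⟨s, rfl, hrow, hcol⟩ := YY_lift g₁ g₂ f ht
  have hsupp : ∀ p : Γ × Γ, p.1 ≠ g → p.2 ≠ g → s p = 0 := by
    intro p h1 h2
    have hB : p ∉ BB g₁ g₂ := by
      rintro (rfl | h)
      · rcases hg with rfl | rfl
        · exact h1 rfl
        · exact h2 rfl
      · rw [Set.mem_singleton_iff] at h
        subst h
        rcases hg with rfl | rfl
        · exact h2 rfl
        · exact h1 rfl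
    have h3 := ht' p fun h => h.1.elim h1 h2
    rwa [pr_apply, if_pos (by exact hB)] at h3
  have hc : ∀ l, l ≠ g → s (g, l) = 0 := by
    intro l hl
    have := apply_zero_of_supp f hfg (x := pull _ (col_inj l) s)
      (fun l' hl' => hsupp (l', l) hl' hl) (hcol l)
    exact this
  have hr : ∀ l, l ≠ g → s (l, g) = 0 := by
    intro l hl
    have := apply_zero_of_supp f hfg (x := pull _ (row_inj l) s)
      (fun l' hl' => hsupp (l, l') hl hl') (hrow l)
    exact this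
  have hgg : s (g, g) = 0 := by
    have := apply_zero_of_supp f hfg (x := pull _ (row_inj g) s)
      (fun l' hl' => hc l' hl') (hrow g)
    exact this
  have hs : s = 0 := by
    ext ⟨p, q⟩
    by_cases hp : p = g
    · by_cases hq : q = g
      · subst hp; subst hq; exact hgg
      · subst hp; exact hc q hq
    · by_cases hq : q = g
      · subst hq; exact hr p hp
      · exact hsupp (p, q) hp hq
  rw [hs, map_zero]

lemma KK_swap (g : Γ) : KK g₁ g₂ g = KK g₂ g₁ g := by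
  have h : RC g₁ g₂ g = RC g₂ g₁ g := by
    unfold RC
    have : BB g₁ g₂ = BB g₂ g₁ := Set.pair_comm _ _
    rw [this]
  ext t
  change (∀ p, p ∉ RC g₁ g₂ g → t p = 0) ↔ (∀ p, p ∉ RC g₂ g₁ g → t p = 0)
  rw [h]

lemma YY_swap : YY g₁ g₂ f = YY g₂ g₁ f := by
  unfold YY
  rw [b0_swap]

lemma KK_le (h1 : f (dl g₁) = 1) (h2 : f (dl g₂) = 1) :
    KK g₁ g₂ g₁ ≤ YY g₁ g₂ f ⊔ KK g₁ g₂ g₂ := by
  intro z hz
  obtain ⟨x, y, rfl⟩ := KK_decomp g₁ g₂ hz
  have hy : b0 g₁ g₂ (dl g₁) y = b0 g₁ g₂ (dl g₁ - dl g₂) (y - f y • dl g₂) +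
      b0 g₁ g₂ (dl g₂) (y - f y • dl g₂) := by
    have h3 := b0_dl g₁ g₂
    rw [map_sub (b0 g₁ g₂) (dl g₁) (dl g₂), sub_apply, sub_add_cancel,
      map_sub, map_smul, h3, smul_zero, sub_zero]
  have hx : b0 g₁ g₂ x (dl g₁) = b0 g₁ g₂ (x - f x • dl g₂) (dl g₁ - dl g₂) +
      b0 g₁ g₂ (x - f x • dl g₂) (dl g₂) := by
    have h3 := b0_dl' g₁ g₂
    rw [map_sub (b0 g₁ g₂ (x - f x • dl g₂)) (dl g₁) (dl g₂), sub_add_cancel,
      map_sub, map_smul, sub_apply, smul_apply,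
      h3, smul_zero, sub_zero]
  have hd : f (dl g₁ - dl g₂) = 0 := by rw [map_sub, h1, h2, sub_self]
  have hy' : f (y - f y • dl g₂) = 0 := by rw [map_sub, map_smul, h2]; simp
  have hx' : f (x - f x • dl g₂) = 0 := by rw [map_sub, map_smul, h2]; simp
  refine Submodule.add_mem _ ?_ ?_
  · rw [hy]
    exact Submodule.add_mem_sup (b0_mem_YY _ _ _ hd hy') (b0_left_mem_KK _ _ _)
  · rw [hx]
    exact Submodule.add_mem_sup (b0_mem_YY _ _ _ hx' hd) (b0_right_mem_KK _ _ _)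

lemma exists_M0 (h1 : f (dl g₁) = 1) (h2 : f (dl g₂) = 1) :
    ∃ M : Submodule ℂ (L1 (Γ × Γ)), YY g₁ g₂ f ≤ M ∧ IsCompl M (KK g₁ g₂ g₁) ∧
      IsCompl M (KK g₁ g₂ g₂) := by
  have hle1 := KK_le g₁ g₂ f h1 h2
  have hle2 := KK_le g₂ g₁ f h2 h1
  rw [YY_swap g₂ g₁, KK_swap g₂ g₁, KK_swap g₂ g₁] at hle2
  have hQ : YY g₁ g₂ f ⊔ KK g₁ g₂ g₁ = YY g₁ g₂ f ⊔ KK g₁ g₂ g₂ :=
    le_antisymm (sup_le le_sup_left hle1) (sup_le le_sup_left hle2)
  obtain ⟨W, hW⟩ := Submodule.exists_isCompl (YY g₁ g₂ f ⊔ KK g₁ g₂ g₁)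
  have key : ∀ g, (g = g₁ ∨ g = g₂) → f (dl g) = 1 →
      YY g₁ g₂ f ⊔ KK g₁ g₂ g = YY g₁ g₂ f ⊔ KK g₁ g₂ g₁ →
      IsCompl (YY g₁ g₂ f ⊔ W) (KK g₁ g₂ g) := by
    intro g hg hfg hQg
    constructor
    · rw [Submodule.disjoint_def]
      intro x hx hx'
      obtain ⟨y, hy, w, hw, rfl⟩ := Submodule.mem_sup.1 hx
      have hwQ : w ∈ YY g₁ g₂ f ⊔ KK g₁ g₂ g₁ := by
        rw [← hQg]
        have : w = (y + w) - y := by abel
        rw [this]
        exact Submodule.sub_mem _ (Submodule.mem_sup_right hx') (Submodule.mem_sup_left hy)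
      have hw0 : w = 0 := Submodule.disjoint_def.1 hW.disjoint w hwQ hw
      rw [hw0, add_zero] at hx' ⊢
      exact YY_inf_KK g₁ g₂ f hg hfg hy hx'
    · rw [codisjoint_iff]
      have h3 := hW.sup_eq_top
      rw [← hQg] at h3
      rw [← h3]
      ac_rfl
  exact ⟨YY g₁ g₂ f ⊔ W, le_sup_left, key g₁ (Or.inl rfl) h1 rfl, key g₂ (Or.inr rfl) h2 hQ.symm⟩

end

/-- The data from which the algebra is built. -/
structure Sys (U Z E : Type) [NormedAddCommGroup U] [NormedSpace ℂ U] [NormedAddCommGroup Z]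
    [NormedSpace ℂ Z] [NormedAddCommGroup E] [NormedSpace ℂ E] where
  N : Submodule ℂ U
  M : Submodule ℂ Z
  b : U →L[ℂ] U →L[ℂ] Z
  mn : E →L[ℂ] E →L[ℂ] U
  mz : E →L[ℂ] E →L[ℂ] Z
  pg : E →L[ℂ] E →L[ℂ] ℂ
  u : Bool → U
  pU : Bool → U →L[ℂ] U
  pZ : Bool → Z →L[ℂ] Z
  hN : Dense (N : Set U)
  hb : ∀ x ∈ N, ∀ y ∈ N, b x y ∈ M
  hb0 : ∀ x ∈ N, ∀ y ∈ N, b x y = 0 → x = 0 ∨ y = 0
  hbu : ∀ k, b (u k) (u !k) = 0
  hu : u true - u false ∈ N
  hune : u true ≠ u false
  hmn : ∀ a b, mn a b ∈ N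
  hmn' : ∀ z ∈ N, ‖z‖ ≤ 1 → ∃ a b, ‖a‖ ≤ 1 ∧ ‖b‖ ≤ 1 ∧ mn a b = z
  hmz : ∀ a b, mz a b ∈ M
  hmz' : ∀ z ∈ M, ‖z‖ ≤ 1 → ∃ a b, ‖a‖ ≤ 1 ∧ ‖b‖ ≤ 1 ∧ mz a b = z
  hpg : ∀ a, (∀ b, pg a b = 0) → a = 0
  hpg' : ∀ b, (∀ a, pg a b = 0) → b = 0
  pU_sub : ∀ k x, ∃ c : ℂ, x - pU k x = c • u k
  pU_u : ∀ k, pU k (u k) = 0
  pU_inj : ∀ k, ∀ x ∈ N, pU k x = 0 → x = 0
  pU_surj : ∀ k x, ∃ y ∈ N, pU k y = pU k x
  pZ_b : ∀ k y, pZ k (b (u k) y) = 0
  pZ_b' : ∀ k x, pZ k (b x (u k)) = 0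
  pZ_sub : ∀ k z, ∃ x y, z - pZ k z = b (u k) y + b x (u k)
  pZ_inj : ∀ k, ∀ z ∈ M, pZ k z = 0 → z = 0
  pZ_surj : ∀ k z, ∃ y ∈ M, pZ k y = pZ k z

lemma one_bd (I : Type) : ∀ _ : I, ‖(1 : ℂ)‖ ≤ 1 := fun _ => by simp

/-- The sum functional. -/
noncomputable def sm (I : Type) : L1 I →L[ℂ] ℂ := lift (fun _ : I => (1 : ℂ)) 1 (one_bd I)

lemma sm_dl {I : Type} (i : I) : sm I (dl i) = 1 := lift_dl _ _ _ _

/-- The pairing of two summable families. -/
noncomputable def dp (I : Type) : L1 I →L[ℂ] L1 I →L[ℂ] ℂ :=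
  (ContinuousLinearMap.compL ℂ _ _ _
    ((sm I).comp (pull (fun k : I => (k, k)) diag_inj))).comp (tenL I I)

lemma dp_dl {I : Type} (a : L1 I) (i : I) : dp I a (dl i) = a i := by
  classical
  have h : pull (fun k : I => (k, k)) diag_inj (ten a (dl i)) = a i • dl i := by
    ext k
    rw [pull_apply, ten_apply, lp.coeFn_smul, Pi.smul_apply, dl_apply]
    by_cases hk : k = i
    · subst hk; simp
    · simp [hk]
  change sm I (pull (fun k : I => (k, k)) diag_inj (ten a (dl i))) = _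
  rw [h, map_smul, sm_dl, smul_eq_mul, mul_one]

lemma dp_dl' {I : Type} (a : L1 I) (i : I) : dp I (dl i) a = a i := by
  classical
  have h : pull (fun k : I => (k, k)) diag_inj (ten (dl i) a) = a i • dl i := by
    ext k
    rw [pull_apply, ten_apply, lp.coeFn_smul, Pi.smul_apply, dl_apply]
    by_cases hk : k = i
    · subst hk; simp
    · simp [hk]
  change sm I (pull (fun k : I => (k, k)) diag_inj (ten (dl i) a)) = _
  rw [h, map_smul, sm_dl, smul_eq_mul, mul_one]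

lemma sub_pr_singleton {Γ : Type} (g : Γ) (x : L1 Γ) : x - pr {g}ᶜ x = x g • dl g := by
  classical
  ext l
  rw [lp.coeFn_sub, Pi.sub_apply, pr_apply, lp.coeFn_smul, Pi.smul_apply, dl_apply]
  by_cases hl : l = g
  · subst hl; simp
  · simp [hl]

theorem exists_sys : ∃ (Γ I₁ I₂ : Type),
    Nonempty (Sys (L1 Γ) (L1 (Γ × Γ) × L1 (I₂ × I₂)) (L1 I₁ × L1 I₂)) := by
  classical
  obtain ⟨Γ, g₁, g₂, f, I₁, m₁, hg, hf1, hf2, hdense, hm₁, hm₁'⟩ := exists_U
  obtain ⟨M₀, hY, hc1, hc2⟩ := exists_M0 g₁ g₂ f hf1 hf2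
  obtain ⟨I₂, Φ, m₂, hΦ, hm₂, hm₂'⟩ := extension (M₀.mkQ)
  let g : Bool → Γ := fun k => if k then g₁ else g₂
  have hgf : ∀ k, f (dl (g k)) = 1 := by
    intro k; cases k <;> simp [g, hf1, hf2]
  have hM₀ : ∀ k, IsCompl M₀ (KK g₁ g₂ (g k)) := by
    intro k; cases k
    · simpa [g] using hc2
    · simpa [g] using hc1
  let inlL := ContinuousLinearMap.inl ℂ (L1 (Γ × Γ)) (L1 (I₂ × I₂))
  let pZ : Bool → (L1 (Γ × Γ) × L1 (I₂ × I₂)) →L[ℂ] (L1 (Γ × Γ) × L1 (I₂ × I₂)) := fun k =>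
    (pr (RC g₁ g₂ (g k))ᶜ).prodMap (ContinuousLinearMap.id ℂ _)
  have hKK : ∀ k (z : L1 (Γ × Γ)), z - pr (RC g₁ g₂ (g k))ᶜ z ∈ KK g₁ g₂ (g k) := by
    intro k z p hp
    rw [lp.coeFn_sub, Pi.sub_apply, pr_apply, if_pos (by exact hp), sub_self]
  have hKK' : ∀ k (z : L1 (Γ × Γ)), z ∈ KK g₁ g₂ (g k) → pr (RC g₁ g₂ (g k))ᶜ z = 0 := by
    intro k z hz
    ext p
    rw [pr_apply]
    by_cases hp : p ∈ (RC g₁ g₂ (g k))ᶜ
    · rw [if_pos hp, hz p hp]; rfl
    · rw [if_neg hp]; rfl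
  let bb : L1 Γ →L[ℂ] L1 Γ →L[ℂ] (L1 (Γ × Γ) × L1 (I₂ × I₂)) :=
    (ContinuousLinearMap.compL ℂ _ _ _ inlL).comp (b0 g₁ g₂)
  have hbb : ∀ x y, bb x y = (b0 g₁ g₂ x y, 0) := fun x y => rfl
  have hΦker : ∀ z : L1 (Γ × Γ), z ∈ M₀ → Φ (z, 0) = 0 := by
    intro z hz
    rw [hΦ]
    exact (Submodule.Quotient.mk_eq_zero M₀).2 hz
  refine ⟨Γ, I₁, I₂, ⟨?_⟩⟩
  exact
    { N := LinearMap.ker f
      M := LinearMap.ker Φ
      b := bb
      mn := m₁.bilinearComp (ContinuousLinearMap.fst ℂ _ _) (ContinuousLinearMap.fst ℂ _ _)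
      mz := m₂.bilinearComp (ContinuousLinearMap.snd ℂ _ _) (ContinuousLinearMap.snd ℂ _ _)
      pg := (dp I₁).bilinearComp (ContinuousLinearMap.fst ℂ _ _) (ContinuousLinearMap.fst ℂ _ _) +
        (dp I₂).bilinearComp (ContinuousLinearMap.snd ℂ _ _) (ContinuousLinearMap.snd ℂ _ _)
      u := fun k => dl (g k)
      pU := fun k => pr {g k}ᶜ
      pZ := pZ
      hN := hdense
      hb := by
        intro x hx y hy
        rw [LinearMap.mem_ker, hbb]
        exact hΦker _ (hY (b0_mem_YY g₁ g₂ f hx hy))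
      hb0 := by
        intro x hx y hy hxy
        rw [hbb] at hxy
        have hxy' : b0 g₁ g₂ x y = 0 := congrArg Prod.fst hxy
        have h1 : ∀ p q, (p, q) ∉ BB g₁ g₂ → x p * y q = 0 := by
          intro p q hpq
          have h2 : b0 g₁ g₂ x y (p, q) = 0 := by rw [hxy']; rfl
          rwa [b0_apply', if_neg hpq] at h2
        by_contra hcon
        push Not at hcon
        obtain ⟨hx0, hy0⟩ := hcon
        -- choose a nonzero coordinate of x
        have hxe : ∃ p, x p ≠ 0 := by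
          by_contra h
          push Not at h
          exact hx0 (by ext p; exact h p)
        obtain ⟨p, hp⟩ := hxe
        have hyz : ∀ q, (p, q) ∉ BB g₁ g₂ → y q = 0 := fun q hq =>
          (mul_eq_zero.1 (h1 p q hq)).resolve_left hp
        have hsing : ∀ h : Γ, f (dl h) = 1 → (∀ q, q ≠ h → y q = 0) → False := by
          intro h hfh hq
          have h3 := apply_zero_of_supp f hfh hq hy
          apply hy0
          ext q
          by_cases hqh : q = h
          · subst hqh; exact h3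
          · exact hq q hqh
        by_cases hp1 : p = g₁
        · refine hsing g₂ hf2 fun q hq => hyz q ?_
          subst hp1
          intro hB
          rcases hB with hB | hB
          · exact hq (congrArg Prod.snd hB)
          · exact hg (congrArg Prod.fst hB)
        · refine hsing g₁ hf1 fun q hq => hyz q ?_
          intro hB
          rcases hB with hB | hB
          · exact hp1 (congrArg Prod.fst hB)
          · exact hq (congrArg Prod.snd hB)
      hbu := by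
        intro k
        rw [hbb]
        cases k
        · have h3 : b0 g₁ g₂ (dl g₂) (dl g₁) = 0 := b0_dl' g₁ g₂
          simp [g, h3]
        · have h3 : b0 g₁ g₂ (dl g₁) (dl g₂) = 0 := b0_dl g₁ g₂
          simp [g, h3]
      hu := by
        rw [LinearMap.mem_ker, map_sub, hgf, hgf, sub_self]
      hune := by
        intro h
        have h1 : (dl g₁ : L1 Γ) g₁ = (dl g₂ : L1 Γ) g₁ := by
          have := congrArg (fun x : L1 Γ => x g₁) h
          simpa [g] using this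
        rw [dl_self, dl_apply, if_neg hg] at h1
        exact one_ne_zero h1
      hmn := fun a b => hm₁ a.1 b.1
      hmn' := by
        intro z hz hz1
        obtain ⟨i, hi⟩ := hm₁' z hz hz1
        refine ⟨(dl i, 0), (dl i, 0), ?_, ?_, hi⟩ <;>
        · rw [Prod.norm_def]
          simp [norm_dl]
      hmz := fun a b => hm₂ a.2 b.2
      hmz' := by
        intro z hz hz1
        obtain ⟨i, hi⟩ := hm₂' z hz hz1
        refine ⟨(0, dl i), (0, dl i), ?_, ?_, hi⟩ <;>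
        · rw [Prod.norm_def]
          simp [norm_dl]
      hpg := by
        intro a ha
        have h1 : ∀ i, a.1 i = 0 := by
          intro i
          have h := ha (dl i, 0)
          change dp I₁ a.1 (dl i) + dp I₂ a.2 0 = 0 at h
          rwa [map_zero, add_zero, dp_dl] at h
        have h2 : ∀ i, a.2 i = 0 := by
          intro i
          have h := ha (0, dl i)
          change dp I₁ a.1 0 + dp I₂ a.2 (dl i) = 0 at h
          rwa [map_zero, zero_add, dp_dl] at h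
        exact Prod.ext (by ext i; exact h1 i) (by ext i; exact h2 i)
      hpg' := by
        intro a ha
        have h1 : ∀ i, a.1 i = 0 := by
          intro i
          have h := ha (dl i, 0)
          change dp I₁ (dl i) a.1 + dp I₂ 0 a.2 = 0 at h
          rwa [map_zero, zero_apply, add_zero, dp_dl'] at h
        have h2 : ∀ i, a.2 i = 0 := by
          intro i
          have h := ha (0, dl i)
          change dp I₁ 0 a.1 + dp I₂ (dl i) a.2 = 0 at h
          rwa [map_zero, zero_apply, zero_add, dp_dl'] at h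
        exact Prod.ext (by ext i; exact h1 i) (by ext i; exact h2 i)
      pU_sub := fun k x => ⟨x (g k), sub_pr_singleton _ _⟩
      pU_u := by
        intro k
        rw [pr_dl, if_neg (by simp)]
      pU_inj := by
        intro k x hx h0
        have h1 := sub_pr_singleton (g k) x
        rw [h0, sub_zero] at h1
        have h2 : f x = 0 := hx
        rw [h1, map_smul, hgf, smul_eq_mul, mul_one] at h2
        rw [h1, h2, zero_smul]
      pU_surj := by
        intro k x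
        refine ⟨x - f x • dl (g k), ?_, ?_⟩
        · rw [LinearMap.mem_ker, map_sub, map_smul, hgf, smul_eq_mul, mul_one, sub_self]
        · rw [map_sub, map_smul, pr_dl, if_neg (by simp), smul_zero, sub_zero]
      pZ_b := by
        intro k y
        rw [hbb]
        exact Prod.ext (hKK' k _ (b0_left_mem_KK g₁ g₂ y)) rfl
      pZ_b' := by
        intro k y
        rw [hbb]
        exact Prod.ext (hKK' k _ (b0_right_mem_KK g₁ g₂ y)) rfl
      pZ_sub := by
        intro k z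
        obtain ⟨x, y, hxy⟩ := KK_decomp g₁ g₂ (hKK k z.1)
        refine ⟨x, y, ?_⟩
        rw [hbb, hbb]
        refine Prod.ext hxy ?_
        change z.2 - z.2 = 0 + 0
        simp
      pZ_inj := by
        intro k z hz h0
        have h1 : pr (RC g₁ g₂ (g k))ᶜ z.1 = 0 := congrArg Prod.fst h0
        have h2 : z.2 = 0 := congrArg Prod.snd h0
        have h3 : z.1 ∈ KK g₁ g₂ (g k) := by
          have := hKK k z.1
          rwa [h1, sub_zero] at this
        have h4 : z.1 ∈ M₀ := by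
          have h5 : Φ (z.1, 0) = 0 := by
            have : z = (z.1, 0) := Prod.ext rfl h2
            rw [← this]; exact hz
          rw [hΦ] at h5
          exact (Submodule.Quotient.mk_eq_zero M₀).1 h5
        exact Prod.ext (Submodule.disjoint_def.1 (hM₀ k).disjoint _ h4 h3) h2
      pZ_surj := by
        intro k z
        obtain ⟨y, hy⟩ := Submodule.mkQ_surjective M₀ (Φ z)
        have hytop : y ∈ M₀ ⊔ KK g₁ g₂ (g k) := by
          rw [(hM₀ k).sup_eq_top]; trivial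
        obtain ⟨a, ha, c, hc, hac⟩ := Submodule.mem_sup.1 hytop
        have h5 : Φ (c, 0) = Φ z := by
          rw [hΦ, ← hy, ← hac, map_add]
          have : M₀.mkQ a = 0 := (Submodule.Quotient.mk_eq_zero M₀).2 ha
          rw [this, zero_add]
        refine ⟨z - (c, 0), ?_, ?_⟩
        · rw [LinearMap.mem_ker, map_sub, h5, sub_self]
        · rw [map_sub]
          have : pZ k (c, 0) = 0 := Prod.ext (hKK' k c hc) rfl
          rw [this, sub_zero] }

end Pool.Agent.Lib_helper37.TwoNorms
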