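import Mathlib

set_option linter.unusedSimpArgs false

/-! A triangular algebra built from bilinear maps. -/

namespace Pool.Agent.Lib_helper37.TwoNorms

/-- Bilinear data. -/
structure Bil (N M E : Type) [AddCommGroup N] [Module ℂ N] [AddCommGroup M] [Module ℂ M]
    [AddCommGroup E] [Module ℂ E] where
  bb : N →ₗ[ℂ] N →ₗ[ℂ] M
  mn : E →ₗ[ℂ] E →ₗ[ℂ] N
  mz : E →ₗ[ℂ] E →ₗ[ℂ] M
  pg : E →ₗ[ℂ] E →ₗ[ℂ] ℂ

/-- The underlying space of the algebra. -/
abbrev VV (N M E : Type) : Type :=
  (Fin 3 → ℂ) × ℂ × (Fin 3 → E) × (Fin 3 → E) × (Fin 3 → ℂ) × N × ℂ × N × ℂ × M × N × N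

section

variable {N M E : Type}

abbrev ca (x : VV N M E) : Fin 3 → ℂ := x.1
abbrev ce (x : VV N M E) : ℂ := x.2.1
abbrev cl (x : VV N M E) : Fin 3 → E := x.2.2.1
abbrev cq (x : VV N M E) : Fin 3 → E := x.2.2.2.1
abbrev cs (x : VV N M E) : Fin 3 → ℂ := x.2.2.2.2.1
abbrev cln (x : VV N M E) : N := x.2.2.2.2.2.1
abbrev clc (x : VV N M E) : ℂ := x.2.2.2.2.2.2.1
abbrev cqn (x : VV N M E) : N := x.2.2.2.2.2.2.2.1
abbrev cqc (x : VV N M E) : ℂ := x.2.2.2.2.2.2.2.2.1
abbrev c00 (x : VV N M E) : M := x.2.2.2.2.2.2.2.2.2.1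
abbrev c01 (x : VV N M E) : N := x.2.2.2.2.2.2.2.2.2.2.1
abbrev c10 (x : VV N M E) : N := x.2.2.2.2.2.2.2.2.2.2.2

lemma VV_ext {x y : VV N M E} (h1 : ∀ i, ca x i = ca y i) (h2 : ce x = ce y)
    (h3 : ∀ i, cl x i = cl y i) (h4 : ∀ i, cq x i = cq y i) (h5 : ∀ i, cs x i = cs y i)
    (h6 : cln x = cln y) (h7 : clc x = clc y) (h8 : cqn x = cqn y) (h9 : cqc x = cqc y)
    (h10 : c00 x = c00 y) (h11 : c01 x = c01 y) (h12 : c10 x = c10 y) : x = y :=
  Prod.ext (funext h1) (Prod.ext h2 (Prod.ext (funext h3) (Prod.ext (funext h4)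
    (Prod.ext (funext h5) (Prod.ext h6 (Prod.ext h7 (Prod.ext h8 (Prod.ext h9
      (Prod.ext h10 (Prod.ext h11 h12))))))))))

variable [AddCommGroup N] [Module ℂ N] [AddCommGroup M] [Module ℂ M]
    [AddCommGroup E] [Module ℂ E] (β : Bil N M E)

/-- The multiplication. -/
def mulV (x y : VV N M E) : VV N M E :=
  (fun i => ca x i * ca y i,
   ce x * ce y,
   fun i => ca x i • cl y i + ce y • cl x i,
   fun j => ce x • cq y j + ca y j • cq x j,
   fun i => ca x i * cs y i + ca y (Fin.rev i) * cs x i + β.pg (cl x i) (cq y (Fin.rev i)),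
   ca x 0 • cln y + ce y • cln x,
   ca x 1 * clc y + ce y * clc x,
   ce x • cqn y + ca y 0 • cqn x,
   ce x * cqc y + ca y 1 * cqc x,
   ca x 0 • c00 y + ca y 0 • c00 x + β.bb (cln x) (cqn y) + β.mz (cl x 0) (cq y 0),
   ca x 0 • c01 y + ca y 1 • c01 x + cqc y • cln x + β.mn (cl x 0) (cq y 1),
   ca x 1 • c10 y + ca y 0 • c10 x + clc x • cqn y + β.mn (cl x 1) (cq y 0))

/-- The unit. -/
def oneV : VV N M E := (1, 1, 0, 0, 0, 0, 0, 0, 0, 0, 0, 0)

lemma mulV_assoc (x y z : VV N M E) : mulV β (mulV β x y) z = mulV β x (mulV β y z) := by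
  apply VV_ext <;> (try intro i) <;>
    simp only [mulV, ca, ce, cl, cq, cs, cln, clc, cqn, cqc, c00, c01, c10, map_add, map_smul,
      LinearMap.add_apply, LinearMap.smul_apply, smul_eq_mul]
  all_goals first | ring1 | module

lemma add_mulV (x y z : VV N M E) : mulV β (x + y) z = mulV β x z + mulV β y z := by
  apply VV_ext <;> (try intro i) <;>
    simp only [mulV, ca, ce, cl, cq, cs, cln, clc, cqn, cqc, c00, c01, c10, map_add, map_smul,
      LinearMap.add_apply, LinearMap.smul_apply, smul_eq_mul, Prod.fst_add, Prod.snd_add,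
      Pi.add_apply]
  all_goals first | ring1 | module

lemma mulV_add (x y z : VV N M E) : mulV β x (y + z) = mulV β x y + mulV β x z := by
  apply VV_ext <;> (try intro i) <;>
    simp only [mulV, ca, ce, cl, cq, cs, cln, clc, cqn, cqc, c00, c01, c10, map_add, map_smul,
      LinearMap.add_apply, LinearMap.smul_apply, smul_eq_mul, Prod.fst_add, Prod.snd_add,
      Pi.add_apply]
  all_goals first | ring1 | module

lemma smul_mulV (c : ℂ) (x y : VV N M E) : mulV β (c • x) y = c • mulV β x y := by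
  apply VV_ext <;> (try intro i) <;>
    simp only [mulV, ca, ce, cl, cq, cs, cln, clc, cqn, cqc, c00, c01, c10, map_add, map_smul,
      LinearMap.add_apply, LinearMap.smul_apply, smul_eq_mul, Prod.smul_fst, Prod.smul_snd,
      Pi.smul_apply]
  all_goals first | ring1 | module

lemma mulV_smul (c : ℂ) (x y : VV N M E) : mulV β x (c • y) = c • mulV β x y := by
  apply VV_ext <;> (try intro i) <;>
    simp only [mulV, ca, ce, cl, cq, cs, cln, clc, cqn, cqc, c00, c01, c10, map_add, map_smul,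
      LinearMap.add_apply, LinearMap.smul_apply, smul_eq_mul, Prod.smul_fst, Prod.smul_snd,
      Pi.smul_apply]
  all_goals first | ring1 | module

lemma one_mulV (x : VV N M E) : mulV β oneV x = x := by
  apply VV_ext <;> (try intro i) <;>
    simp [mulV, oneV, ca, ce, cl, cq, cs, cln, clc, cqn, cqc, c00, c01, c10]

lemma mulV_one (x : VV N M E) : mulV β x oneV = x := by
  apply VV_ext <;> (try intro i) <;>
    simp [mulV, oneV, ca, ce, cl, cq, cs, cln, clc, cqn, cqc, c00, c01, c10]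

lemma zero_mulV (x : VV N M E) : mulV β 0 x = 0 := by
  have := smul_mulV β 0 0 x
  rwa [zero_smul, zero_smul] at this

lemma mulV_zero (x : VV N M E) : mulV β x 0 = 0 := by
  have := mulV_smul β 0 x 0
  rwa [zero_smul, zero_smul] at this

/-- The algebra. -/
def TA (_ : Bil N M E) : Type := VV N M E

instance : AddCommGroup (TA β) := inferInstanceAs (AddCommGroup (VV N M E))

instance : Module ℂ (TA β) := inferInstanceAs (Module ℂ (VV N M E))

instance : Ring (TA β) :=
  { (inferInstance : AddCommGroup (TA β)) with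
    mul := mulV β
    one := (oneV : VV N M E)
    mul_assoc := mulV_assoc β
    left_distrib := mulV_add β
    right_distrib := add_mulV β
    zero_mul := zero_mulV β
    mul_zero := mulV_zero β
    one_mul := one_mulV β
    mul_one := mulV_one β }

instance : Algebra ℂ (TA β) :=
  Algebra.ofModule (smul_mulV β) (fun c x y => mulV_smul β c x y)

lemma TA_mul (x y : TA β) : x * y = mulV β x y := rfl

end

end Pool.Agent.Lib_helper37.TwoNorms
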