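import Pool.Agent.Lib_helper37.TwoNorms6
import Pool.Agent.Lib_helper37.TwoNorms7

/-! The two norms. -/

set_option linter.unusedSimpArgs false
set_option linter.unusedSectionVars false

namespace Pool.Agent.Lib_helper37.TwoNorms

lemma bound_of_continuous {X : Type} [NormedAddCommGroup X] [NormedSpace ℂ X] (B : X → X → X)
    (hB : Continuous fun p : X × X => B p.1 p.2)
    (hs : ∀ (c : ℂ) x y, B (c • x) y = c • B x y) (hs' : ∀ (c : ℂ) x y, B x (c • y) = c • B x y) :
    ∃ C : ℝ, 0 < C ∧ ∀ x y, ‖B x y‖ ≤ C * ‖x‖ * ‖y‖ := by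
  have hz : ∀ y, B 0 y = 0 := fun y => by
    have := hs 0 0 y
    rwa [zero_smul, zero_smul] at this
  have hz' : ∀ x, B x 0 = 0 := fun x => by
    have := hs' 0 x 0
    rwa [zero_smul, zero_smul] at this
  have h1 := (Metric.continuous_iff.1 hB) (0, 0) 1 one_pos
  obtain ⟨δ, hδ, h2⟩ := h1
  have h3 : ∀ x y, ‖x‖ < δ → ‖y‖ < δ → ‖B x y‖ < 1 := by
    intro x y hx hy
    have := h2 (x, y) (by
      rw [dist_eq_norm, Prod.norm_def]
      simpa using ⟨hx, hy⟩)
    rwa [hz, dist_zero_right] at this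
  refine ⟨4 / δ ^ 2, by positivity, fun x y => ?_⟩
  by_cases hx : x = 0
  · subst hx; rw [hz]; simp
  by_cases hy : y = 0
  · subst hy; rw [hz']; simp
  have hx' : 0 < ‖x‖ := norm_pos_iff.2 hx
  have hy' : 0 < ‖y‖ := norm_pos_iff.2 hy
  have h4 := h3 (((δ / (2 * ‖x‖) : ℝ) : ℂ) • x) (((δ / (2 * ‖y‖) : ℝ) : ℂ) • y)
    (by
      rw [norm_smul, Complex.norm_real, Real.norm_of_nonneg (by positivity)]
      rw [div_mul_eq_mul_div, div_lt_iff₀ (by positivity)]
      nlinarith)
    (by
      rw [norm_smul, Complex.norm_real, Real.norm_of_nonneg (by positivity)]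
      rw [div_mul_eq_mul_div, div_lt_iff₀ (by positivity)]
      nlinarith)
  rw [hs, hs', norm_smul, norm_smul, Complex.norm_real, Complex.norm_real,
    Real.norm_of_nonneg (by positivity), Real.norm_of_nonneg (by positivity)] at h4
  have h5 : ‖B x y‖ = (4 / δ ^ 2 * ‖x‖ * ‖y‖) * (δ / (2 * ‖x‖) * (δ / (2 * ‖y‖) * ‖B x y‖)) := by
    field_simp
    ring
  rw [h5]
  have h6 : 0 < 4 / δ ^ 2 * ‖x‖ * ‖y‖ := by positivity
  nlinarith

namespace Sys

variable {U Z E : Type} [NormedAddCommGroup U] [NormedSpace ℂ U] [NormedAddCommGroup Z]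
    [NormedSpace ℂ Z] [NormedAddCommGroup E] [NormedSpace ℂ E] (S : Sys U Z E)

lemma pU_idem (k : Bool) (x : U) : S.pU k (S.pU k x) = S.pU k x := by
  obtain ⟨c, hc⟩ := S.pU_sub k x
  have h := congrArg (S.pU k) hc
  rw [map_sub, map_smul, S.pU_u, smul_zero, sub_eq_zero] at h
  exact h.symm

lemma pZ_idem (k : Bool) (z : Z) : S.pZ k (S.pZ k z) = S.pZ k z := by
  obtain ⟨x, y, hxy⟩ := S.pZ_sub k z
  have h := congrArg (S.pZ k) hxy
  rw [map_sub, map_add, S.pZ_b, S.pZ_b', add_zero, sub_eq_zero] at h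
  exact h.symm

lemma pZ_b_pU (k : Bool) (x y : U) : S.pZ k (S.b (S.pU k x) (S.pU k y)) = S.pZ k (S.b x y) := by
  obtain ⟨c, hc⟩ := S.pU_sub k x
  obtain ⟨d, hd⟩ := S.pU_sub k y
  have hx : x = S.pU k x + c • S.u k := by rw [← hc]; abel
  have hy : y = S.pU k y + d • S.u k := by rw [← hd]; abel
  have h1 : S.b x y = S.b (S.pU k x) (S.pU k y) + d • S.b (S.pU k x) (S.u k) +
      c • S.b (S.u k) y := by
    conv_lhs => rw [hx]
    rw [map_add, map_smul, add_apply, smul_apply]
    congr 1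
    conv_lhs => rw [hy]
    rw [map_add, map_smul]
  rw [h1, map_add, map_add, map_smul, map_smul, S.pZ_b, S.pZ_b']
  simp

lemma hM : Dense (S.M : Set Z) := by
  have hcl : ∀ z, z ∈ S.M.topologicalClosure := by
    have h1 : ∀ x y : U, S.b x y ∈ S.M.topologicalClosure := by
      have hcont : Continuous fun p : U × U => S.b p.1 p.2 := by fun_prop
      have hd : Dense ((S.N : Set U) ×ˢ (S.N : Set U)) := S.hN.prod S.hN
      have hclosed : IsClosed {p : U × U | S.b p.1 p.2 ∈ S.M.topologicalClosure} :=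
        S.M.isClosed_topologicalClosure.preimage hcont
      intro x y
      have hsub : (S.N : Set U) ×ˢ (S.N : Set U) ⊆
          {p : U × U | S.b p.1 p.2 ∈ S.M.topologicalClosure} := by
        rintro ⟨x, y⟩ ⟨hx, hy⟩
        exact S.M.le_topologicalClosure (S.hb x hx y hy)
      have h2 := hclosed.closure_subset_iff.2 hsub
      rw [hd.closure_eq] at h2
      exact h2 (Set.mem_univ (x, y))
    intro z
    obtain ⟨m, hm, hmz⟩ := S.pZ_surj true z
    obtain ⟨x, y, hxy⟩ := S.pZ_sub true (z - m)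
    rw [map_sub, hmz, sub_self, sub_zero] at hxy
    have : z = m + (S.b (S.u true) y + S.b x (S.u true)) := by rw [← hxy]; abel
    rw [this]
    exact Submodule.add_mem _ (S.M.le_topologicalClosure hm) (Submodule.add_mem _ (h1 _ _) (h1 _ _))
  intro z
  exact hcl z

/-- The bilinear data of the algebra. -/
noncomputable def bil : Bil S.N S.M E where
  bb := LinearMap.mk₂ ℂ (fun x y => ⟨S.b x y, S.hb x x.2 y y.2⟩)
    (fun x y z => Subtype.ext (by simp)) (fun c x y => Subtype.ext (by simp))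
    (fun x y z => Subtype.ext (by simp)) (fun c x y => Subtype.ext (by simp))
  mn := LinearMap.mk₂ ℂ (fun x y => ⟨S.mn x y, S.hmn x y⟩)
    (fun x y z => Subtype.ext (by simp)) (fun c x y => Subtype.ext (by simp))
    (fun x y z => Subtype.ext (by simp)) (fun c x y => Subtype.ext (by simp))
  mz := LinearMap.mk₂ ℂ (fun x y => ⟨S.mz x y, S.hmz x y⟩)
    (fun x y z => Subtype.ext (by simp)) (fun c x y => Subtype.ext (by simp))
    (fun x y z => Subtype.ext (by simp)) (fun c x y => Subtype.ext (by simp))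
  pg := LinearMap.mk₂ ℂ (fun x y => S.pg x y)
    (fun x y z => by simp) (fun c x y => by simp)
    (fun x y z => by simp) (fun c x y => by simp)

/-- The bilinear data of the Banach algebra for the norm `k`. -/
noncomputable def bilk (k : Bool) : Bil U Z E where
  bb := LinearMap.mk₂ ℂ (fun x y => S.pZ k (S.b x y))
    (fun x y z => by simp) (fun c x y => by simp)
    (fun x y z => by simp) (fun c x y => by simp)
  mn := LinearMap.mk₂ ℂ (fun x y => S.pU k (S.mn x y))
    (fun x y z => by simp) (fun c x y => by simp)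
    (fun x y z => by simp) (fun c x y => by simp)
  mz := LinearMap.mk₂ ℂ (fun x y => S.pZ k (S.mz x y))
    (fun x y z => by simp) (fun c x y => by simp)
    (fun x y z => by simp) (fun c x y => by simp)
  pg := LinearMap.mk₂ ℂ (fun x y => S.pg x y)
    (fun x y z => by simp) (fun c x y => by simp)
    (fun x y z => by simp) (fun c x y => by simp)

/-- The comparison map. -/
noncomputable def Th (k : Bool) : VV S.N S.M E →ₗ[ℂ] VV U Z E :=
  LinearMap.id.prodMap (LinearMap.id.prodMap (LinearMap.id.prodMap (LinearMap.id.prodMap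
    (LinearMap.id.prodMap (((S.pU k : U →ₗ[ℂ] U).comp S.N.subtype).prodMap (LinearMap.id.prodMap
      (((S.pU k : U →ₗ[ℂ] U).comp S.N.subtype).prodMap (LinearMap.id.prodMap
        (((S.pZ k : Z →ₗ[ℂ] Z).comp S.M.subtype).prodMap
          (((S.pU k : U →ₗ[ℂ] U).comp S.N.subtype).prodMap
            ((S.pU k : U →ₗ[ℂ] U).comp S.N.subtype)))))))))))

/-- The projection onto the range of the comparison map. -/
noncomputable def Pi' (k : Bool) : VV U Z E →L[ℂ] VV U Z E :=
  (ContinuousLinearMap.id ℂ _).prodMap ((ContinuousLinearMap.id ℂ _).prodMap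
    ((ContinuousLinearMap.id ℂ _).prodMap ((ContinuousLinearMap.id ℂ _).prodMap
      ((ContinuousLinearMap.id ℂ _).prodMap ((S.pU k).prodMap ((ContinuousLinearMap.id ℂ _).prodMap
        ((S.pU k).prodMap ((ContinuousLinearMap.id ℂ _).prodMap
          ((S.pZ k).prodMap ((S.pU k).prodMap (S.pU k)))))))))))

lemma Th_mul (k : Bool) (x y : VV S.N S.M E) :
    S.Th k (mulV S.bil x y) = mulV (S.bilk k) (S.Th k x) (S.Th k y) := by
  apply VV_ext
  · intro i; rfl
  · rfl
  · intro i; rfl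
  · intro i; rfl
  · intro i; rfl
  · change S.pU k (ca x 0 • ((cln y : S.N) : U) + ce y • ((cln x : S.N) : U)) =
      ca x 0 • S.pU k ((cln y : S.N) : U) + ce y • S.pU k ((cln x : S.N) : U)
    simp
  · rfl
  · change S.pU k (ce x • ((cqn y : S.N) : U) + ca y 0 • ((cqn x : S.N) : U)) =
      ce x • S.pU k ((cqn y : S.N) : U) + ca y 0 • S.pU k ((cqn x : S.N) : U)
    simp
  · rfl
  · change S.pZ k (ca x 0 • ((c00 y : S.M) : Z) + ca y 0 • ((c00 x : S.M) : Z) + S.b ((cln x : S.N) : U) ((cqn y : S.N) : U) +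
      S.mz (cl x 0) (cq y 0)) = ca x 0 • S.pZ k ((c00 y : S.M) : Z) + ca y 0 • S.pZ k ((c00 x : S.M) : Z) +
      S.pZ k (S.b (S.pU k ((cln x : S.N) : U)) (S.pU k ((cqn y : S.N) : U))) + S.pZ k (S.mz (cl x 0) (cq y 0))
    rw [S.pZ_b_pU]
    simp
  · change S.pU k (ca x 0 • ((c01 y : S.N) : U) + ca y 1 • ((c01 x : S.N) : U) + cqc y • ((cln x : S.N) : U) +
      S.mn (cl x 0) (cq y 1)) = ca x 0 • S.pU k ((c01 y : S.N) : U) + ca y 1 • S.pU k ((c01 x : S.N) : U) +
      cqc y • S.pU k ((cln x : S.N) : U) + S.pU k (S.mn (cl x 0) (cq y 1))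
    simp
  · change S.pU k (ca x 1 • ((c10 y : S.N) : U) + ca y 0 • ((c10 x : S.N) : U) + clc x • ((cqn y : S.N) : U) +
      S.mn (cl x 1) (cq y 0)) = ca x 1 • S.pU k ((c10 y : S.N) : U) + ca y 0 • S.pU k ((c10 x : S.N) : U) +
      clc x • S.pU k ((cqn y : S.N) : U) + S.pU k (S.mn (cl x 1) (cq y 0))
    simp

lemma Th_inj (k : Bool) : Function.Injective (S.Th k) := by
  rw [injective_iff_map_eq_zero]
  intro x hx
  have hN : ∀ n : S.N, S.pU k n = 0 → n = 0 := fun n hn => Subtype.ext (S.pU_inj k n n.2 hn)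
  have hM : ∀ n : S.M, S.pZ k n = 0 → n = 0 := fun n hn => Subtype.ext (S.pZ_inj k n n.2 hn)
  apply VV_ext
  · intro i; exact congrFun (congrArg (fun y : VV U Z E => ca y) hx) i
  · exact congrArg (fun y : VV U Z E => ce y) hx
  · intro i; exact congrFun (congrArg (fun y : VV U Z E => cl y) hx) i
  · intro i; exact congrFun (congrArg (fun y : VV U Z E => cq y) hx) i
  · intro i; exact congrFun (congrArg (fun y : VV U Z E => cs y) hx) i
  · exact hN _ (congrArg (fun y : VV U Z E => cln y) hx)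
  · exact congrArg (fun y : VV U Z E => clc y) hx
  · exact hN _ (congrArg (fun y : VV U Z E => cqn y) hx)
  · exact congrArg (fun y : VV U Z E => cqc y) hx
  · exact hM _ (congrArg (fun y : VV U Z E => c00 y) hx)
  · exact hN _ (congrArg (fun y : VV U Z E => c01 y) hx)
  · exact hN _ (congrArg (fun y : VV U Z E => c10 y) hx)

lemma Pi_Th (k : Bool) (x : VV S.N S.M E) : S.Pi' k (S.Th k x) = S.Th k x := by
  apply VV_ext
  · intro i; rfl
  · rfl
  · intro i; rfl
  · intro i; rfl
  · intro i; rfl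
  · exact S.pU_idem k _
  · rfl
  · exact S.pU_idem k _
  · rfl
  · exact S.pZ_idem k _
  · exact S.pU_idem k _
  · exact S.pU_idem k _

lemma Pi_mem (k : Bool) (y : VV U Z E) : ∃ x, S.Th k x = S.Pi' k y := by
  obtain ⟨a, ha, ha'⟩ := S.pU_surj k (cln y)
  obtain ⟨b, hb, hb'⟩ := S.pU_surj k (cqn y)
  obtain ⟨c, hc, hc'⟩ := S.pU_surj k (c01 y)
  obtain ⟨d, hd, hd'⟩ := S.pU_surj k (c10 y)
  obtain ⟨e, he, he'⟩ := S.pZ_surj k (c00 y)
  refine ⟨(ca y, ce y, cl y, cq y, cs y, ⟨a, ha⟩, clc y, ⟨b, hb⟩, cqc y, ⟨e, he⟩, ⟨c, hc⟩,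
    ⟨d, hd⟩), ?_⟩
  apply VV_ext
  · intro i; rfl
  · rfl
  · intro i; rfl
  · intro i; rfl
  · intro i; rfl
  · exact ha'
  · rfl
  · exact hb'
  · rfl
  · exact he'
  · exact hc'
  · exact hd'

lemma range_closed (k : Bool) : IsClosed (Set.range (S.Th k)) := by
  have : Set.range (S.Th k) = {y | S.Pi' k y = y} := by
    ext y
    constructor
    · rintro ⟨x, rfl⟩
      exact S.Pi_Th k x
    · intro h
      obtain ⟨x, hx⟩ := S.Pi_mem k y
      exact ⟨x, hx.trans h⟩
  rw [this]
  exact isClosed_eq (S.Pi' k).continuous continuous_id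

lemma cont_proj {W : Type} [TopologicalSpace W] {x : W → VV U Z E} (hx : Continuous x) :
    (Continuous fun w => ca (x w)) ∧ (Continuous fun w => ce (x w)) ∧
    (Continuous fun w => cl (x w)) ∧ (Continuous fun w => cq (x w)) ∧
    (Continuous fun w => cs (x w)) ∧ (Continuous fun w => cln (x w)) ∧
    (Continuous fun w => clc (x w)) ∧ (Continuous fun w => cqn (x w)) ∧
    (Continuous fun w => cqc (x w)) ∧ (Continuous fun w => c00 (x w)) ∧
    (Continuous fun w => c01 (x w)) ∧ (Continuous fun w => c10 (x w)) := by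
  have s1 := continuous_snd.comp hx
  have s2 := continuous_snd.comp s1
  have s3 := continuous_snd.comp s2
  have s4 := continuous_snd.comp s3
  have s5 := continuous_snd.comp s4
  have s6 := continuous_snd.comp s5
  have s7 := continuous_snd.comp s6
  have s8 := continuous_snd.comp s7
  have s9 := continuous_snd.comp s8
  have s10 := continuous_snd.comp s9
  have s11 := continuous_snd.comp s10
  exact ⟨continuous_fst.comp hx, continuous_fst.comp s1, continuous_fst.comp s2,
    continuous_fst.comp s3, continuous_fst.comp s4, continuous_fst.comp s5,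
    continuous_fst.comp s6, continuous_fst.comp s7, continuous_fst.comp s8,
    continuous_fst.comp s9, continuous_fst.comp s10, s11⟩

lemma cont_aux (k : Bool) {W : Type} [TopologicalSpace W]
    {a a' s s' : W → Fin 3 → ℂ} {e e' lc lc' qc qc' : W → ℂ} {l l' q q' : W → Fin 3 → E}
    {ln ln' qn qn' d d' g g' : W → U} {c c' : W → Z}
    (ha : Continuous a) (ha' : Continuous a') (hs : Continuous s) (hs' : Continuous s')
    (he : Continuous e) (he' : Continuous e') (hlc : Continuous lc) (hlc' : Continuous lc')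
    (hqc : Continuous qc) (hqc' : Continuous qc') (hl : Continuous l) (hl' : Continuous l')
    (hq : Continuous q) (hq' : Continuous q') (hln : Continuous ln) (hln' : Continuous ln')
    (hqn : Continuous qn) (hqn' : Continuous qn') (hd : Continuous d) (hd' : Continuous d')
    (hg : Continuous g) (hg' : Continuous g') (hc : Continuous c) (hc' : Continuous c') :
    Continuous fun w => ((fun i => a w i * a' w i,
   e w * e' w,
   fun i => a w i • l' w i + e' w • l w i,
   fun j => e w • q' w j + a' w j • q w j,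
   fun i => a w i * s' w i + a' w (Fin.rev i) * s w i + S.pg (l w i) (q' w (Fin.rev i)),
   a w 0 • ln' w + e' w • ln w,
   a w 1 * lc' w + e' w * lc w,
   e w • qn' w + a' w 0 • qn w,
   e w * qc' w + a' w 1 * qc w,
   a w 0 • c' w + a' w 0 • c w + S.pZ k (S.b (ln w) (qn' w)) + S.pZ k (S.mz (l w 0) (q' w 0)),
   a w 0 • d' w + a' w 1 • d w + qc' w • ln w + S.pU k (S.mn (l w 0) (q' w 1)),
   a w 1 • g' w + a' w 0 • g w + lc w • qn' w + S.pU k (S.mn (l w 1) (q' w 0))) :
      VV U Z E) := by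
  refine Continuous.prodMk ?_ (Continuous.prodMk ?_ (Continuous.prodMk ?_ (Continuous.prodMk ?_
    (Continuous.prodMk ?_ (Continuous.prodMk ?_ (Continuous.prodMk ?_ (Continuous.prodMk ?_
      (Continuous.prodMk ?_ (Continuous.prodMk ?_ (Continuous.prodMk ?_ ?_))))))))))
  all_goals fun_prop

set_option maxRecDepth 20000 in
lemma mul_cont (k : Bool) :
    Continuous fun p : VV U Z E × VV U Z E => mulV (S.bilk k) p.1 p.2 := by
  obtain ⟨a1, a2, a3, a4, a5, a6, a7, a8, a9, a10, a11, a12⟩ :=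
    cont_proj (continuous_fst (X := VV U Z E) (Y := VV U Z E))
  obtain ⟨b1, b2, b3, b4, b5, b6, b7, b8, b9, b10, b11, b12⟩ :=
    cont_proj (continuous_snd (X := VV U Z E) (Y := VV U Z E))
  exact S.cont_aux k a1 b1 a5 b5 a2 b2 a7 b7 a9 b9 a3 b3 a4 b4 a6 b6 a8 b8 a11 b11 a12 b12
    a10 b10

lemma mul_bound (k : Bool) :
    ∃ C : ℝ, 0 < C ∧ ∀ x y : VV U Z E, ‖mulV (S.bilk k) x y‖ ≤ C * ‖x‖ * ‖y‖ :=
  bound_of_continuous _ (S.mul_cont k) (smul_mulV _) (mulV_smul _)

end Sys

end Pool.Agent.Lib_helper37.TwoNorms
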