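import Pool.Agent.Lib_helper37.TwoNormsDefs
import Pool.Agent.Lib_helper37.TwoNorms8

/-! Norms as functions versus normed algebras. -/

open Filter Topology

namespace Pool.Agent.Lib_helper37.TwoNorms

open TwoNormsDefs

lemma norm_of_embedding {A W : Type} [Ring A] [Algebra ℂ A] [NormedAddCommGroup W]
    [NormedSpace ℂ W] [CompleteSpace W] (T : A →ₗ[ℂ] W) (hinj : Function.Injective T)
    (hcl : IsClosed (Set.range T)) (C : ℝ) (hC : 0 < C)
    (hmul : ∀ x y, ‖T (x * y)‖ ≤ C * ‖T x‖ * ‖T y‖) :
    IsBanachAlgebraNorm (fun x : A => C * ‖T x‖) where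
  nonneg x := by positivity
  eq_zero_iff x := by
    rw [mul_eq_zero, or_iff_right hC.ne', norm_eq_zero]
    exact ⟨fun h => hinj (by rw [h, map_zero]), fun h => by rw [h, map_zero]⟩
  smul c x := by
    rw [map_smul, norm_smul]; ring
  add_le x y := by
    rw [map_add, ← mul_add]
    exact mul_le_mul_of_nonneg_left (norm_add_le _ _) hC.le
  mul_le x y := by
    have := mul_le_mul_of_nonneg_left (hmul x y) hC.le
    calc C * ‖T (x * y)‖ ≤ C * (C * ‖T x‖ * ‖T y‖) := this
      _ = C * ‖T x‖ * (C * ‖T y‖) := by ring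
  complete s hs := by
    have hcs : CauchySeq fun n => T (s n) := by
      rw [Metric.cauchySeq_iff]
      intro ε hε
      obtain ⟨n, hn⟩ := hs (C * ε) (by positivity)
      refine ⟨n, fun i hi j hj => ?_⟩
      rw [dist_eq_norm, ← map_sub]
      exact lt_of_mul_lt_mul_left (hn i hi j hj) hC.le
    obtain ⟨w, hw⟩ := cauchySeq_tendsto_of_complete hcs
    obtain ⟨x, rfl⟩ := hcl.mem_of_tendsto hw (Eventually.of_forall fun n => ⟨s n, rfl⟩)
    refine ⟨x, fun ε hε => ?_⟩
    obtain ⟨n, hn⟩ := (Metric.tendsto_atTop.1 hw) (ε / C) (by positivity)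
    refine ⟨n, fun i hi => ?_⟩
    have := hn i hi
    rw [dist_eq_norm, ← map_sub, lt_div_iff₀ hC] at this
    linarith

/-- The normed ring given by a Banach algebra norm. -/
@[reducible] noncomputable def toNormedRing {A : Type} [inst : Ring A] [Algebra ℂ A] {r : A → ℝ}
    (h : IsBanachAlgebraNorm r) : NormedRing A :=
  { inst, (AddGroupNorm.toNormedAddCommGroup
      { toFun := r
        map_zero' := (h.eq_zero_iff 0).2 rfl
        add_le' := h.add_le
        neg' := fun x => by
          have := h.smul (-1) x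
          simpa using this
        eq_zero_of_map_eq_zero' := fun x => (h.eq_zero_iff x).1 } : NormedAddCommGroup A) with
    norm_mul_le := h.mul_le }

lemma complete_toNormedRing {A : Type} [Ring A] [Algebra ℂ A] {r : A → ℝ}
    (h : IsBanachAlgebraNorm r) :
    @CompleteSpace A (toNormedRing h).toMetricSpace.toPseudoMetricSpace.toUniformSpace := by
  letI := toNormedRing h
  apply Metric.complete_of_cauchySeq_tendsto
  intro u hu
  rw [Metric.cauchySeq_iff] at hu
  obtain ⟨x, hx⟩ := h.complete u (by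
    intro ε hε
    obtain ⟨n, hn⟩ := hu ε hε
    refine ⟨n, fun i hi j hj => ?_⟩
    have := hn i hi j hj
    rw [dist_eq_norm] at this
    exact this)
  refine ⟨x, ?_⟩
  rw [Metric.tendsto_atTop]
  intro ε hε
  obtain ⟨n, hn⟩ := hx ε hε
  refine ⟨n, fun i hi => ?_⟩
  rw [dist_eq_norm]
  exact hn i hi

end Pool.Agent.Lib_helper37.TwoNorms
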