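import Mathlib

namespace Pool.Agent.Lib_helper37.TwoNormsDefs

/-- `p` is a Banach algebra norm on the complex associative algebra `A` (which need be neither
commutative nor unital): a submultiplicative norm for which `A` is complete. -/
structure IsBanachAlgebraNorm {A : Type} [NonUnitalRing A] [Module ℂ A] (p : A → ℝ) : Prop where
  nonneg : ∀ x, 0 ≤ p x
  eq_zero_iff : ∀ x, p x = 0 ↔ x = 0
  smul : ∀ (c : ℂ) (x : A), p (c • x) = ‖c‖ * p x
  add_le : ∀ x y, p (x + y) ≤ p x + p y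
  mul_le : ∀ x y, p (x * y) ≤ p x * p y
  complete : ∀ s : ℕ → A, (∀ ε > 0, ∃ n, ∀ i ≥ n, ∀ j ≥ n, p (s i - s j) < ε) →
    ∃ x, ∀ ε > 0, ∃ n, ∀ i ≥ n, p (s i - x) < ε

/-- Two norms are equivalent: each is bounded by a multiple of the other. -/
def NormEquivalent {A : Type} (p q : A → ℝ) : Prop :=
  ∃ c C : ℝ, 0 < c ∧ c ≤ C ∧ ∀ x, c * p x ≤ q x ∧ q x ≤ C * p x

/-- The set of all Banach algebra norms on `A`. -/
def BanachAlgebraNorms (A : Type) [NonUnitalRing A] [Module ℂ A] : Set (A → ℝ) :=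
  {p | IsBanachAlgebraNorm p}

/-- Equivalence of norms, as an equivalence relation on the set of Banach algebra norms on `A`. -/
def normSetoid (A : Type) [NonUnitalRing A] [Module ℂ A] : Setoid (BanachAlgebraNorms A) where
  r p q := NormEquivalent p.1 q.1
  iseqv := by
    refine ⟨fun p => ⟨1, 1, one_pos, le_rfl, fun x => ⟨by rw [one_mul], by rw [one_mul]⟩⟩, ?_, ?_⟩
    · rintro p q ⟨c, C, hc, hcC, h⟩
      have hC : 0 < C := hc.trans_le hcC
      refine ⟨C⁻¹, c⁻¹, inv_pos.2 hC, inv_anti₀ hc hcC, fun x => ⟨?_, ?_⟩⟩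
      · rw [inv_mul_le_iff₀ hC]
        exact (h x).2
      · rw [le_inv_mul_iff₀ hc]
        exact (h x).1
    · rintro p q r ⟨c, C, hc, hcC, h⟩ ⟨d, D, hd, hdD, h'⟩
      have hD : 0 < D := hd.trans_le hdD
      refine ⟨d * c, D * C, mul_pos hd hc, mul_le_mul hdD hcC hc.le hD.le, fun x => ⟨?_, ?_⟩⟩
      · rw [mul_assoc]
        exact (mul_le_mul_of_nonneg_left (h x).1 hd.le).trans (h' x).1
      · rw [mul_assoc]
        exact (h' x).2.trans (mul_le_mul_of_nonneg_left (h x).2 hD.le)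

/-- The number `N(A)` of equivalence classes of Banach algebra norms on `A`, a natural number
or infinity. -/
noncomputable def numBanachAlgebraNorms (A : Type) [NonUnitalRing A] [Module ℂ A] : ℕ∞ :=
  ENat.card (Quotient (normSetoid A))

end Pool.Agent.Lib_helper37.TwoNormsDefs
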